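import Mathlib

/-!
Lower bounds for binomial coefficients near the middle.
-/

set_option autoImplicit false

open Finset

namespace Pool.MP43e44c.GL

theorem LowA_cb (m : ℕ) (hm : 1 ≤ m) :
    16 ^ m ≤ 4 * m * (Nat.centralBinom m) ^ 2 := by
  induction m, hm using Nat.le_induction with
  | base => simp [Nat.centralBinom]
  | succ m hm ih =>
    have h1 := Nat.succ_mul_centralBinom_succ m
    have h2 : (m + 1) * (4 * (m + 1) * (Nat.centralBinom (m + 1)) ^ 2)
        = 4 * (2 * (2 * m + 1) * Nat.centralBinom m) ^ 2 := by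
      rw [← h1]; ring
    have h3 : (m + 1) * 16 ^ (m + 1) ≤ (m + 1) * (4 * (m + 1) * (Nat.centralBinom (m + 1)) ^ 2) := by
      rw [h2]
      calc (m + 1) * 16 ^ (m + 1) = 16 * (m + 1) * 16 ^ m := by ring
        _ ≤ 16 * (m + 1) * (4 * m * (Nat.centralBinom m) ^ 2) := Nat.mul_le_mul_left _ ih
        _ = 16 * (4 * m * (m + 1)) * (Nat.centralBinom m) ^ 2 := by ring
        _ ≤ 16 * (2 * m + 1) ^ 2 * (Nat.centralBinom m) ^ 2 := by
            apply Nat.mul_le_mul_right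
            apply Nat.mul_le_mul_left
            nlinarith
        _ = _ := by ring
    exact Nat.le_of_mul_le_mul_left h3 (by omega)

/-- the middle coefficient -/
theorem LowA_mid (m : ℕ) (hm : 1 ≤ m) : 4 ^ m ≤ 4 * m * (m.choose (m / 2)) ^ 2 := by
  rcases Nat.even_or_odd' m with ⟨n, rfl | rfl⟩
  · have h1 := LowA_cb n (by omega)
    rw [Nat.centralBinom_eq_two_mul_choose] at h1
    rw [Nat.mul_div_cancel_left n (by norm_num : 0 < 2), pow_mul]
    norm_num
    calc 16 ^ n ≤ 4 * n * (2 * n).choose n ^ 2 := h1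
      _ ≤ 4 * (2 * n) * (2 * n).choose n ^ 2 := by
          apply Nat.mul_le_mul_right
          omega
  · have h1 := LowA_cb (n + 1) (by omega)
    have h2 : Nat.centralBinom (n + 1) = 2 * (2 * n + 1).choose n := by
      rw [Nat.centralBinom_eq_two_mul_choose, show 2 * (n + 1) = (2 * n + 1) + 1 by ring,
        Nat.choose_succ_succ']
      have h3 : (2 * n + 1).choose (n + 1) = (2 * n + 1).choose n :=
        Nat.choose_symm_of_eq_add (by ring)
      rw [h3]
      ring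
    rw [h2] at h1
    have h4 : (2 * n + 1) / 2 = n := by omega
    rw [h4]
    have h5 : 4 * 4 ^ (2 * n + 1) ≤ 4 * (4 * (2 * n + 1) * (2 * n + 1).choose n ^ 2) := by
      calc 4 * 4 ^ (2 * n + 1) = 16 ^ (n + 1) := by
            rw [show (16 : ℕ) = 4 ^ 2 by norm_num, ← pow_mul, ← pow_succ']
            congr 1
        _ ≤ 4 * (n + 1) * (2 * (2 * n + 1).choose n) ^ 2 := h1
        _ = 4 * (4 * (n + 1) * (2 * n + 1).choose n ^ 2) := by ring
        _ ≤ 4 * (4 * (2 * n + 1) * (2 * n + 1).choose n ^ 2) := by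
            apply Nat.mul_le_mul_left
            apply Nat.mul_le_mul_right
            omega
    exact Nat.le_of_mul_le_mul_left h5 (by norm_num)

theorem LowA_mid_real (m : ℕ) (hm : 1 ≤ m) : 2 ^ m / (2 * √m) ≤ (m.choose (m / 2) : ℝ) := by
  have h1 := LowA_mid m hm
  have h2 : ((4 : ℝ)) ^ m ≤ 4 * m * (m.choose (m / 2) : ℝ) ^ 2 := by exact_mod_cast h1
  have hm0 : (0 : ℝ) < m := by exact_mod_cast hm
  have hs : 0 < √(m : ℝ) := Real.sqrt_pos.2 hm0
  rw [div_le_iff₀ (by positivity)]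
  refine abs_le_of_sq_le_sq' ?_ (by positivity) |>.2
  have h3 : ((2 : ℝ) ^ m) ^ 2 = 4 ^ m := by
    rw [← pow_mul, mul_comm, pow_mul]
    norm_num
  rw [h3, mul_pow, mul_pow, Real.sq_sqrt hm0.le]
  linarith

/-- steps away from the middle -/
theorem LowA_step (m h : ℕ) (hh : 2 * h ≤ m) (j : ℕ) :
    (m.choose h : ℝ) * (1 - (j : ℝ) ^ 2 / (h + 1)) ≤ (m.choose (h + j) : ℝ) := by
  induction j with
  | zero => simp
  | succ j ih =>
    have hh1 : (0 : ℝ) < (h : ℝ) + 1 := by positivity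
    have hc0 : (0 : ℝ) ≤ (m.choose h : ℝ) := by positivity
    by_cases hneg : 1 - ((j : ℝ) + 1) ^ 2 / (h + 1) ≤ 0
    · push_cast
      have : (0 : ℝ) ≤ (m.choose (h + (j + 1)) : ℝ) := by positivity
      nlinarith [mul_nonneg hc0 (neg_nonneg.2 hneg)]
    · push Not at hneg
      have h2 : ((j : ℝ) + 1) ^ 2 < (h : ℝ) + 1 := by
        rw [sub_pos, div_lt_one hh1] at hneg
        exact hneg
      have hjh : j ≤ h := by
        have : (j : ℝ) < (h : ℝ) + 1 := by nlinarith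
        have : j < h + 1 := by exact_mod_cast this
        omega
      have h3 := Nat.choose_succ_right_eq m (h + j)
      have h4 : (m.choose (h + j + 1) : ℝ) * ((h : ℝ) + j + 1)
          = (m.choose (h + j) : ℝ) * ((m : ℝ) - (h + j)) := by
        have h5 : ((m - (h + j) : ℕ) : ℝ) = (m : ℝ) - (h + j) := by
          rw [Nat.cast_sub (by omega)]
          push_cast
          ring
        rw [← h5]
        exact_mod_cast h3
      have h6 : (h : ℝ) - j ≤ (m : ℝ) - (h + j) := by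
        have : (2 * (h : ℝ)) ≤ m := by exact_mod_cast hh
        linarith
      have hcj : (0 : ℝ) ≤ (m.choose (h + j) : ℝ) := by positivity
      have hd : (0 : ℝ) < (h : ℝ) + j + 1 := by positivity
      have h7 : (m.choose (h + j) : ℝ) * (((h : ℝ) - j) / (h + j + 1)) ≤ (m.choose (h + j + 1) : ℝ) := by
        rw [← mul_div_assoc, div_le_iff₀ hd, h4]
        exact mul_le_mul_of_nonneg_left h6 hcj
      have h8 : 1 - (2 * (j : ℝ) + 1) / (h + 1) ≤ ((h : ℝ) - j) / (h + j + 1) := by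
        have e1 : ((h : ℝ) - j) / (h + j + 1) = 1 - (2 * (j : ℝ) + 1) / (h + j + 1) := by
          field_simp
          ring
        rw [e1]
        have e2 : (2 * (j : ℝ) + 1) / (h + j + 1) ≤ (2 * (j : ℝ) + 1) / (h + 1) := by
          apply div_le_div_of_nonneg_left (by positivity) hh1
          linarith [(Nat.cast_nonneg j : (0 : ℝ) ≤ j)]
        linarith
      have h9 : (0 : ℝ) ≤ 1 - (j : ℝ) ^ 2 / (h + 1) := by
        rw [sub_nonneg, div_le_one hh1]
        nlinarith [(Nat.cast_nonneg j : (0 : ℝ) ≤ j)]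
      have h10 : (0 : ℝ) ≤ ((h : ℝ) - j) / (h + j + 1) := by
        apply div_nonneg _ hd.le
        have : (j : ℝ) ≤ h := by exact_mod_cast hjh
        linarith
      have h11 : (1 - (j : ℝ) ^ 2 / (h + 1)) * (1 - (2 * (j : ℝ) + 1) / (h + 1)) ≥
          1 - ((j : ℝ) + 1) ^ 2 / (h + 1) := by
        have e1 : ((j : ℝ) + 1) ^ 2 / (h + 1) = (j : ℝ) ^ 2 / (h + 1) + (2 * (j : ℝ) + 1) / (h + 1) := by
          rw [← add_div]
          congr 1
          ring
        rw [e1]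
        have e2 : 0 ≤ (j : ℝ) ^ 2 / (h + 1) := by positivity
        have e3 : 0 ≤ (2 * (j : ℝ) + 1) / (h + 1) := by positivity
        nlinarith [mul_nonneg e2 e3]
      have h12 : (1 - (j : ℝ) ^ 2 / (h + 1)) * (1 - (2 * (j : ℝ) + 1) / (h + 1)) ≤
          (1 - (j : ℝ) ^ 2 / (h + 1)) * (((h : ℝ) - j) / (h + j + 1)) :=
        mul_le_mul_of_nonneg_left h8 h9
      rw [← add_assoc]
      push_cast
      calc (m.choose h : ℝ) * (1 - ((j : ℝ) + 1) ^ 2 / (h + 1))
          ≤ (m.choose h : ℝ) * ((1 - (j : ℝ) ^ 2 / (h + 1)) * (((h : ℝ) - j) / (h + j + 1))) :=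
            mul_le_mul_of_nonneg_left (h11.le.trans h12) hc0
        _ = ((m.choose h : ℝ) * (1 - (j : ℝ) ^ 2 / (h + 1))) * (((h : ℝ) - j) / (h + j + 1)) := by
            ring
        _ ≤ (m.choose (h + j) : ℝ) * (((h : ℝ) - j) / (h + j + 1)) :=
            mul_le_mul_of_nonneg_right ih h10
        _ ≤ _ := h7

/-- the upper half -/
theorem LowA_up (m k : ℕ) (hm : 16 ≤ m) (hk : m / 2 ≤ k) (h : 2 * (k : ℝ) - m ≤ √m / 2) :
    2 ^ m / (4 * √m) ≤ (m.choose k : ℝ) := by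
  obtain ⟨j, rfl⟩ := Nat.exists_eq_add_of_le hk
  have h1 := LowA_step m (m / 2) (Nat.mul_div_le m 2) j
  have h2 := LowA_mid_real m (by omega)
  have hm0 : (16 : ℝ) ≤ m := by exact_mod_cast hm
  have hs4 : 4 ≤ √(m : ℝ) := by
    rw [show (4 : ℝ) = √16 by rw [show (16 : ℝ) = 4 ^ 2 by norm_num, Real.sqrt_sq (by norm_num)]]
    exact Real.sqrt_le_sqrt hm0
  have hsq : √(m : ℝ) ^ 2 = m := Real.sq_sqrt (by linarith)
  have hm2 : (m : ℝ) ≤ 2 * ((m / 2 : ℕ) : ℝ) + 1 := by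
    have : m ≤ 2 * (m / 2) + 1 := by omega
    exact_mod_cast this
  push_cast at h
  have hj0 : (0 : ℝ) ≤ (j : ℝ) := Nat.cast_nonneg j
  have hj : (j : ℝ) ≤ 3 * √m / 8 := by linarith
  have hj2 : (j : ℝ) ^ 2 ≤ 9 * m / 64 := by
    calc (j : ℝ) ^ 2 ≤ (3 * √m / 8) ^ 2 := pow_le_pow_left₀ hj0 hj 2
      _ = 9 * √m ^ 2 / 64 := by ring
      _ = 9 * m / 64 := by rw [hsq]
  have hh : (0 : ℝ) < ((m / 2 : ℕ) : ℝ) + 1 := by positivity
  have h3 : (j : ℝ) ^ 2 / (((m / 2 : ℕ) : ℝ) + 1) ≤ 1 / 2 := by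
    rw [div_le_iff₀ hh]
    linarith
  have hc0 : (0 : ℝ) ≤ (m.choose (m / 2) : ℝ) := by positivity
  have h4 : (m.choose (m / 2) : ℝ) * (1 / 2) ≤ (m.choose (m / 2 + j) : ℝ) := by
    refine le_trans ?_ h1
    apply mul_le_mul_of_nonneg_left _ hc0
    linarith
  refine le_trans ?_ h4
  have h5 : (2 : ℝ) ^ m / (4 * √m) = 2 ^ m / (2 * √m) * (1 / 2) := by
    field_simp
    ring
  rw [h5]
  exact mul_le_mul_of_nonneg_right h2 (by norm_num)

/-- PROOF. `m.choose ⌊m/2⌋ ≥ 2 ^ m / (2 √m)` (`Nat.four_pow_le_two_mul_self_mul_centralBinom` or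
`four_pow_le_centralBinom_sq` in AB/LowN.lean, and `choose_middle`-type monotonicity for odd `m`), and for
`k = ⌊m/2⌋ + j`, `0 ≤ j ≤ √m / 4 + 1`, the quotient `m.choose k / m.choose ⌊m/2⌋` is
`∏_{1 ≤ i ≤ j} (⌈m/2⌉ - i + 1) / (⌊m/2⌋ + i) ≥ (1 - (2 j - 1) / (m / 2)) ^ j ≥ 1 - j (4 j) / m`, bounded
below by a positive constant for `m ≥ m₀`; the other half by symmetry. -/
theorem choose_low : ∃ c : ℝ, 0 < c ∧ ∃ m₀ : ℕ, ∀ m k : ℕ, m₀ ≤ m →
    |2 * (k : ℝ) - m| ≤ √m / 2 → c / √m * 2 ^ m ≤ (m.choose k : ℝ) := by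
  refine ⟨1 / 4, by norm_num, 16, ?_⟩
  intro m k hm h
  have hm0 : (16 : ℝ) ≤ m := by exact_mod_cast hm
  have hs0 : 0 < √(m : ℝ) := Real.sqrt_pos.2 (by linarith)
  have e1 : (1 / 4 : ℝ) / √m * 2 ^ m = 2 ^ m / (4 * √m) := by
    field_simp
  rw [e1]
  rw [abs_le] at h
  by_cases hk : m / 2 ≤ k
  · exact LowA_up m k hm hk h.2
  · push Not at hk
    have hkm : k ≤ m := by omega
    rw [← Nat.choose_symm hkm]
    apply LowA_up m (m - k) hm (by omega)
    rw [Nat.cast_sub hkm]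
    linarith [h.1]

end Pool.MP43e44c.GL
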