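import Mathlib

/-!
Sums of random signs: tails.
-/

set_option autoImplicit false

open Finset

namespace Pool.MP43e44c.GL

/-- The moment generating function of a sum of signs. -/
theorem binC_mgf {ι : Type*} [Fintype ι] [DecidableEq ι] (b : ι → ℝ) (hb : ∀ i, |b i| ≤ 1) (l : ℝ) :
    ∑ v : ι → Bool, Real.exp (l * ∑ i, (if v i then b i else - b i))
      ≤ Real.exp (l ^ 2 * Fintype.card ι / 2) * 2 ^ Fintype.card ι := by
  have h1 : ∀ v : ι → Bool, Real.exp (l * ∑ i, (if v i then b i else - b i))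
      = ∏ i, (fun (i : ι) (c : Bool) => Real.exp (l * (if c then b i else - b i))) i (v i) := by
    intro v
    rw [Finset.mul_sum, Real.exp_sum]
  have h2 : ∑ v : ι → Bool, ∏ i, (fun (i : ι) (c : Bool) => Real.exp (l * (if c then b i else - b i))) i (v i)
      = ∏ i, ∑ c : Bool, Real.exp (l * (if c then b i else - b i)) := by
    rw [Finset.prod_univ_sum, Fintype.piFinset_univ]
  have h3 : ∀ i : ι, ∑ c : Bool, Real.exp (l * (if c then b i else - b i))
      ≤ Real.exp (l ^ 2 / 2) * 2 := by
    intro i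
    have e1 : ∑ c : Bool, Real.exp (l * (if c then b i else - b i)) = 2 * Real.cosh (l * b i) := by
      rw [Real.cosh_eq]
      simp
      ring
    rw [e1]
    have e2 := Real.cosh_le_exp_half_sq (l * b i)
    have e3 : (l * b i) ^ 2 ≤ l ^ 2 := by
      rw [mul_pow]
      have : (b i) ^ 2 ≤ 1 := by
        have := hb i
        rw [← sq_abs]
        nlinarith [abs_nonneg (b i)]
      nlinarith [sq_nonneg l]
    have e4 : Real.exp ((l * b i) ^ 2 / 2) ≤ Real.exp (l ^ 2 / 2) :=
      Real.exp_le_exp.mpr (by linarith)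
    linarith
  rw [Finset.sum_congr rfl (fun v _ => h1 v), h2]
  have h4 : ∏ i : ι, ∑ c : Bool, Real.exp (l * (if c then b i else - b i))
      ≤ ∏ _i : ι, (Real.exp (l ^ 2 / 2) * 2) := by
    apply Finset.prod_le_prod
    · intro i _
      exact Finset.sum_nonneg (fun c _ => (Real.exp_pos _).le)
    · intro i _
      exact h3 i
  refine h4.trans (le_of_eq ?_)
  rw [Finset.prod_const, mul_pow, Finset.card_univ, ← Real.exp_nat_mul]
  congr 2
  ring

/-- One-sided tail. -/
theorem binC_one {ι : Type*} [Fintype ι] [DecidableEq ι] (b : ι → ℝ) (hb : ∀ i, |b i| ≤ 1)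
    (h1 : 1 ≤ Fintype.card ι) {t : ℝ} (ht : 0 ≤ t) :
    (((Finset.univ : Finset (ι → Bool)).filter
      (fun v => t ≤ ∑ i, (if v i then b i else - b i))).card : ℝ)
      ≤ Real.exp (-t ^ 2 / (2 * Fintype.card ι)) * 2 ^ Fintype.card ι := by
  have hm : (0 : ℝ) < Fintype.card ι := by exact_mod_cast h1
  set m : ℝ := (Fintype.card ι : ℝ) with hmdef
  have hl : 0 ≤ t / m := div_nonneg ht hm.le
  have key := binC_mgf b hb (t / m)
  have h2 : (((Finset.univ : Finset (ι → Bool)).filter
      (fun v => t ≤ ∑ i, (if v i then b i else - b i))).card : ℝ) * Real.exp ((t / m) * t)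
      ≤ ∑ v : ι → Bool, Real.exp ((t / m) * ∑ i, (if v i then b i else - b i)) := by
    rw [← nsmul_eq_mul, ← Finset.sum_const]
    refine le_trans ?_ (Finset.sum_le_sum_of_subset_of_nonneg (Finset.filter_subset
      (fun v : ι → Bool => t ≤ ∑ i, (if v i then b i else - b i)) Finset.univ)
      (fun v _ _ => (Real.exp_pos _).le))
    apply Finset.sum_le_sum
    intro v hv
    rw [Finset.mem_filter] at hv
    apply Real.exp_le_exp.mpr
    exact mul_le_mul_of_nonneg_left hv.2 hl
  have h3 := h2.trans key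
  have e1 : (t / m) * t = t ^ 2 / m := by ring
  have e2 : (t / m) ^ 2 * (Fintype.card ι : ℝ) / 2 = t ^ 2 / (2 * m) := by
    rw [← hmdef]
    field_simp
  rw [e1, e2] at h3
  have hpos : 0 < Real.exp (t ^ 2 / m) := Real.exp_pos _
  have e3 : Real.exp (-t ^ 2 / (2 * m)) * Real.exp (t ^ 2 / m) = Real.exp (t ^ 2 / (2 * m)) := by
    rw [← Real.exp_add]
    congr 1
    field_simp
    ring
  have h4 : (((Finset.univ : Finset (ι → Bool)).filter
      (fun v => t ≤ ∑ i, (if v i then b i else - b i))).card : ℝ) * Real.exp (t ^ 2 / m)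
      ≤ (Real.exp (-t ^ 2 / (2 * m)) * 2 ^ Fintype.card ι) * Real.exp (t ^ 2 / m) := by
    refine h3.trans (le_of_eq ?_)
    rw [← e3]
    ring
  exact le_of_mul_le_mul_right h4 hpos

/-- Chernoff: `∏ cosh (l a_i) ≤ exp (l ^ 2 m / 2)` with `l = t / m` (`Real.cosh_le_exp_half_sq`), for both
signs. -/
theorem sign_tail {ι : Type*} [Fintype ι] (a : ι → ℤ) (ha : ∀ i, |a i| ≤ 1)
    (h1 : 1 ≤ Fintype.card ι) {t : ℝ} (ht : 0 ≤ t) :
    ({v : ι → Bool | t ≤ |((∑ i, (if v i then a i else - a i) : ℤ) : ℝ)|}.ncard : ℝ)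
      ≤ 2 * Real.exp (-t ^ 2 / (2 * Fintype.card ι)) * 2 ^ Fintype.card ι := by
  classical
  set b : ι → ℝ := fun i => (a i : ℝ) with hb
  have hb1 : ∀ i, |b i| ≤ 1 := by
    intro i
    have h2 := ha i
    change |((a i : ℤ) : ℝ)| ≤ 1
    exact_mod_cast h2
  have hb2 : ∀ i, |(fun i => - b i) i| ≤ 1 := by
    intro i
    simpa using hb1 i
  have k1 := binC_one b hb1 h1 ht
  have k2 := binC_one (fun i => - b i) hb2 h1 ht
  have hcast : ∀ v : ι → Bool, ((∑ i, (if v i then a i else - a i) : ℤ) : ℝ)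
      = ∑ i, (if v i then b i else - b i) := by
    intro v
    rw [Int.cast_sum]
    apply Finset.sum_congr rfl
    intro i _
    by_cases h : v i = true
    · simp [h, hb]
    · simp [h, hb]
  have hneg : ∀ v : ι → Bool, (∑ i, (if v i then (fun i => - b i) i else - (fun i => - b i) i))
      = - ∑ i, (if v i then b i else - b i) := by
    intro v
    rw [← Finset.sum_neg_distrib]
    apply Finset.sum_congr rfl
    intro i _
    by_cases h : v i = true
    · simp [h]
    · simp [h]
  have hsub : {v : ι → Bool | t ≤ |((∑ i, (if v i then a i else - a i) : ℤ) : ℝ)|}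
      ⊆ (((Finset.univ : Finset (ι → Bool)).filter
        (fun v => t ≤ ∑ i, (if v i then b i else - b i))
        ∪ (Finset.univ : Finset (ι → Bool)).filter
        (fun v => t ≤ ∑ i, (if v i then (fun i => - b i) i else - (fun i => - b i) i))
        : Finset (ι → Bool)) : Set (ι → Bool)) := by
    intro v hv
    change t ≤ |((∑ i, (if v i then a i else - a i) : ℤ) : ℝ)| at hv
    rw [hcast v] at hv
    rw [Finset.mem_coe, Finset.mem_union, Finset.mem_filter, Finset.mem_filter, hneg v]
    rcases le_abs.mp hv with h | h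
    · exact Or.inl ⟨Finset.mem_univ _, h⟩
    · exact Or.inr ⟨Finset.mem_univ _, h⟩
  have h5 := Set.ncard_le_ncard hsub (Finset.finite_toSet _)
  rw [Set.ncard_coe_finset] at h5
  have h6 := h5.trans (Finset.card_union_le _ _)
  have h7 : ({v : ι → Bool | t ≤ |((∑ i, (if v i then a i else - a i) : ℤ) : ℝ)|}.ncard : ℝ)
      ≤ (((Finset.univ : Finset (ι → Bool)).filter
        (fun v => t ≤ ∑ i, (if v i then b i else - b i))).card : ℝ)
        + (((Finset.univ : Finset (ι → Bool)).filter
        (fun v => t ≤ ∑ i, (if v i then (fun i => - b i) i else - (fun i => - b i) i))).card : ℝ) := by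
    exact_mod_cast h6
  linarith

end Pool.MP43e44c.GL
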