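import Pool.Agent.H.MP_43e44c_ag.GL.BinB
import Pool.Agent.H.MP_43e44c_ag.GL.BinC

/-!
Gaussian bounds for the atoms of sums of vectors with random signs.
-/

set_option autoImplicit false

open Finset

namespace Pool.MP43e44c.GL

/-- Counting by the values of independent coordinates. -/
theorem Atom_count {κ : Type*} [Fintype κ] [DecidableEq κ] {A : Type*} [Fintype A]
    {B : κ → Type*} [∀ q, Fintype (B q)] (Z : A → κ → ℤ) (Y : ∀ q, B q → ℤ) (b : κ → κ → ℤ)
    (hb : LinearIndependent ℚ (fun (q : κ) (p : κ) => (b q p : ℚ))) (hb1 : ∀ q p, |b q p| ≤ 1)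
    (z : κ → ℤ) (p₀ : κ) (K : κ → ℝ) (E : ℝ) (hE0 : 0 ≤ E)
    (hK : ∀ q (y : ℤ), (((univ.filter fun a => Y q a = y).card : ℕ) : ℝ) ≤ K q)
    (hK' : ∀ q (y : ℤ), |(z p₀ : ℝ)| / (2 * Fintype.card κ) ≤ |(y : ℝ)| →
      (((univ.filter fun a => Y q a = y).card : ℕ) : ℝ) ≤ K q * E) :
    (((univ.filter fun v : A × (∀ q, B q) => Z v.1 + ∑ q, Y q (v.2 q) • b q = z).card : ℕ) : ℝ) ≤
      (∏ q, K q) * (((univ.filter fun w : A => |(z p₀ : ℝ)| / 2 ≤ |(Z w p₀ : ℝ)|).card : ℕ) +
        E * Fintype.card A) := by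
  classical
  have hK0 : ∀ q, 0 ≤ K q := fun q => (Nat.cast_nonneg _).trans (hK q 0)
  have hP0 : 0 ≤ ∏ q, K q := Finset.prod_nonneg fun q _ => hK0 q
  have hd : 0 < Fintype.card κ := Fintype.card_pos_iff.2 ⟨p₀⟩
  have hd' : (0 : ℝ) < Fintype.card κ := by exact_mod_cast hd
  have hw : ∀ w : A,
      (((univ.filter fun u : (∀ q, B q) => Z w + ∑ q, Y q (u q) • b q = z).card : ℕ) : ℝ) ≤
      (∏ q, K q) * ((if |(z p₀ : ℝ)| / 2 ≤ |(Z w p₀ : ℝ)| then 1 else 0) + E) := by
    intro w
    rcases Finset.eq_empty_or_nonempty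
      (univ.filter fun u : (∀ q, B q) => Z w + ∑ q, Y q (u q) • b q = z) with hem | ⟨u₀, hu₀⟩
    · rw [hem, Finset.card_empty, Nat.cast_zero]
      refine mul_nonneg hP0 (add_nonneg ?_ hE0)
      split_ifs
      · exact zero_le_one
      · exact le_rfl
    · rw [Finset.mem_filter] at hu₀
      have hsub : (univ.filter fun u : (∀ q, B q) => Z w + ∑ q, Y q (u q) • b q = z) ⊆
          Fintype.piFinset fun q => univ.filter fun a => Y q a = Y q (u₀ q) := by
        intro u hu
        rw [Finset.mem_filter] at hu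
        rw [Fintype.mem_piFinset]
        intro q
        rw [Finset.mem_filter]
        refine ⟨Finset.mem_univ _, ?_⟩
        have h1 : ∑ q, Y q (u q) • b q = ∑ q, Y q (u₀ q) • b q :=
          add_left_cancel (hu.2.trans hu₀.2.symm)
        have h2 : ∑ q, ((Y q (u q) - Y q (u₀ q) : ℤ) : ℚ) • (fun p : κ => (b q p : ℚ)) = 0 := by
          funext p
          have h3 := congrFun h1 p
          simp only [Finset.sum_apply, Pi.smul_apply, smul_eq_mul] at h3
          simp only [Finset.sum_apply, Pi.smul_apply, smul_eq_mul, Pi.zero_apply]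
          have h4 : ∑ q, (Y q (u q) - Y q (u₀ q)) * b q p = 0 := by
            simp only [sub_mul, Finset.sum_sub_distrib]
            rw [h3, sub_self]
          exact_mod_cast h4
        have h3 := Fintype.linearIndependent_iff.1 hb _ h2 q
        have h4 : Y q (u q) - Y q (u₀ q) = 0 := by exact_mod_cast h3
        omega
      have hcard : (((univ.filter fun u : (∀ q, B q) =>
          Z w + ∑ q, Y q (u q) • b q = z).card : ℕ) : ℝ) ≤
          ∏ q, (((univ.filter fun a => Y q a = Y q (u₀ q)).card : ℕ) : ℝ) := by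
        have h1 := Finset.card_le_card hsub
        rw [Fintype.card_piFinset] at h1
        exact_mod_cast h1
      refine hcard.trans ?_
      by_cases hZ : |(z p₀ : ℝ)| / 2 ≤ |(Z w p₀ : ℝ)|
      · rw [if_pos hZ]
        calc ∏ q, (((univ.filter fun a => Y q a = Y q (u₀ q)).card : ℕ) : ℝ) ≤ ∏ q, K q :=
              Finset.prod_le_prod (fun q _ => Nat.cast_nonneg _) fun q _ => hK q _
          _ = (∏ q, K q) * 1 := (mul_one _).symm
          _ ≤ _ := mul_le_mul_of_nonneg_left (by linarith) hP0
      · rw [if_neg hZ, zero_add]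
        obtain ⟨q₁, hq₁⟩ : ∃ q, |(z p₀ : ℝ)| / (2 * Fintype.card κ) ≤ |((Y q (u₀ q) : ℤ) : ℝ)| := by
          by_contra hcon
          push Not at hcon hZ
          have h1 := congrFun hu₀.2 p₀
          simp only [Pi.add_apply, Finset.sum_apply, Pi.smul_apply, smul_eq_mul] at h1
          have h2 : (z p₀ : ℝ) = (Z w p₀ : ℝ) + ∑ q, ((Y q (u₀ q) : ℤ) : ℝ) * (b q p₀ : ℝ) := by
            rw [← h1]
            push_cast
            rfl
          have h3 : |∑ q, ((Y q (u₀ q) : ℤ) : ℝ) * (b q p₀ : ℝ)| ≤ |(z p₀ : ℝ)| / 2 := by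
            calc |∑ q, ((Y q (u₀ q) : ℤ) : ℝ) * (b q p₀ : ℝ)|
                ≤ ∑ q, |((Y q (u₀ q) : ℤ) : ℝ) * (b q p₀ : ℝ)| := Finset.abs_sum_le_sum_abs _ _
              _ ≤ ∑ _q : κ, |(z p₀ : ℝ)| / (2 * Fintype.card κ) := by
                  refine Finset.sum_le_sum fun q _ => ?_
                  rw [abs_mul]
                  have h4 : |(b q p₀ : ℝ)| ≤ 1 := by exact_mod_cast hb1 q p₀
                  calc |((Y q (u₀ q) : ℤ) : ℝ)| * |(b q p₀ : ℝ)|
                      ≤ |((Y q (u₀ q) : ℤ) : ℝ)| * 1 :=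
                        mul_le_mul_of_nonneg_left h4 (abs_nonneg _)
                    _ = |((Y q (u₀ q) : ℤ) : ℝ)| := mul_one _
                    _ ≤ _ := (hcon q).le
              _ = |(z p₀ : ℝ)| / 2 := by
                  rw [Finset.sum_const, Finset.card_univ, nsmul_eq_mul]
                  field_simp
          have h5 : |(z p₀ : ℝ)| ≤ |(Z w p₀ : ℝ)| +
              |∑ q, ((Y q (u₀ q) : ℤ) : ℝ) * (b q p₀ : ℝ)| := by
            conv_lhs => rw [h2]
            exact abs_add_le _ _
          linarith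
        calc ∏ q, (((univ.filter fun a => Y q a = Y q (u₀ q)).card : ℕ) : ℝ)
            ≤ ∏ q, (K q * if q = q₁ then E else 1) := by
              refine Finset.prod_le_prod (fun q _ => Nat.cast_nonneg _) fun q _ => ?_
              by_cases hq : q = q₁
              · rw [if_pos hq]
                subst hq
                exact hK' q _ hq₁
              · rw [if_neg hq, mul_one]
                exact hK q _
          _ = (∏ q, K q) * E := by
              rw [Finset.prod_mul_distrib, Finset.prod_ite_eq' univ q₁ (fun _ => E),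
                if_pos (Finset.mem_univ _)]
  have hsum : (((univ.filter fun v : A × (∀ q, B q) =>
      Z v.1 + ∑ q, Y q (v.2 q) • b q = z).card : ℕ) : ℝ) =
      ∑ w : A, (((univ.filter fun u : (∀ q, B q) =>
        Z w + ∑ q, Y q (u q) • b q = z).card : ℕ) : ℝ) := by
    rw [Finset.card_filter, Fintype.sum_prod_type, Nat.cast_sum]
    refine Finset.sum_congr rfl fun w _ => ?_
    rw [Finset.card_filter]
  rw [hsum]
  calc ∑ w : A, (((univ.filter fun u : (∀ q, B q) =>
        Z w + ∑ q, Y q (u q) • b q = z).card : ℕ) : ℝ)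
      ≤ ∑ w : A, (∏ q, K q) * ((if |(z p₀ : ℝ)| / 2 ≤ |(Z w p₀ : ℝ)| then 1 else 0) + E) :=
        Finset.sum_le_sum fun w _ => hw w
    _ = _ := by
        rw [← Finset.mul_sum, Finset.sum_add_distrib, Finset.sum_const, Finset.card_univ,
          nsmul_eq_mul, Finset.card_filter]
        push_cast
        ring

/-- The number of sign patterns as a cardinality of a finset. -/
theorem Atom_ncard {α : Type*} [Fintype α] (P : α → Prop) [DecidablePred P] :
    ({a | P a}.ncard : ℝ) = (((univ.filter P).card : ℕ) : ℝ) := by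
  rw [Set.ncard_eq_toFinset_card', Set.toFinset_setOf]

/-- PROOF. Let `n = card ι`, `d = card κ`, `I q = {i | x i = b q}`: pairwise disjoint (the `b q` are
different), with at least `η n` elements (at least one).  The sum is `∑ q, Y q • b q + Z`, where
`Y q` is the sum of the signs over `I q` and `Z` the sum over the complement of the union `U` of the
`I q`.  For given signs outside of `U` there is at most one `y : κ → ℤ` with `∑ q, y q • b q = z - Z`, and
the number of the signs on `U` with `Y = y` is the product over `q` of the numbers of `sign_up`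
(`m_q = card (I q)`, `η n ≤ m_q ≤ n`).  Let `θ = max |z p|`.  Since `|b q p| ≤ 1`, `θ ≤ ∑ |y q| + |Z p|` for
the `p` with `|z p| = θ`, so `|Z p| ≥ θ / 2` for some `p` or `|y q| ≥ θ / (2 d)` for some `q`.  In the second
case the number of the signs on `U` is at most
`(C / √(η n)) ^ d * exp (- θ ^ 2 / (16 d ^ 2 n)) * 2 ^ card U`.  The proportion of the signs outside of
`U` in the first case is at most `2 d exp (- θ ^ 2 / (8 n))` (`sign_tail`; if the complement of `U` is empty
then `Z = 0` and the first case occurs only for `θ = 0`, where the second case also holds).  Finally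
`∑ (z p) ^ 2 ≤ d θ ^ 2`.  (Use an equivalence `(ι → Bool) ≃ (U → Bool) × (Uᶜ → Bool)` and sum over the
second factor.  If `κ` is empty the claim is trivial with `C = 1`.) -/
theorem atom.{u, v} (κ : Type v) [Fintype κ] [DecidableEq κ] {η : ℝ} (hη : 0 < η) :
    ∃ C c : ℝ, 0 < C ∧ 0 < c ∧ ∀ {ι : Type u} [Fintype ι] (x : ι → κ → ℤ),
      (∀ i p, |x i p| ≤ 1) → ∀ b : κ → κ → ℤ,
      LinearIndependent ℚ (fun (q : κ) (p : κ) => (b q p : ℚ)) →
      (∀ q, η * Fintype.card ι ≤ ({i | x i = b q}.ncard : ℝ)) → 1 ≤ Fintype.card ι →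
      ∀ z : κ → ℤ,
      ({v : ι → Bool | ∑ i, (if v i then x i else - x i) = z}.ncard : ℝ)
        ≤ C * (Fintype.card ι : ℝ) ^ (-(Fintype.card κ : ℝ) / 2) *
          Real.exp (-c * (∑ p, (z p : ℝ) ^ 2) / Fintype.card ι) * 2 ^ Fintype.card ι := by
  classical
  rcases isEmpty_or_nonempty κ with hκ | hκ
  · refine ⟨1, 1, one_pos, one_pos, ?_⟩
    intro ι _ x hx b hb hI hn z
    rw [Atom_ncard]
    have h1 : (((univ.filter fun v : ι → Bool =>
        ∑ i, (if v i then x i else - x i) = z).card : ℕ) : ℝ) ≤ 2 ^ Fintype.card ι := by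
      have h2 := Finset.card_le_univ (univ.filter fun v : ι → Bool =>
        ∑ i, (if v i then x i else - x i) = z)
      rw [Fintype.card_fun, Fintype.card_bool] at h2
      exact_mod_cast h2
    simpa using h1
  obtain ⟨C₀, hC₀, hup⟩ := sign_up.{u}
  set d : ℕ := Fintype.card κ with hd
  have hd0 : 0 < d := Fintype.card_pos
  have hd1 : (1 : ℝ) ≤ d := by exact_mod_cast hd0
  refine ⟨3 * (C₀ / √η) ^ d, 1 / (16 * (d : ℝ) ^ 3), by positivity, by positivity, ?_⟩
  intro ι _ x hx b hb hI hn z
  set n : ℕ := Fintype.card ι with hndef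
  have hn0 : (0 : ℝ) < n := by exact_mod_cast (Nat.lt_of_lt_of_le Nat.zero_lt_one hn)
  -- a coordinate with maximal absolute value
  obtain ⟨p₀, -, hp₀⟩ := Finset.exists_max_image (univ : Finset κ) (fun p => |(z p : ℝ)|)
    Finset.univ_nonempty
  set θ : ℝ := |(z p₀ : ℝ)| with hθ
  have hθ0 : 0 ≤ θ := abs_nonneg _
  -- injectivity of b
  have hbinj : Function.Injective b := by
    intro q q' hqq
    apply hb.injective
    simp only [hqq]
  -- the classes
  set cls : ι → Option κ := fun i => if h : ∃ q, x i = b q then some h.choose else none with hcls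
  have hcls_some : ∀ i q, cls i = some q ↔ x i = b q := by
    intro i q
    simp only [hcls]
    constructor
    · intro h
      split_ifs at h with h1
      rw [Option.some.injEq] at h
      rw [← h]
      exact h1.choose_spec
    · intro h
      have h1 : ∃ q, x i = b q := ⟨q, h⟩
      rw [dif_pos h1, Option.some.injEq]
      exact hbinj (h1.choose_spec.symm.trans h)
  set m : Option κ → ℕ := fun o => Fintype.card {i // cls i = o} with hm
  have hm_n : ∑ o, m o = n := by
    have h1 := Fintype.card_congr (Equiv.sigmaFiberEquiv cls)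
    rw [Fintype.card_sigma] at h1
    exact h1
  have hm_le : ∀ o, m o ≤ n := by
    intro o
    rw [← hm_n]
    exact Finset.single_le_sum (f := m) (fun _ _ => Nat.zero_le _) (Finset.mem_univ o)
  have hmq : ∀ q, η * n ≤ (m (some q) : ℝ) := by
    intro q
    refine (hI q).trans (le_of_eq ?_)
    rw [Atom_ncard]
    norm_cast
    simp only [hm]
    rw [Fintype.card_subtype]
    congr 1
    ext i
    simp only [Finset.mem_filter, Finset.mem_univ, true_and]
    exact (hcls_some i q).symm
  have hηn : 0 < η * n := mul_pos hη hn0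
  have hmq0 : ∀ q, (0 : ℝ) < m (some q) := fun q => hηn.trans_le (hmq q)
  have hmq1 : ∀ q, 1 ≤ m (some q) := fun q => by
    have := hmq0 q
    exact_mod_cast this
  -- the entries of b
  have hb1 : ∀ q p, |b q p| ≤ 1 := by
    intro q p
    have h1 : 0 < Fintype.card {i // cls i = some q} := hmq1 q
    obtain ⟨i⟩ := Fintype.card_pos_iff.1 h1
    have h2 := (hcls_some i.1 q).1 i.2
    rw [← h2]
    exact hx _ _
  -- the running sums
  set Z : ({i // cls i = none} → Bool) → κ → ℤ :=
    fun w => ∑ i : {i // cls i = none}, (if w i then x i.1 else - x i.1) with hZ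
  set Y : ∀ q, ({i // cls i = some q} → Bool) → ℤ :=
    fun q w => ∑ i : {i // cls i = some q}, (if w i then 1 else -1) with hY
  -- the injection
  set Φ : (ι → Bool) → ({i // cls i = none} → Bool) × (∀ q, {i // cls i = some q} → Bool) :=
    fun v => (fun i => v i.1, fun q i => v i.1) with hΦ
  have hΦinj : Function.Injective Φ := by
    intro v v' hvv
    funext i
    rcases ho : cls i with _ | q
    · have h1 := congrFun (congrArg Prod.fst hvv) ⟨i, ho⟩
      exact h1
    · have h1 := congrFun (congrFun (congrArg Prod.snd hvv) q) ⟨i, ho⟩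
      exact h1
  have hΦsum : ∀ v : ι → Bool, ∑ i, (if v i then x i else - x i) =
      Z (Φ v).1 + ∑ q, Y q ((Φ v).2 q) • b q := by
    intro v
    rw [← Fintype.sum_fiberwise cls (fun i => if v i then x i else - x i), Fintype.sum_option]
    congr 1
    refine Finset.sum_congr rfl fun q _ => ?_
    simp only [hY, hΦ]
    rw [Finset.sum_smul]
    refine Finset.sum_congr rfl fun i _ => ?_
    rw [(hcls_some i.1 q).1 i.2]
    split_ifs
    · rw [one_smul]
    · rw [neg_smul, one_smul]
  set E : ℝ := Real.exp (-θ ^ 2 / (16 * (d : ℝ) ^ 2 * n)) with hE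
  have hE0 : 0 < E := Real.exp_pos _
  set K : κ → ℝ := fun q => C₀ / √(η * n) * 2 ^ m (some q) with hKdef
  have hK1 : ∀ q (y : ℤ), (((univ.filter fun a => Y q a = y).card : ℕ) : ℝ) ≤
      K q * Real.exp (-(y : ℝ) ^ 2 / (4 * n)) := by
    intro q y
    have h1 := hup (ι := {i // cls i = some q}) (fun _ => 1) (fun _ => Or.inl rfl) (hmq1 q) y
    rw [Atom_ncard] at h1
    refine h1.trans ?_
    have h2 : C₀ / √(Fintype.card {i // cls i = some q} : ℝ) ≤ C₀ / √(η * n) :=
      div_le_div_of_nonneg_left hC₀.le (Real.sqrt_pos.2 hηn) (Real.sqrt_le_sqrt (hmq q))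
    have h3 : Real.exp (-(y : ℝ) ^ 2 / (4 * (Fintype.card {i // cls i = some q} : ℝ))) ≤
        Real.exp (-(y : ℝ) ^ 2 / (4 * n)) := by
      rw [Real.exp_le_exp, neg_div, neg_div, neg_le_neg_iff]
      refine div_le_div_of_nonneg_left (sq_nonneg _) ?_ ?_
      · have := hmq0 q
        simp only [hm] at this
        linarith
      · have h4 : ((Fintype.card {i // cls i = some q} : ℕ) : ℝ) ≤ n := by
          exact_mod_cast hm_le (some q)
        linarith
    calc C₀ / √(Fintype.card {i // cls i = some q} : ℝ) *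
          Real.exp (-(y : ℝ) ^ 2 / (4 * (Fintype.card {i // cls i = some q} : ℝ))) *
          2 ^ Fintype.card {i // cls i = some q}
        ≤ C₀ / √(η * n) * Real.exp (-(y : ℝ) ^ 2 / (4 * n)) *
          2 ^ Fintype.card {i // cls i = some q} := by
          refine mul_le_mul_of_nonneg_right ?_ (by positivity)
          exact mul_le_mul h2 h3 (Real.exp_pos _).le (by positivity)
      _ = K q * Real.exp (-(y : ℝ) ^ 2 / (4 * n)) := by
          simp only [hKdef, hm]
          ring
  have hK0 : ∀ q, 0 ≤ K q := fun q => by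
    simp only [hKdef]
    positivity
  have hK : ∀ q (y : ℤ), (((univ.filter fun a => Y q a = y).card : ℕ) : ℝ) ≤ K q := by
    intro q y
    refine (hK1 q y).trans ?_
    calc K q * Real.exp (-(y : ℝ) ^ 2 / (4 * n)) ≤ K q * 1 := by
          refine mul_le_mul_of_nonneg_left ?_ (hK0 q)
          rw [Real.exp_le_one_iff, neg_div]
          have : 0 ≤ (y : ℝ) ^ 2 / (4 * n) := by positivity
          linarith
      _ = K q := mul_one _
  have hK' : ∀ q (y : ℤ), |(z p₀ : ℝ)| / (2 * Fintype.card κ) ≤ |(y : ℝ)| →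
      (((univ.filter fun a => Y q a = y).card : ℕ) : ℝ) ≤ K q * E := by
    intro q y hy
    refine (hK1 q y).trans (mul_le_mul_of_nonneg_left ?_ (hK0 q))
    simp only [hE]
    rw [Real.exp_le_exp, neg_div, neg_div, neg_le_neg_iff]
    have h1 : (θ / (2 * d)) ^ 2 ≤ (y : ℝ) ^ 2 := by
      rw [← sq_abs (y : ℝ)]
      exact pow_le_pow_left₀ (by positivity) hy 2
    calc θ ^ 2 / (16 * (d : ℝ) ^ 2 * n) = (θ / (2 * d)) ^ 2 / (4 * n) := by
          field_simp
          ring
      _ ≤ (y : ℝ) ^ 2 / (4 * n) := div_le_div_of_nonneg_right h1 (by positivity)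
  have hcount := Atom_count Z Y b hb hb1 z p₀ K E hE0.le hK hK'
  -- the tail
  have htail : (((univ.filter fun w : {i // cls i = none} → Bool =>
      |(z p₀ : ℝ)| / 2 ≤ |(Z w p₀ : ℝ)|).card : ℕ) : ℝ) ≤ 2 * E * 2 ^ m none := by
    have hexp : Real.exp (-(θ / 2) ^ 2 / (2 * n)) ≤ E := by
      simp only [hE]
      rw [Real.exp_le_exp, neg_div, neg_div, neg_le_neg_iff]
      have h1 : (θ / 2) ^ 2 / (2 * n) = θ ^ 2 / (8 * n) := by
        field_simp
        ring
      rw [h1]
      refine div_le_div_of_nonneg_left (sq_nonneg _) (by positivity) ?_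
      have h2 : (1 : ℝ) ≤ (d : ℝ) ^ 2 := one_le_pow₀ hd1
      nlinarith
    rcases Nat.eq_zero_or_pos (m none) with h0 | h0
    · have hcase : θ = 0 ∨ 0 < θ := hθ0.eq_or_lt.imp (fun h => h.symm) id
      have hemp : IsEmpty {i // cls i = none} := Fintype.card_eq_zero_iff.1 h0
      rcases hcase with h1 | h1
      · have h2 : E = 1 := by
          simp only [hE]
          rw [h1]
          simp
        rw [h2, h0, pow_zero]
        have h3 := Finset.card_le_univ (univ.filter fun w : {i // cls i = none} → Bool =>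
          |(z p₀ : ℝ)| / 2 ≤ |(Z w p₀ : ℝ)|)
        rw [Fintype.card_fun, Fintype.card_bool] at h3
        have h4 : Fintype.card {i // cls i = none} = 0 := h0
        rw [h4, pow_zero] at h3
        have h5 : (((univ.filter fun w : {i // cls i = none} → Bool =>
          |(z p₀ : ℝ)| / 2 ≤ |(Z w p₀ : ℝ)|).card : ℕ) : ℝ) ≤ 1 := by exact_mod_cast h3
        linarith
      · have h2 : (univ.filter fun w : {i // cls i = none} → Bool =>
            |(z p₀ : ℝ)| / 2 ≤ |(Z w p₀ : ℝ)|) = ∅ := by
          rw [Finset.filter_eq_empty_iff]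
          intro w _ h3
          have h4 : Z w = 0 := by
            simp only [hZ]
            exact Finset.sum_of_isEmpty _
          rw [h4] at h3
          simp only [Pi.zero_apply, Int.cast_zero, abs_zero] at h3
          have h5 : |(z p₀ : ℝ)| = θ := rfl
          linarith
        rw [h2, Finset.card_empty, Nat.cast_zero]
        positivity
    · have h1 := sign_tail (ι := {i // cls i = none}) (fun i => x i.1 p₀) (fun i => hx _ _) h0
        (t := θ / 2) (by positivity)
      rw [Atom_ncard] at h1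
      have h2 : (univ.filter fun w : {i // cls i = none} → Bool =>
          |(z p₀ : ℝ)| / 2 ≤ |(Z w p₀ : ℝ)|) = (univ.filter fun w : {i // cls i = none} → Bool =>
          θ / 2 ≤ |((∑ i, (if w i then x i.1 p₀ else - x i.1 p₀) : ℤ) : ℝ)|) := by
        refine Finset.filter_congr fun w _ => ?_
        have h3 : Z w p₀ = ∑ i, (if w i then x i.1 p₀ else - x i.1 p₀) := by
          simp only [hZ]
          rw [Finset.sum_apply]
          refine Finset.sum_congr rfl fun i _ => ?_
          split_ifs
          · rfl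
          · rfl
        rw [h3]
      rw [h2]
      refine h1.trans ?_
      have h3 : Real.exp (-(θ / 2) ^ 2 / (2 * (Fintype.card {i // cls i = none} : ℝ))) ≤
          Real.exp (-(θ / 2) ^ 2 / (2 * n)) := by
        rw [Real.exp_le_exp, neg_div, neg_div, neg_le_neg_iff]
        refine div_le_div_of_nonneg_left (sq_nonneg _) ?_ ?_
        · have : (0 : ℝ) < (Fintype.card {i // cls i = none} : ℝ) := by exact_mod_cast h0
          linarith
        · have h4 : ((Fintype.card {i // cls i = none} : ℕ) : ℝ) ≤ n := by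
            exact_mod_cast hm_le none
          linarith
      have h4 : (0 : ℝ) < 2 ^ Fintype.card {i // cls i = none} := by positivity
      have h5 := h3.trans hexp
      calc 2 * Real.exp (-(θ / 2) ^ 2 / (2 * (Fintype.card {i // cls i = none} : ℝ))) *
            2 ^ Fintype.card {i // cls i = none}
          ≤ 2 * E * 2 ^ Fintype.card {i // cls i = none} :=
            mul_le_mul_of_nonneg_right (by linarith) h4.le
        _ = 2 * E * 2 ^ m none := rfl
  -- assembly
  have hle : ({v : ι → Bool | ∑ i, (if v i then x i else - x i) = z}.ncard : ℝ) ≤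
      (((univ.filter fun v : ({i // cls i = none} → Bool) × (∀ q, {i // cls i = some q} → Bool) =>
        Z v.1 + ∑ q, Y q (v.2 q) • b q = z).card : ℕ) : ℝ) := by
    rw [Atom_ncard]
    have h1 : (univ.filter fun v : ι → Bool => ∑ i, (if v i then x i else - x i) = z).card ≤
        (univ.filter fun v : ({i // cls i = none} → Bool) × (∀ q, {i // cls i = some q} → Bool) =>
        Z v.1 + ∑ q, Y q (v.2 q) • b q = z).card := by
      refine Finset.card_le_card_of_injOn Φ ?_ (fun v _ v' _ h => hΦinj h)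
      intro v hv
      simp only [Finset.coe_filter, Finset.mem_univ, true_and, Set.mem_setOf_eq] at hv ⊢
      rw [← hΦsum]
      exact hv
    exact_mod_cast h1
  have hcardA : (Fintype.card ({i // cls i = none} → Bool) : ℝ) = 2 ^ m none := by
    rw [Fintype.card_fun, Fintype.card_bool]
    push_cast
    rfl
  have hprod : ∏ q, K q = (C₀ / √(η * n)) ^ d * 2 ^ (∑ q, m (some q)) := by
    simp only [hKdef]
    rw [Finset.prod_mul_distrib, Finset.prod_const, Finset.card_univ, Finset.prod_pow_eq_pow_sum]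
  have h2n : (2 : ℝ) ^ (∑ q, m (some q)) * 2 ^ m none = 2 ^ n := by
    rw [← pow_add, ← hm_n, Fintype.sum_option, add_comm]
  have hrpow : (C₀ / √(η * n)) ^ d = (C₀ / √η) ^ d * (n : ℝ) ^ (-(d : ℝ) / 2) := by
    rw [Real.sqrt_mul hη.le, ← div_div, div_pow (C₀ / √η), div_eq_mul_inv]
    congr 1
    rw [Real.sqrt_eq_rpow, ← Real.rpow_natCast, ← Real.rpow_mul hn0.le, ← Real.rpow_neg hn0.le]
    congr 1
    ring
  have hEle : E ≤ Real.exp (-(1 / (16 * (d : ℝ) ^ 3)) * (∑ p, (z p : ℝ) ^ 2) / n) := by
    simp only [hE]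
    rw [Real.exp_le_exp, neg_div, neg_mul, neg_div, neg_le_neg_iff]
    have h1 : ∑ p, (z p : ℝ) ^ 2 ≤ d * θ ^ 2 := by
      calc ∑ p, (z p : ℝ) ^ 2 ≤ ∑ _p : κ, θ ^ 2 := by
            refine Finset.sum_le_sum fun p _ => ?_
            rw [← sq_abs (z p : ℝ)]
            exact pow_le_pow_left₀ (abs_nonneg _) (hp₀ p (Finset.mem_univ p)) 2
        _ = d * θ ^ 2 := by
            rw [Finset.sum_const, Finset.card_univ, nsmul_eq_mul]
    have hd' : (0 : ℝ) < d := by linarith
    rw [div_le_div_iff₀ hn0 (by positivity)]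
    calc 1 / (16 * (d : ℝ) ^ 3) * (∑ p, (z p : ℝ) ^ 2) * (16 * (d : ℝ) ^ 2 * n)
        = (∑ p, (z p : ℝ) ^ 2) * (n / d) := by
          field_simp
      _ ≤ (d * θ ^ 2) * (n / d) := mul_le_mul_of_nonneg_right h1 (by positivity)
      _ = θ ^ 2 * n := by
          field_simp
  have hP0 : 0 ≤ ∏ q, K q := Finset.prod_nonneg fun q _ => hK0 q
  calc ({v : ι → Bool | ∑ i, (if v i then x i else - x i) = z}.ncard : ℝ)
      ≤ (∏ q, K q) * (2 * E * 2 ^ m none + E * 2 ^ m none) := by
        refine hle.trans (hcount.trans (mul_le_mul_of_nonneg_left ?_ hP0))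
        rw [hcardA]
        linarith
    _ = 3 * (C₀ / √(η * n)) ^ d * E * (2 ^ (∑ q, m (some q)) * 2 ^ m none) := by
        rw [hprod]
        ring
    _ = 3 * (C₀ / √η) ^ d * (n : ℝ) ^ (-(d : ℝ) / 2) * E * 2 ^ n := by
        rw [h2n, hrpow]
        ring
    _ ≤ 3 * (C₀ / √η) ^ d * (n : ℝ) ^ (-(d : ℝ) / 2) *
        Real.exp (-(1 / (16 * (d : ℝ) ^ 3)) * (∑ p, (z p : ℝ) ^ 2) / n) * 2 ^ n := by
        refine mul_le_mul_of_nonneg_right (mul_le_mul_of_nonneg_left hEle ?_) (by positivity)
        have : 0 ≤ (n : ℝ) ^ (-(d : ℝ) / 2) := Real.rpow_nonneg hn0.le _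
        positivity

end Pool.MP43e44c.GL
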