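import Pool.Agent.H.MP_43e44c_ag.GL.Co

/-!
Independence of the coordinates of two representations with different kernels.
-/

set_option autoImplicit false

open Finset

namespace Pool.MP43e44c.GL

variable {G : Type*} [Group G] {c : G}

/-- The additive functional with coefficients `l`. -/
def Sp_fun (k : Fin 5) (l : Fin 2 × Fin 2 → ℚ) : M2 →+ ℚ where
  toFun m := ∑ p ∈ coo k, l p * (m p.1 p.2 : ℚ)
  map_zero' := by simp
  map_add' m m' := by
    rw [← Finset.sum_add_distrib]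
    refine Finset.sum_congr rfl fun p _ => ?_
    rw [Matrix.add_apply, Int.cast_add, mul_add]

theorem Sp_fun_apply (k : Fin 5) (l : Fin 2 × Fin 2 → ℚ) (m : M2) :
    Sp_fun k l m = ∑ p ∈ coo k, l p * (m p.1 p.2 : ℚ) := rfl

/-- Extension by zero. -/
def Sp_ext (k : Fin 5) (l : coo k → ℚ) (p : Fin 2 × Fin 2) : ℚ :=
  if h : p ∈ coo k then l ⟨p, h⟩ else 0

theorem Sp_ext_sum (k : Fin 5) (l : coo k → ℚ) (m : M2) :
    ∑ p : coo k, l p * (m p.1.1 p.1.2 : ℚ) = ∑ p ∈ coo k, Sp_ext k l p * (m p.1 p.2 : ℚ) := by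
  rw [← Finset.sum_coe_sort (coo k) (fun p => Sp_ext k l p * (m p.1 p.2 : ℚ))]
  refine Finset.sum_congr rfl fun p _ => ?_
  rw [Sp_ext, dif_pos p.2]

theorem Sp_ext_zero (k : Fin 5) (l : coo k → ℚ) (h : ∀ p ∈ coo k, Sp_ext k l p = 0) :
    ∀ p, l p = 0 := by
  intro p
  have h1 := h p.1 p.2
  rwa [Sp_ext, dif_pos p.2] at h1

/-- PROOF. Let `L M = ∑ p ∈ coo k, l p * M p.1 p.2`, `L'` similarly.  There is `h ∈ ρ'.ker`, `ρ h ≠ 1`.
Apply the relation to `a * h * b` and `a * b` and subtract: `L (ρ a * (ρ h - 1) * ρ b) = 0` for all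
`a, b`.  By `simple` (and `Typ.surj`) `L = 0` on `full k`, so `l = 0` on `coo k` (`coo_indep`); then
`L' = 0` on `full k` and `l' = 0` on `coo k`. -/
theorem span_pair {k : Fin 5} {ρ ρ' : G →* M2} (h : Typ c k ρ) (h' : Typ c k ρ')
    (hne : ¬ ρ'.ker ≤ ρ.ker) (l l' : Fin 2 × Fin 2 → ℚ)
    (h0 : ∀ g, ∑ p ∈ coo k, l p * (ρ g p.1 p.2 : ℚ) + ∑ p ∈ coo k, l' p * (ρ' g p.1 p.2 : ℚ) = 0) :
    (∀ p ∈ coo k, l p = 0) ∧ ∀ p ∈ coo k, l' p = 0 := by
  obtain ⟨x, hx, hx1⟩ := SetLike.not_le_iff_exists.1 hne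
  rw [MonoidHom.mem_ker] at hx hx1
  have key : ∀ u ∈ full k, ∀ v ∈ full k, Sp_fun k l (u * (ρ x - 1) * v) = 0 := by
    intro u hu v hv
    obtain ⟨a, rfl⟩ := h.surj u hu
    obtain ⟨b, rfl⟩ := h.surj v hv
    have h1 := h0 (a * x * b)
    have h2 := h0 (a * b)
    have h3 : ρ' (a * x * b) = ρ' (a * b) := by
      rw [map_mul, map_mul, hx, mul_one, map_mul]
    rw [h3] at h1
    have h4 : Sp_fun k l (ρ (a * x * b)) = Sp_fun k l (ρ (a * b)) := by
      rw [Sp_fun_apply, Sp_fun_apply]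
      linarith
    have h5 : ρ a * (ρ x - 1) * ρ b = ρ (a * x * b) - ρ (a * b) := by
      rw [map_mul, map_mul, map_mul]
      noncomm_ring
    rw [h5, map_sub, h4, sub_self]
  have h1 := simple k (h.mem x) hx1 (Sp_fun k l) key
  have h2 : ∀ p ∈ coo k, l p = 0 := coo_indep k l fun m hm => h1 m hm
  refine ⟨h2, coo_indep k l' fun m hm => ?_⟩
  obtain ⟨g, rfl⟩ := h'.surj m hm
  have h3 := h0 g
  rw [Finset.sum_eq_zero (fun p hp => by rw [h2 p hp, zero_mul]), zero_add] at h3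
  exact h3

/-- Representations of the same type: the kernels have the same order (`ker_card`). -/
theorem ker_eq [Finite G] {k : Fin 5} {ρ ρ' : G →* M2} (h : Typ c k ρ) (h' : Typ c k ρ')
    (hle : ρ'.ker ≤ ρ.ker) : ρ'.ker = ρ.ker := by
  classical
  have := Fintype.ofFinite G
  have h1 := ker_card h
  have h2 := ker_card h'
  have h3 : 0 < 2 * hc k := by
    have h4 : 0 < Fintype.card G := Fintype.card_pos
    rcases Nat.eq_zero_or_pos (2 * hc k) with h5 | h5
    · rw [h5, zero_mul] at h1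
      omega
    · exact h5
  have h4 : Nat.card ρ.ker = Nat.card ρ'.ker := Nat.eq_of_mul_eq_mul_left h3 (h1.symm.trans h2)
  exact Subgroup.eq_of_le_of_card_ge hle h4.le

/-- If the only linear functional which vanishes on all `x t`, `t ∈ T`, is `0`, then the `x t` contain a
basis (`exists_linearIndependent` / `Submodule.span` and `exists_fun_fin_finrank_span_eq`). -/
theorem exists_basis {ι κ : Type*} [Fintype κ] [DecidableEq κ] (x : ι → κ → ℤ)
    (h : ∀ l : κ → ℚ, (∀ i, ∑ p, l p * (x i p : ℚ) = 0) → l = 0) :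
    ∃ t : κ → ι, LinearIndependent ℚ (fun (q : κ) (p : κ) => (x (t q) p : ℚ)) := by
  classical
  set v : ι → κ → ℚ := fun i p => (x i p : ℚ) with hv
  have htop : Submodule.span ℚ (Set.range v) = ⊤ := by
    by_contra hcon
    obtain ⟨f, hf0, hf⟩ := Submodule.exists_le_ker_of_lt_top _ (lt_top_iff_ne_top.2 hcon)
    apply hf0
    have hrep : ∀ w : κ → ℚ, f w = ∑ p, f (fun j => if p = j then 1 else 0) * w p := by
      intro w
      rw [LinearMap.pi_apply_eq_sum_univ f w]
      refine Finset.sum_congr rfl fun p _ => ?_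
      rw [smul_eq_mul, mul_comm]
    have hl : (fun p => f (fun j => if p = j then 1 else 0)) = 0 := by
      apply h
      intro i
      have h2 : f (v i) = 0 := hf (Submodule.subset_span ⟨i, rfl⟩)
      rw [hrep] at h2
      exact h2
    refine LinearMap.ext fun w => ?_
    rw [LinearMap.zero_apply, hrep]
    refine Finset.sum_eq_zero fun p _ => ?_
    have h3 := congrFun hl p
    simp only [Pi.zero_apply] at h3
    rw [h3, zero_mul]
  obtain ⟨b, hbs, hspan, hli⟩ := exists_linearIndependent ℚ (Set.range v)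
  have htop' : ⊤ ≤ Submodule.span ℚ (Set.range (Subtype.val : b → κ → ℚ)) := by
    rw [Subtype.range_coe, hspan, htop]
  let B := Module.Basis.mk hli htop'
  let e : κ ≃ b := (Pi.basisFun ℚ κ).indexEquiv B
  have hmem : ∀ q, ∃ i, v i = ((e q : b) : κ → ℚ) := fun q => hbs (e q).2
  choose t ht using hmem
  refine ⟨t, ?_⟩
  have h3 : (fun (q : κ) (p : κ) => (x (t q) p : ℚ)) = fun q => ((e q : b) : κ → ℚ) :=
    funext fun q => ht q
  rw [h3]
  exact hli.comp e e.injective

/-- `span_pair` and `exists_basis`; the elements outside of `T` are the translates by `c` of the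
elements of `T`, with the opposite coordinates. -/
theorem basis_pair [Fintype G] {k : Fin 5} {ρ ρ' : G →* M2} (h : Typ c k ρ) (h' : Typ c k ρ')
    (hne : ρ.ker ≠ ρ'.ker) (hc2 : c * c = 1) {T : Finset G} (hT : IsHf c T) :
    ∃ t : coo k ⊕ coo k → T, LinearIndependent ℚ
      (fun (q : coo k ⊕ coo k) (p : coo k ⊕ coo k) => (co2 k ρ ρ' (t q) p : ℚ)) := by
  classical
  refine exists_basis (fun (t : T) => co2 k ρ ρ' t) fun l hl => ?_
  set l1 : coo k → ℚ := fun p => l (Sum.inl p) with hl1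
  set l2 : coo k → ℚ := fun p => l (Sum.inr p) with hl2
  have hne' : ¬ ρ'.ker ≤ ρ.ker := fun hle => hne (ker_eq h h' hle).symm
  have hT' : ∀ g ∈ T, ∑ p ∈ coo k, Sp_ext k l1 p * (ρ g p.1 p.2 : ℚ) +
      ∑ p ∈ coo k, Sp_ext k l2 p * (ρ' g p.1 p.2 : ℚ) = 0 := by
    intro g hg
    have h1 := hl ⟨g, hg⟩
    rw [Fintype.sum_sum_type] at h1
    rw [← Sp_ext_sum, ← Sp_ext_sum]
    exact h1
  have hall : ∀ g, ∑ p ∈ coo k, Sp_ext k l1 p * (ρ g p.1 p.2 : ℚ) +
      ∑ p ∈ coo k, Sp_ext k l2 p * (ρ' g p.1 p.2 : ℚ) = 0 := by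
    intro g
    by_cases hg : g ∈ T
    · exact hT' g hg
    · have hg' : g * c ∈ T := by
        by_contra hcon
        exact hg ((hT g).2 hcon)
      have h1 := hT' _ hg'
      rw [map_mul, map_mul, h.odd, h'.odd, mul_neg, mul_neg, mul_one, mul_one] at h1
      simp only [Matrix.neg_apply, Int.cast_neg, mul_neg, Finset.sum_neg_distrib] at h1
      linarith
  obtain ⟨h1, h2⟩ := span_pair h h' hne' _ _ hall
  have h3 := Sp_ext_zero k l1 h1
  have h4 := Sp_ext_zero k l2 h2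
  funext p
  rcases p with p | p
  · exact h3 p
  · exact h4 p

/-- `coo_indep` and `exists_basis`. -/
theorem basis_one [Fintype G] {k : Fin 5} {ρ : G →* M2} (h : Typ c k ρ)
    (hc2 : c * c = 1) {T : Finset G} (hT : IsHf c T) :
    ∃ t : coo k → T, LinearIndependent ℚ
      (fun (q : coo k) (p : coo k) => (co1 k ρ (t q) p : ℚ)) := by
  classical
  refine exists_basis (fun (t : T) => co1 k ρ t) fun l hl => ?_
  have hT' : ∀ g ∈ T, ∑ p ∈ coo k, Sp_ext k l p * (ρ g p.1 p.2 : ℚ) = 0 := by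
    intro g hg
    rw [← Sp_ext_sum]
    exact hl ⟨g, hg⟩
  have hall : ∀ g, ∑ p ∈ coo k, Sp_ext k l p * (ρ g p.1 p.2 : ℚ) = 0 := by
    intro g
    by_cases hg : g ∈ T
    · exact hT' g hg
    · have hg' : g * c ∈ T := by
        by_contra hcon
        exact hg ((hT g).2 hcon)
      have h1 := hT' _ hg'
      rw [map_mul, h.odd, mul_neg, mul_one] at h1
      simp only [Matrix.neg_apply, Int.cast_neg, mul_neg, Finset.sum_neg_distrib] at h1
      linarith
  have h1 : ∀ p ∈ coo k, Sp_ext k l p = 0 := coo_indep k _ fun m hm => by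
    obtain ⟨g, rfl⟩ := h.surj m hm
    exact hall g
  funext p
  exact Sp_ext_zero k l h1 p

end Pool.MP43e44c.GL
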