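import Pool.Agent.H.MP_43e44c_ag.GL.UpA
import Pool.Agent.H.MP_43e44c_ag.GL.Sp
import Pool.Agent.H.MP_43e44c_ag.GL.Atom

/-!
Upper bound for the number of degenerate half systems of a representation.
-/

set_option autoImplicit false

open Finset

namespace Pool.MP43e44c.GL

theorem UpB_hc_le (k : Fin 5) : hc k ≤ 6 ∧ 1 ≤ hc k := by
  revert k; decide

theorem UpB_co1_mul {G : Type*} [Group G] {c : G} {k : Fin 5} {ρ : G →* M2} (h : Typ c k ρ)
    (g : G) : co1 k ρ (g * c) = - co1 k ρ g := by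
  funext p
  simp [co1, map_mul, h.odd]

/-- the fibres of the coordinates are large. -/
theorem UpB_fibre {G : Type*} [Group G] [Fintype G] {c : G} {k : Fin 5} {ρ : G →* M2}
    (h : Typ c k ρ) {n : ℕ} (hn : Fintype.card G = 2 * n) {T : Finset G}
    (hT : ∀ g, g ∈ T ↔ ρ g ∈ hf k) (t : T) :
    (1 / 24 : ℝ) * n ≤ ({i : T | co1 k ρ i = co1 k ρ t}.ncard : ℝ) := by
  have h1 := ker_card h
  have h2 := fib_card h (h.mem (t : G))
  have h3 : {g : G | ρ g = ρ t}.ncard ≤ {i : T | co1 k ρ i = co1 k ρ t}.ncard := by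
    have hsub : {g : G | ρ g = ρ t} ⊆ Subtype.val '' {i : T | co1 k ρ i = co1 k ρ t} := by
      intro g hg
      have hg' : ρ g = ρ t := hg
      have hgT : g ∈ T := by
        rw [hT, hg']
        exact (hT _).1 t.2
      refine ⟨⟨g, hgT⟩, ?_, rfl⟩
      change co1 k ρ g = co1 k ρ t
      funext p
      simp only [co1, hg']
    calc {g : G | ρ g = ρ t}.ncard
        ≤ (Subtype.val '' {i : T | co1 k ρ i = co1 k ρ t}).ncard :=
          Set.ncard_le_ncard hsub (Set.toFinite _)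
      _ ≤ _ := Set.ncard_image_le (Set.toFinite _)
  have h4 : n = hc k * Nat.card ρ.ker := by
    have : 2 * n = 2 * (hc k * Nat.card ρ.ker) := by rw [← hn, h1]; ring
    omega
  have h5 : n ≤ 6 * Nat.card ρ.ker := by
    rw [h4]
    exact Nat.mul_le_mul_right _ (UpB_hc_le k).1
  have h6 : (n : ℝ) ≤ 6 * (Nat.card ρ.ker : ℝ) := by exact_mod_cast h5
  have h7 : (Nat.card ρ.ker : ℝ) ≤ ({i : T | co1 k ρ i = co1 k ρ t}.ncard : ℝ) := by
    rw [h2] at h3
    exact_mod_cast h3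
  have h8 : (0 : ℝ) ≤ n := Nat.cast_nonneg n
  linarith

/-- The number of half systems with a given value is at most the number of sign vectors. -/
theorem UpB_count {G : Type*} [Group G] [Fintype G] [DecidableEq G] {c : G} {k : Fin 5}
    {ρ : G →* M2} (hc2 : c * c = 1) (h : Typ c k ρ) {T : Finset G} (hT : IsHf c T)
    (z : coo k → ℤ) (F : Finset (Finset G)) (hF : ∀ A ∈ F, IsHf c A ∧ ∑ g ∈ A, co1 k ρ g = z) :
    F.card ≤ {v : T → Bool | ∑ i : T, (if v i then co1 k ρ i else - co1 k ρ i) = z}.ncard := by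
  have h1 := half_le (c := c) hc2 hT (fun A => ∑ g ∈ A, co1 k ρ g = z)
    (fun v => ∑ i : T, (if v i then co1 k ρ i else - co1 k ρ i) = z) (by
      intro A hA hz
      have h2 := half_sum hc2 hT hA (co1 k ρ) (UpB_co1_mul h)
      change ∑ i : T, (if decide ((i : G) ∈ A) = true then co1 k ρ i else - co1 k ρ i) = z
      rw [← hz, h2]
      refine Finset.sum_congr rfl fun i _ => ?_
      simp only [decide_eq_true_eq])
  refine le_trans ?_ h1
  rw [← Set.ncard_coe_finset]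
  refine Set.ncard_le_ncard ?_ (Set.toFinite _)
  intro A hA
  exact hF A (Finset.mem_coe.1 hA)

/-- PROOF. Let `T = {g | ρ g ∈ hf k}` (`half_pre`), `T.card = n` (`half_card`).  The sum over a half
system `A` of the `co1 k ρ g` is `∑ t : T, ±co1 k ρ t` (`half_sum`).  Let `z` run over the finite set of the
values of `∑ g ∈ A, co1 k ρ g`, `A ∈ Ev c ρ`; for given `z` the number of the `A` is at most the number of
sign vectors on `T` (`half_le`), which is bounded by `atom` with `κ = coo k`, `x t = co1 k ρ t`,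
`b q = x (t q)` (`basis_one`), `η = 1 / 24`: the fibre of `ρ` over `ρ (t q)` is contained in `T` and has
`n / hc k ≥ n / 6` elements (`fib_card`, `ker_card`).  Sum over `z` with `gauss_sum`. -/
theorem ev_up.{u} (k : Fin 5) : ∃ C : ℝ, 0 < C ∧
    ∀ {G : Type u} [Group G] [Fintype G] {c : G} {ρ : G →* M2}, c * c = 1 → Typ c k ρ →
      ∀ n : ℕ, Fintype.card G = 2 * n → 2 ≤ n →
      ((Ev c ρ).card : ℝ) ≤ C * al k n * 2 ^ n := by
  obtain ⟨Ca, ca, hCa, hca, hatom⟩ := atom.{u, 0} (coo k) (η := 1 / 24) (by norm_num)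
  obtain ⟨Cg, hCg, hg⟩ := gauss_sum.{u} k hca
  refine ⟨Ca * Cg, mul_pos hCa hCg, ?_⟩
  intro G _ _ c ρ hc2 h n hn hn2
  classical
  have hTh : IsHf c (univ.filter fun g => ρ g ∈ hf k) := half_pre h
  have hTm : ∀ g, g ∈ (univ.filter fun g => ρ g ∈ hf k) ↔ ρ g ∈ hf k := fun g => by simp
  generalize (univ.filter fun g => ρ g ∈ hf k) = T at hTh hTm
  have hTc : T.card = n := by
    have := half_card hc2 hTh
    omega
  have hTc' : Fintype.card T = n := by rw [Fintype.card_coe, hTc]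
  obtain ⟨t, ht⟩ := basis_one h hc2 hTh
  have hn0 : (0 : ℝ) < n := by
    have : 0 < n := by omega
    exact_mod_cast this
  have hbound : ∀ z : coo k → ℤ,
      (((Ev c ρ).filter fun A => ∑ g ∈ A, co1 k ρ g = z).card : ℝ)
        ≤ Ca * (n : ℝ) ^ (-((coo k).card : ℝ) / 2) *
          Real.exp (-ca * (∑ p, (z p : ℝ) ^ 2) / n) * 2 ^ n := by
    intro z
    have h1 := UpB_count hc2 h hTh z ((Ev c ρ).filter fun A => ∑ g ∈ A, co1 k ρ g = z) (by
      intro A hA
      rw [Finset.mem_filter] at hA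
      have h2 := hA.1
      unfold Ev at h2
      rw [Finset.mem_filter] at h2
      exact ⟨h2.2.1, hA.2⟩)
    have h2 := hatom (ι := T) (fun i => co1 k ρ i) (by
      intro i p
      exact full_abs k _ (h.mem _) _ _) (fun q => co1 k ρ (t q)) ht (by
      intro q
      rw [hTc']
      exact UpB_fibre h hn hTm (t q)) (by rw [hTc']; omega) z
    rw [hTc', Fintype.card_coe] at h2
    refine le_trans ?_ h2
    exact_mod_cast h1
  have hcard : ((Ev c ρ).card : ℝ) =
      ∑ z ∈ (Ev c ρ).image (fun A => ∑ g ∈ A, co1 k ρ g),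
        (((Ev c ρ).filter fun A => ∑ g ∈ A, co1 k ρ g = z).card : ℝ) := by
    rw [← Nat.cast_sum]
    congr 1
    exact Finset.card_eq_sum_card_image _ _
  rw [hcard]
  have hgs := hg h n hn2 ((Ev c ρ).image (fun A => ∑ g ∈ A, co1 k ρ g)) (by
    intro z hz
    rw [Finset.mem_image] at hz
    obtain ⟨A, hA, hz⟩ := hz
    exact ⟨A, hA, hz.symm⟩)
  have hpow : (n : ℝ) ^ (-((coo k).card : ℝ) / 2) * (n : ℝ) ^ (((coo k).card : ℝ) / 2) = 1 := by
    rw [← Real.rpow_add hn0]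
    have : -((coo k).card : ℝ) / 2 + ((coo k).card : ℝ) / 2 = 0 := by ring
    rw [this, Real.rpow_zero]
  have hnn : 0 ≤ Ca * (n : ℝ) ^ (-((coo k).card : ℝ) / 2) * 2 ^ n := by positivity
  calc ∑ z ∈ (Ev c ρ).image (fun A => ∑ g ∈ A, co1 k ρ g),
        (((Ev c ρ).filter fun A => ∑ g ∈ A, co1 k ρ g = z).card : ℝ)
      ≤ ∑ z ∈ (Ev c ρ).image (fun A => ∑ g ∈ A, co1 k ρ g),
        (Ca * (n : ℝ) ^ (-((coo k).card : ℝ) / 2) * 2 ^ n) *
          Real.exp (-ca * (∑ p, (z p : ℝ) ^ 2) / n) := by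
        refine Finset.sum_le_sum fun z _ => ?_
        refine (hbound z).trans (le_of_eq ?_)
        ring
    _ = (Ca * (n : ℝ) ^ (-((coo k).card : ℝ) / 2) * 2 ^ n) *
        ∑ z ∈ (Ev c ρ).image (fun A => ∑ g ∈ A, co1 k ρ g),
          Real.exp (-ca * (∑ p, (z p : ℝ) ^ 2) / n) := by rw [Finset.mul_sum]
    _ ≤ (Ca * (n : ℝ) ^ (-((coo k).card : ℝ) / 2) * 2 ^ n) *
        (Cg * (n : ℝ) ^ (((coo k).card : ℝ) / 2) * al k n) :=
        mul_le_mul_of_nonneg_left hgs hnn
    _ = Ca * Cg * al k n * 2 ^ n *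
        ((n : ℝ) ^ (-((coo k).card : ℝ) / 2) * (n : ℝ) ^ (((coo k).card : ℝ) / 2)) := by ring
    _ = Ca * Cg * al k n * 2 ^ n := by rw [hpow, mul_one]

end Pool.MP43e44c.GL
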