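import Mathlib

/-!
Upper bounds for binomial coefficients.
-/

set_option autoImplicit false

open Finset

namespace Pool.MP43e44c.GL

theorem BinA_cb (n : ℕ) : (Nat.centralBinom n) ^ 2 * (2 * n + 1) ≤ 16 ^ n := by
  induction n with
  | zero => simp [Nat.centralBinom]
  | succ n ih =>
    have h1 := Nat.succ_mul_centralBinom_succ n
    have hpos : 0 < (n + 1) ^ 2 := by positivity
    refine Nat.le_of_mul_le_mul_left ?_ hpos
    calc (n + 1) ^ 2 * ((Nat.centralBinom (n + 1)) ^ 2 * (2 * (n + 1) + 1))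
        = ((n + 1) * Nat.centralBinom (n + 1)) ^ 2 * (2 * n + 3) := by ring
      _ = (2 * (2 * n + 1) * Nat.centralBinom n) ^ 2 * (2 * n + 3) := by rw [h1]
      _ = ((Nat.centralBinom n) ^ 2 * (2 * n + 1)) * (4 * ((2 * n + 1) * (2 * n + 3))) := by ring
      _ ≤ 16 ^ n * (4 * (4 * (n + 1) ^ 2)) := by
          refine Nat.mul_le_mul ih (Nat.mul_le_mul_left _ ?_)
          nlinarith
      _ = (n + 1) ^ 2 * 16 ^ (n + 1) := by ring

theorem BinA_mid (m : ℕ) : (m.choose (m / 2)) ^ 2 * m ≤ 4 ^ m := by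
  obtain ⟨n, hn | hn⟩ := Nat.even_or_odd' m
  · subst hn
    have h1 : 2 * n / 2 = n := by omega
    rw [h1]
    have h2 : (2 * n).choose n = Nat.centralBinom n := rfl
    rw [h2]
    calc (Nat.centralBinom n) ^ 2 * (2 * n) ≤ (Nat.centralBinom n) ^ 2 * (2 * n + 1) :=
          Nat.mul_le_mul_left _ (by omega)
      _ ≤ 16 ^ n := BinA_cb n
      _ = 4 ^ (2 * n) := by rw [pow_mul]; norm_num
  · subst hn
    have h1 : (2 * n + 1) / 2 = n := by omega
    rw [h1]
    have h2 : Nat.centralBinom (n + 1) = 2 * (2 * n + 1).choose n := by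
      have h3 : Nat.centralBinom (n + 1) = (2 * n + 1 + 1).choose (n + 1) := rfl
      rw [h3, Nat.choose_succ_succ, Nat.choose_symm_half]
      ring
    have h4 := BinA_cb (n + 1)
    rw [h2] at h4
    have h5 : 4 * (((2 * n + 1).choose n) ^ 2 * (2 * n + 1)) ≤ 4 * 4 ^ (2 * n + 1) := by
      calc 4 * (((2 * n + 1).choose n) ^ 2 * (2 * n + 1))
          ≤ (2 * (2 * n + 1).choose n) ^ 2 * (2 * (n + 1) + 1) := by
            have : 4 * (((2 * n + 1).choose n) ^ 2 * (2 * n + 1))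
              = (2 * (2 * n + 1).choose n) ^ 2 * (2 * n + 1) := by ring
            rw [this]
            exact Nat.mul_le_mul_left _ (by omega)
        _ ≤ 16 ^ (n + 1) := h4
        _ = 4 * 4 ^ (2 * n + 1) := by
            rw [pow_succ 4 (2 * n), pow_mul]; norm_num [pow_succ]; ring
    omega

theorem BinA_mid_real (m k : ℕ) (hm : 1 ≤ m) : (m.choose k : ℝ) ≤ 2 ^ m / √m := by
  have h1 : (m.choose k : ℝ) ≤ (m.choose (m / 2) : ℝ) := by
    exact_mod_cast Nat.choose_le_middle k m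
  refine h1.trans ?_
  have hm' : (0 : ℝ) < m := by exact_mod_cast hm
  have hs : 0 < √(m : ℝ) := Real.sqrt_pos.mpr hm'
  rw [le_div_iff₀ hs]
  refine (sq_le_sq₀ (by positivity) (by positivity)).mp ?_
  rw [mul_pow, Real.sq_sqrt hm'.le, ← pow_mul, mul_comm m 2, pow_mul]
  have h2 := BinA_mid m
  have h3 : (((m.choose (m / 2)) ^ 2 * m : ℕ) : ℝ) ≤ ((4 ^ m : ℕ) : ℝ) := by exact_mod_cast h2
  push_cast at h3
  norm_num
  exact h3

theorem BinA_step (m k : ℕ) (hm : 1 ≤ m) (hk : m ≤ 2 * k) :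
    (m.choose (k + 1) : ℝ) * Real.exp ((2 * ((k + 1 : ℕ) : ℝ) - m) ^ 2 / (4 * m)) ≤
      (m.choose k : ℝ) * Real.exp ((2 * (k : ℝ) - m) ^ 2 / (4 * m)) := by
  have hm' : (0 : ℝ) < m := by exact_mod_cast hm
  rcases Nat.lt_or_ge k m with hkm | hkm
  · have h1 : (m.choose (k + 1) : ℝ) * (k + 1) = (m.choose k : ℝ) * (m - k) := by
      have h := Nat.choose_succ_right_eq m k
      have h' : ((m.choose (k + 1) * (k + 1) : ℕ) : ℝ) = ((m.choose k * (m - k) : ℕ) : ℝ) := by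
        rw [h]
      push_cast [Nat.cast_sub hkm.le] at h'
      exact h'
    have hk1 : (0 : ℝ) < (k : ℝ) + 1 := by positivity
    have hkm' : (k : ℝ) + 1 ≤ m := by exact_mod_cast hkm
    have hk2 : (m : ℝ) ≤ 2 * k := by exact_mod_cast hk
    have h2 : (2 * ((k + 1 : ℕ) : ℝ) - m) ^ 2 / (4 * m)
        = (2 * (k : ℝ) - m + 1) / m + (2 * (k : ℝ) - m) ^ 2 / (4 * m) := by
      push_cast
      field_simp
      ring
    rw [h2, Real.exp_add, ← mul_assoc]
    refine mul_le_mul_of_nonneg_right ?_ (Real.exp_pos _).le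
    set u : ℝ := (2 * (k : ℝ) - m + 1) / m with hu
    have h3 : (m - k : ℝ) ≤ (k + 1) * Real.exp (-u) := by
      have h4 : -u + 1 ≤ Real.exp (-u) := Real.add_one_le_exp _
      have h5 : (m - k : ℝ) ≤ (k + 1) * (-u + 1) := by
        have h6 : (k + 1) * u ≤ 2 * (k : ℝ) - m + 1 := by
          rw [hu]
          have h7 : ((k : ℝ) + 1) * ((2 * (k : ℝ) - m + 1) / m)
              = (2 * (k : ℝ) - m + 1) * (((k : ℝ) + 1) / m) := by ring
          rw [h7]
          have h8 : ((k : ℝ) + 1) / m ≤ 1 := (div_le_one hm').mpr hkm'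
          have h9 : 0 ≤ 2 * (k : ℝ) - m + 1 := by linarith
          nlinarith
        nlinarith
      exact h5.trans (mul_le_mul_of_nonneg_left h4 hk1.le)
    have h10 : (m.choose (k + 1) : ℝ) ≤ (m.choose k : ℝ) * Real.exp (-u) := by
      refine le_of_mul_le_mul_right ?_ hk1
      rw [h1]
      calc (m.choose k : ℝ) * (m - k) ≤ (m.choose k : ℝ) * ((k + 1) * Real.exp (-u)) :=
            mul_le_mul_of_nonneg_left h3 (by positivity)
        _ = (m.choose k : ℝ) * Real.exp (-u) * (k + 1) := by ring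
    calc (m.choose (k + 1) : ℝ) * Real.exp u
        ≤ (m.choose k : ℝ) * Real.exp (-u) * Real.exp u :=
          mul_le_mul_of_nonneg_right h10 (Real.exp_pos _).le
      _ = (m.choose k : ℝ) := by
          rw [mul_assoc, ← Real.exp_add, neg_add_cancel, Real.exp_zero, mul_one]
  · have h1 : m.choose (k + 1) = 0 := Nat.choose_eq_zero_of_lt (by omega)
    rw [h1]
    simp only [Nat.cast_zero, zero_mul]
    positivity

theorem BinA_half (m k : ℕ) (hm : 1 ≤ m) (hk : m ≤ 2 * k) :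
    (m.choose k : ℝ) * Real.exp ((2 * (k : ℝ) - m) ^ 2 / (4 * m)) ≤
      Real.exp 1 * (2 ^ m / √m) := by
  have hm' : (1 : ℝ) ≤ m := by exact_mod_cast hm
  have hk0 : (m + 1) / 2 ≤ k := by omega
  induction k, hk0 using Nat.le_induction with
  | base =>
    rw [mul_comm]
    refine mul_le_mul ?_ (BinA_mid_real m _ hm) (by positivity) (Real.exp_pos _).le
    refine Real.exp_le_exp.mpr ?_
    rw [div_le_one (by linarith)]
    have h1 : (2 * (((m + 1) / 2 : ℕ) : ℝ) - m) ^ 2 ≤ 1 := by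
      have h2 : (2 * (((m + 1) / 2 : ℕ) : ℝ)) ≤ m + 1 := by
        have : 2 * ((m + 1) / 2) ≤ m + 1 := by omega
        exact_mod_cast this
      have h3 : (m : ℝ) ≤ (2 * (((m + 1) / 2 : ℕ) : ℝ)) := by
        have : m ≤ 2 * ((m + 1) / 2) := by omega
        exact_mod_cast this
      nlinarith
    linarith
  | succ k hk1 ih =>
    exact (BinA_step m k hm (by omega)).trans (ih (by omega))

/-- PROOF. The central binomial coefficient is at most `C 2 ^ m / √m`
(`Nat.four_pow_le_two_mul_self_mul_centralBinom` is the lower bound; for the upper bound use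
`centralBinom m ≤ 4 ^ m / √(3 m + 1)` by induction, or `AB/LowN.lean`-type estimates: the square of
`(2m).choose m * √(2 m + 1) / 4 ^ m` is decreasing).  For `k = ⌊m/2⌋ + j` the quotient
`m.choose k / m.choose ⌊m/2⌋` is the product over `1 ≤ i ≤ j` of
`(⌈m/2⌉ - i + 1) / (⌊m/2⌋ + i) = 1 - (2 i - 1 - δ) / (⌊m/2⌋ + i)`, `δ = m mod 2`, which is at most
`exp (- ∑ (2 i - 1 - δ) / m) = exp (- (j ^ 2 - δ j) / m)` as `⌊m/2⌋ + i ≤ m`, and
`(2 k - m) ^ 2 = (2 j - δ) ^ 2 ≤ 4 (j ^ 2 - δ j) + 1`.  The other half by symmetry. -/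
theorem choose_up : ∃ C : ℝ, 0 < C ∧ ∀ m k : ℕ, 1 ≤ m →
    (m.choose k : ℝ) ≤ C / √m * Real.exp (-(2 * (k : ℝ) - m) ^ 2 / (4 * m)) * 2 ^ m := by
  refine ⟨Real.exp 1, Real.exp_pos _, ?_⟩
  have key : ∀ m k : ℕ, 1 ≤ m → m ≤ 2 * k →
      (m.choose k : ℝ) ≤
        Real.exp 1 / √m * Real.exp (-(2 * (k : ℝ) - m) ^ 2 / (4 * m)) * 2 ^ m := by
    intro m k hm hk
    have h1 := BinA_half m k hm hk
    have h2 : Real.exp (-(2 * (k : ℝ) - m) ^ 2 / (4 * m))
        = (Real.exp ((2 * (k : ℝ) - m) ^ 2 / (4 * m)))⁻¹ := by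
      rw [← Real.exp_neg, neg_div]
    rw [h2]
    have hE := Real.exp_pos ((2 * (k : ℝ) - m) ^ 2 / (4 * m))
    have h3 : Real.exp 1 / √m * (Real.exp ((2 * (k : ℝ) - m) ^ 2 / (4 * m)))⁻¹ * 2 ^ m
        = (Real.exp 1 * (2 ^ m / √m)) / Real.exp ((2 * (k : ℝ) - m) ^ 2 / (4 * m)) := by
      field_simp
    rw [h3, le_div_iff₀ hE]
    exact h1
  intro m k hm
  rcases Nat.lt_or_ge (2 * k) m with hk | hk
  · have h1 := key m (m - k) hm (by omega)
    rw [Nat.choose_symm (by omega)] at h1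
    have h2 : (-(2 * ((m - k : ℕ) : ℝ) - m) ^ 2) = -(2 * (k : ℝ) - m) ^ 2 := by
      rw [Nat.cast_sub (by omega)]
      ring
    rw [h2] at h1
    exact h1
  · exact key m k hm hk

end Pool.MP43e44c.GL
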