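import Pool.Agent.H.MP_43e44c_ag.GL.BinA

/-!
Sums of random signs: atoms.
-/

set_option autoImplicit false

open Finset

namespace Pool.MP43e44c.GL

theorem BinB_sum {ι : Type*} [Fintype ι] (s : ι → ℤ)
    (hs : ∀ i, s i = 1 ∨ s i = -1) (v : ι → Bool) :
    ∑ i, (if v i then s i else - s i) =
      2 * ((univ.filter (fun i => (if v i then s i else - s i) = 1)).card : ℤ)
        - Fintype.card ι := by
  have h1 : ∀ i : ι, (if v i then s i else - s i) =
      2 * (if (if v i then s i else - s i) = 1 then (1 : ℤ) else 0) - 1 := by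
    intro i
    rcases hs i with h | h <;> cases hv : v i <;> simp [h]
  calc ∑ i, (if v i then s i else - s i)
      = ∑ i, (2 * (if (if v i then s i else - s i) = 1 then (1 : ℤ) else 0) - 1) :=
        Finset.sum_congr rfl (fun i _ => h1 i)
    _ = _ := by
        rw [Finset.sum_sub_distrib, ← Finset.mul_sum, Finset.sum_boole]
        simp

/-- Replace `v i` by its negation where `s i = -1`; then the sum is `2 k - m`, where `k` is the number of
the `i` with `v i = true`. -/
theorem sign_up.{u} : ∃ C : ℝ, 0 < C ∧ ∀ {ι : Type u} [Fintype ι] (s : ι → ℤ),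
    (∀ i, s i = 1 ∨ s i = -1) → 1 ≤ Fintype.card ι → ∀ y : ℤ,
    ({v : ι → Bool | ∑ i, (if v i then s i else - s i) = y}.ncard : ℝ)
      ≤ C / √(Fintype.card ι) * Real.exp (-(y : ℝ) ^ 2 / (4 * Fintype.card ι)) *
        2 ^ Fintype.card ι := by
  obtain ⟨C, hC, hch⟩ := choose_up
  refine ⟨C, hC, ?_⟩
  intro ι _ s hs hm y
  classical
  set S : Set (ι → Bool) := {v : ι → Bool | ∑ i, (if v i then s i else - s i) = y} with hS
  by_cases hne : S.Nonempty
  · obtain ⟨v0, hv0⟩ := hne
    set T : (ι → Bool) → Finset ι :=
      fun v => univ.filter (fun i => (if v i then s i else - s i) = 1) with hT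
    set k := (T v0).card with hk
    have hy : y = 2 * (k : ℤ) - Fintype.card ι := by
      have := BinB_sum s hs v0
      rw [← this]
      exact hv0.symm
    have hinj : Function.Injective T := by
      intro v w hvw
      funext i
      have h1 : (i ∈ T v ↔ i ∈ T w) := by rw [hvw]
      simp only [hT, mem_filter, mem_univ, true_and] at h1
      rcases hs i with h | h <;> cases hv : v i <;> cases hw : w i <;> simp [h, hv, hw] at h1 ⊢
    have hsub : T '' S ⊆ ((powersetCard k univ : Finset (Finset ι)) : Set (Finset ι)) := by
      rintro _ ⟨v, hv, rfl⟩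
      have h2 := BinB_sum s hs v
      have h3 : ∑ i, (if v i then s i else - s i) = y := hv
      have h4 : (2 : ℤ) * ((T v).card : ℤ) - Fintype.card ι = 2 * (k : ℤ) - Fintype.card ι := by
        rw [← hy, ← h3, h2]
      have h5 : (T v).card = k := by
        have : ((T v).card : ℤ) = (k : ℤ) := by linarith
        exact_mod_cast this
      exact Finset.mem_coe.mpr (Finset.mem_powersetCard.mpr ⟨Finset.subset_univ _, h5⟩)
    have hcard : S.ncard ≤ (Fintype.card ι).choose k := by
      rw [← Set.ncard_image_of_injective S hinj]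
      calc (T '' S).ncard
          ≤ ((powersetCard k univ : Finset (Finset ι)) : Set (Finset ι)).ncard :=
            Set.ncard_le_ncard hsub (Finset.finite_toSet _)
        _ = (Fintype.card ι).choose k := by
            rw [Set.ncard_coe_finset, card_powersetCard, card_univ]
    have h6 := hch (Fintype.card ι) k hm
    have h7 : (y : ℝ) = 2 * (k : ℝ) - Fintype.card ι := by
      rw [hy]; push_cast; ring
    rw [h7]
    exact le_trans (by exact_mod_cast hcard) h6
  · rw [Set.not_nonempty_iff_eq_empty.mp hne]
    simp only [Set.ncard_empty, Nat.cast_zero]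
    positivity

end Pool.MP43e44c.GL
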