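import Pool.Agent.H.MP_43e44c_ag.GL.Def

/-!
Sums over pairs of integers.
-/

set_option autoImplicit false

open Finset

namespace Pool.MP43e44c.GL

theorem CntA_max (p : ℤ × ℤ) :
    ((max |p.1| |p.2| : ℤ) : ℝ) = ((max p.1.natAbs p.2.natAbs : ℕ) : ℝ) := by
  have h : (max |p.1| |p.2| : ℤ) = ((max p.1.natAbs p.2.natAbs : ℕ) : ℤ) := by
    rw [Int.abs_eq_natAbs, Int.abs_eq_natAbs, Nat.cast_max]
  rw [h]
  rfl

theorem CntA_mem {N : ℕ} {p : ℤ × ℤ} :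
    p ∈ (Icc (-(N : ℤ)) N ×ˢ Icc (-(N : ℤ)) N).filter (fun p => p ≠ 0) ↔
      1 ≤ max p.1.natAbs p.2.natAbs ∧ max p.1.natAbs p.2.natAbs ≤ N := by
  rw [mem_filter, mem_product, mem_Icc, mem_Icc]
  have h0 : p ≠ 0 ↔ p.1 ≠ 0 ∨ p.2 ≠ 0 := by
    rw [Ne, Prod.ext_iff, Prod.fst_zero, Prod.snd_zero]
    tauto
  rw [h0]
  omega

theorem CntA_card (S : Finset (ℤ × ℤ)) {t : ℕ} (ht : 1 ≤ t) :
    (S.filter (fun p => max p.1.natAbs p.2.natAbs = t)).card ≤ 16 * t := by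
  have hsub : S.filter (fun p => max p.1.natAbs p.2.natAbs = t) ⊆
      (({(t : ℤ), -(t : ℤ)} : Finset ℤ) ×ˢ Icc (-(t : ℤ)) t) ∪
        (Icc (-(t : ℤ)) t ×ˢ ({(t : ℤ), -(t : ℤ)} : Finset ℤ)) := by
    intro p hp
    rw [mem_filter] at hp
    rw [mem_union, mem_product, mem_product, mem_Icc, mem_Icc, mem_insert, mem_singleton,
      mem_insert, mem_singleton]
    have := hp.2
    omega
  refine (card_le_card hsub).trans ((card_union_le _ _).trans ?_)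
  rw [card_product, card_product, Int.card_Icc]
  have h1 : ({(t : ℤ), -(t : ℤ)} : Finset ℤ).card ≤ 2 := card_le_two
  have h2 : ((t : ℤ) + 1 - -(t : ℤ)).toNat = 2 * t + 1 := by omega
  rw [h2]
  calc ({(t : ℤ), -(t : ℤ)} : Finset ℤ).card * (2 * t + 1) +
        (2 * t + 1) * ({(t : ℤ), -(t : ℤ)} : Finset ℤ).card
      ≤ 2 * (2 * t + 1) + (2 * t + 1) * 2 :=
        Nat.add_le_add (Nat.mul_le_mul_right _ h1) (Nat.mul_le_mul_left _ h1)
    _ ≤ 16 * t := by omega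

/-- `∑ max (|a|, |b|)⁻¹` over the nonzero `(a, b)` with `|a|, |b| ≤ N` is at most `16 N`: there are at
most `8 t` pairs with maximum `t`. -/
theorem sum_max (N : ℕ) :
    ∑ p ∈ (Icc (-(N : ℤ)) N ×ˢ Icc (-(N : ℤ)) N).filter (fun p => p ≠ 0),
      (1 : ℝ) / (max |p.1| |p.2| : ℤ) ≤ 16 * N := by
  rw [← sum_fiberwise_of_maps_to (s := (Icc (-(N : ℤ)) N ×ˢ Icc (-(N : ℤ)) N).filter
    (fun p => p ≠ 0)) (t := Icc 1 N) (g := fun p => max p.1.natAbs p.2.natAbs)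
    (fun p hp => by rw [mem_Icc]; exact CntA_mem.1 hp)]
  have h : ∀ t ∈ Icc 1 N, ∑ p ∈ ((Icc (-(N : ℤ)) N ×ˢ Icc (-(N : ℤ)) N).filter
      (fun p => p ≠ 0)).filter (fun p => max p.1.natAbs p.2.natAbs = t),
      (1 : ℝ) / (max |p.1| |p.2| : ℤ) ≤ 16 := by
    intro t ht
    have ht1 : 1 ≤ t := (mem_Icc.1 ht).1
    have ht0 : (0 : ℝ) < t := by exact_mod_cast ht1
    calc _ = ∑ p ∈ ((Icc (-(N : ℤ)) N ×ˢ Icc (-(N : ℤ)) N).filter
          (fun p => p ≠ 0)).filter (fun p => max p.1.natAbs p.2.natAbs = t), (1 : ℝ) / t := by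
          refine sum_congr rfl fun p hp => ?_
          rw [CntA_max, (mem_filter.1 hp).2]
      _ = ((((Icc (-(N : ℤ)) N ×ˢ Icc (-(N : ℤ)) N).filter
          (fun p => p ≠ 0)).filter (fun p => max p.1.natAbs p.2.natAbs = t)).card : ℝ) *
            (1 / t) := by rw [sum_const, nsmul_eq_mul]
      _ ≤ (16 * t : ℝ) * (1 / t) := by
          refine mul_le_mul_of_nonneg_right ?_ (by positivity)
          have := CntA_card ((Icc (-(N : ℤ)) N ×ˢ Icc (-(N : ℤ)) N).filter (fun p => p ≠ 0)) ht1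
          exact_mod_cast this
      _ = 16 := by field_simp
  calc _ ≤ ∑ t ∈ Icc 1 N, (16 : ℝ) := sum_le_sum h
    _ = 16 * N := by
      rw [sum_const, Nat.card_Icc, nsmul_eq_mul, Nat.add_sub_cancel, mul_comm]

theorem CntA_natAbs (d : ℕ) (a : ℤ) : ((d : ℤ) * a).natAbs = d * a.natAbs := by
  rw [Int.natAbs_mul, Int.natAbs_natCast]

theorem CntA_fiber {R d : ℕ} (hd : 1 ≤ d) :
    ∑ p ∈ ((Icc (-(R : ℤ)) R ×ˢ Icc (-(R : ℤ)) R).filter (fun p => p ≠ 0)).filter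
      (fun p => d ∣ Int.gcd p.1 p.2), (d : ℝ) / (max |p.1| |p.2| : ℤ) ≤ 16 * (R / d : ℕ) := by
  have hd0 : (0 : ℝ) < d := by exact_mod_cast hd
  have hsub : ((Icc (-(R : ℤ)) R ×ˢ Icc (-(R : ℤ)) R).filter (fun p => p ≠ 0)).filter
      (fun p => d ∣ Int.gcd p.1 p.2) ⊆
      ((Icc (-((R / d : ℕ) : ℤ)) (R / d : ℕ) ×ˢ Icc (-((R / d : ℕ) : ℤ)) (R / d : ℕ)).filter
        (fun p => p ≠ 0)).image (fun p : ℤ × ℤ => ((d : ℤ) * p.1, (d : ℤ) * p.2)) := by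
    intro p hp
    rw [mem_filter, CntA_mem] at hp
    obtain ⟨⟨h1, h2⟩, h3⟩ := hp
    obtain ⟨a, ha⟩ : (d : ℤ) ∣ p.1 := by
      rw [Int.natCast_dvd]
      exact h3.trans (Nat.gcd_dvd_left _ _)
    obtain ⟨b, hb⟩ : (d : ℤ) ∣ p.2 := by
      rw [Int.natCast_dvd]
      exact h3.trans (Nat.gcd_dvd_right _ _)
    rw [mem_image]
    refine ⟨(a, b), ?_, Prod.ext ha.symm hb.symm⟩
    rw [CntA_mem]
    rw [ha, hb, CntA_natAbs, CntA_natAbs, Nat.mul_max_mul_left] at h1 h2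
    refine ⟨?_, ?_⟩
    · rcases Nat.eq_zero_or_pos (max a.natAbs b.natAbs) with h | h
      · rw [h] at h1
        simp at h1
      · exact h
    · rw [Nat.le_div_iff_mul_le hd, mul_comm]
      exact h2
  have hnn : ∀ p : ℤ × ℤ, (0 : ℝ) ≤ (d : ℝ) / (max |p.1| |p.2| : ℤ) := by
    intro p
    rw [CntA_max]
    positivity
  refine (sum_le_sum_of_subset_of_nonneg hsub fun p _ _ => hnn p).trans ?_
  rw [sum_image]
  · refine le_trans (le_of_eq ?_) (sum_max (R / d))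
    refine sum_congr rfl fun p _ => ?_
    rw [CntA_max, CntA_max, CntA_natAbs, CntA_natAbs, Nat.mul_max_mul_left, Nat.cast_mul]
    rw [div_mul_eq_div_div, div_self hd0.ne']
  · intro p _ q _ h
    have h1 := congrArg Prod.fst h
    have h2 := congrArg Prod.snd h
    simp only at h1 h2
    have hdz : (d : ℤ) ≠ 0 := by exact_mod_cast (by omega : d ≠ 0)
    exact Prod.ext (mul_left_cancel₀ hdz h1) (mul_left_cancel₀ hdz h2)

theorem CntA_gcd_le {R : ℕ} {p : ℤ × ℤ} (h1 : 1 ≤ max p.1.natAbs p.2.natAbs)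
    (h2 : max p.1.natAbs p.2.natAbs ≤ R) :
    (Int.gcd p.1 p.2 : ℝ) ≤ ∑ d ∈ (Icc 1 R).filter (fun d => d ∣ Int.gcd p.1 p.2), (d : ℝ) := by
  have hg0 : Int.gcd p.1 p.2 ≠ 0 := by
    intro h
    rw [Int.gcd_eq_zero_iff] at h
    rw [h.1, h.2] at h1
    simp at h1
  have hgR : Int.gcd p.1 p.2 ≤ R := by
    rcases Nat.eq_zero_or_pos p.1.natAbs with h | h
    · have h3 : 0 < p.2.natAbs := by omega
      exact (Nat.le_of_dvd h3 (Nat.gcd_dvd_right _ _)).trans (by omega)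
    · exact (Nat.le_of_dvd h (Nat.gcd_dvd_left _ _)).trans (by omega)
  have hsub : (Int.gcd p.1 p.2).divisors ⊆ (Icc 1 R).filter (fun d => d ∣ Int.gcd p.1 p.2) := by
    intro d hd
    have h3 := Nat.dvd_of_mem_divisors hd
    rw [mem_filter, mem_Icc]
    exact ⟨⟨Nat.pos_of_mem_divisors hd, (Nat.le_of_dvd (Nat.pos_of_ne_zero hg0) h3).trans hgR⟩, h3⟩
  calc (Int.gcd p.1 p.2 : ℝ) = ((∑ d ∈ (Int.gcd p.1 p.2).divisors, Nat.totient d : ℕ) : ℝ) := by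
        rw [Nat.sum_totient]
    _ = ∑ d ∈ (Int.gcd p.1 p.2).divisors, (Nat.totient d : ℝ) := by push_cast; rfl
    _ ≤ ∑ d ∈ (Int.gcd p.1 p.2).divisors, (d : ℝ) :=
        sum_le_sum fun d _ => by exact_mod_cast Nat.totient_le d
    _ ≤ _ := sum_le_sum_of_subset_of_nonneg hsub fun d _ _ => Nat.cast_nonneg d

/-- `∑ gcd (a, b) / max (|a|, |b|)` over the nonzero `(a, b)` with `|a|, |b| ≤ R` is at most
`16 R (1 + log R)`: `gcd (a, b) = ∑ φ(d)` over the common divisors `d` (`Nat.sum_totient`),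
`φ(d) ≤ d`, and for given `d` the pairs are `d (a', b')`, `|a'|, |b'| ≤ R / d`, so the sum is at most
`∑_{d ≤ R} d * (1 / d) * 16 (R / d)` (`sum_max`); `∑_{d ≤ R} 1 / d ≤ 1 + log R`
(`harmonic_le_one_add_log`). -/
theorem sum_gcd (R : ℕ) (hR : 1 ≤ R) :
    ∑ p ∈ (Icc (-(R : ℤ)) R ×ˢ Icc (-(R : ℤ)) R).filter (fun p => p ≠ 0),
      (Int.gcd p.1 p.2 : ℝ) / (max |p.1| |p.2| : ℤ) ≤ 16 * R * (1 + Real.log R) := by
  have hR0 : (0 : ℝ) < R := by exact_mod_cast hR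
  calc _ ≤ ∑ p ∈ (Icc (-(R : ℤ)) R ×ˢ Icc (-(R : ℤ)) R).filter (fun p => p ≠ 0),
        ∑ d ∈ Icc 1 R, if d ∣ Int.gcd p.1 p.2 then (d : ℝ) / (max |p.1| |p.2| : ℤ) else 0 := by
        refine sum_le_sum fun p hp => ?_
        obtain ⟨h1, h2⟩ := CntA_mem.1 hp
        rw [← sum_filter, ← sum_div]
        refine div_le_div_of_nonneg_right (CntA_gcd_le h1 h2) ?_
        rw [CntA_max]
        positivity
    _ = ∑ d ∈ Icc 1 R, ∑ p ∈ ((Icc (-(R : ℤ)) R ×ˢ Icc (-(R : ℤ)) R).filter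
        (fun p => p ≠ 0)).filter (fun p => d ∣ Int.gcd p.1 p.2),
          (d : ℝ) / (max |p.1| |p.2| : ℤ) := by
        rw [sum_comm]
        exact sum_congr rfl fun d _ => (sum_filter _ _).symm
    _ ≤ ∑ d ∈ Icc 1 R, (16 : ℝ) * (R / d : ℕ) :=
        sum_le_sum fun d hd => CntA_fiber (mem_Icc.1 hd).1
    _ ≤ ∑ d ∈ Icc 1 R, (16 : ℝ) * R * (d : ℝ)⁻¹ := by
        refine sum_le_sum fun d _ => ?_
        rw [mul_assoc, ← div_eq_mul_inv]
        exact mul_le_mul_of_nonneg_left Nat.cast_div_le (by norm_num)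
    _ = 16 * R * ∑ d ∈ Icc 1 R, (d : ℝ)⁻¹ := by rw [mul_sum]
    _ ≤ 16 * R * (1 + Real.log R) := by
        refine mul_le_mul_of_nonneg_left ?_ (by positivity)
        have h := harmonic_le_one_add_log R
        rw [harmonic_eq_sum_Icc] at h
        push_cast at h
        exact h

end Pool.MP43e44c.GL
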