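import Pool.Agent.H.MP_43e44c_ag.GL.CntA

/-!
The number of singular two by two matrices.
-/

set_option autoImplicit false

open Finset

namespace Pool.MP43e44c.GL

/-- The second rows of the singular matrices with first row `p`. -/
noncomputable def cntB_row (R : ℕ) (p : ℤ × ℤ) : Finset (ℤ × ℤ) :=
  (Icc (-(R : ℤ)) R ×ˢ Icc (-(R : ℤ)) R).filter fun q => p.1 * q.2 = p.2 * q.1

theorem cntB_box (R : ℕ) :
    ((Icc (-(R : ℤ)) R ×ˢ Icc (-(R : ℤ)) R).card : ℝ) = (2 * R + 1) ^ 2 := by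
  have h : (Icc (-(R : ℤ)) R).card = 2 * R + 1 := by
    rw [Int.card_Icc]; omega
  rw [card_product, h]
  push_cast
  ring

theorem cntB_card (R : ℕ) (p : ℤ × ℤ) (hp : p ≠ 0) :
    ((cntB_row R p).card : ℝ)
      ≤ 1 + 2 * R * ((Int.gcd p.1 p.2 : ℝ) / (max |p.1| |p.2| : ℤ)) := by
  obtain ⟨a, b⟩ := p
  have hab : a ≠ 0 ∨ b ≠ 0 := by
    by_contra h
    push Not at h
    exact hp (by rw [h.1, h.2]; rfl)
  have hg0 : 0 < Int.gcd a b := Int.gcd_pos_iff.2 hab
  obtain ⟨a', b', hcop, ha, hb⟩ := Int.exists_gcd_one hg0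
  set g : ℕ := Int.gcd a b with hg
  have hgz : (0 : ℤ) < g := by exact_mod_cast hg0
  set m : ℤ := max |a'| |b'| with hm
  have hm1 : 1 ≤ m := by
    rcases hab with h | h
    · have : a' ≠ 0 := by rintro rfl; exact h (by simpa using ha)
      exact le_trans (Int.one_le_abs this) (le_max_left _ _)
    · have : b' ≠ 0 := by rintro rfl; exact h (by simpa using hb)
      exact le_trans (Int.one_le_abs this) (le_max_right _ _)
  have hmg : max |a| |b| = m * g := by
    rw [ha, hb, abs_mul, abs_mul, abs_of_pos hgz, hm, max_mul_of_nonneg _ _ hgz.le]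
  set T : ℤ := (R : ℤ) / m with hT
  have hT0 : 0 ≤ T := Int.ediv_nonneg (by positivity) (by omega)
  have hsub : cntB_row R (a, b) ⊆ (Icc (-T) T).image fun t => (t * a', t * b') := by
    intro q hq
    rw [cntB_row, mem_filter, mem_product, mem_Icc, mem_Icc] at hq
    obtain ⟨⟨h1, h2⟩, h3⟩ := hq
    simp only at h3
    have h4 : a' * q.2 = b' * q.1 := by
      have : (g : ℤ) * (a' * q.2) = g * (b' * q.1) := by
        calc (g : ℤ) * (a' * q.2) = (a' * g) * q.2 := by ring
          _ = a * q.2 := by rw [← ha]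
          _ = b * q.1 := h3
          _ = (b' * g) * q.1 := by rw [← hb]
          _ = g * (b' * q.1) := by ring
      exact mul_left_cancel₀ hgz.ne' this
    have hcop' : IsCoprime a' b' := Int.isCoprime_iff_gcd_eq_one.2 hcop
    have hd : a' ∣ q.1 := by
      have : a' ∣ b' * q.1 := ⟨q.2, h4.symm⟩
      exact hcop'.dvd_of_dvd_mul_left this
    have hd2 : b' ∣ q.2 := by
      have : b' ∣ a' * q.2 := ⟨q.1, h4⟩
      exact hcop'.symm.dvd_of_dvd_mul_left this
    have key : ∃ t : ℤ, q.1 = t * a' ∧ q.2 = t * b' := by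
      by_cases ha0 : a' = 0
      · obtain ⟨t, ht⟩ := hd2
        refine ⟨t, ?_, ?_⟩
        · have : q.1 = 0 := by
            have := hd; rw [ha0] at this; exact zero_dvd_iff.1 this
          rw [this, ha0, mul_zero]
        · rw [ht, mul_comm]
      · obtain ⟨t, ht⟩ := hd
        refine ⟨t, by rw [ht, mul_comm], ?_⟩
        have : a' * q.2 = a' * (t * b') := by rw [h4, ht]; ring
        exact mul_left_cancel₀ ha0 this
    obtain ⟨t, ht1, ht2⟩ := key
    refine mem_image.2 ⟨t, ?_, Prod.ext ht1.symm ht2.symm⟩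
    have h5 : |t| * m ≤ R := by
      rw [hm, mul_max_of_nonneg _ _ (abs_nonneg t), ← abs_mul, ← abs_mul, ← ht1, ← ht2]
      exact max_le (abs_le.2 h1) (abs_le.2 h2)
    have h6 : |t| ≤ T := by
      rw [hT]; exact (Int.le_ediv_iff_mul_le (by omega)).2 h5
    rw [mem_Icc]
    exact abs_le.1 h6
  have hcard : (cntB_row R (a, b)).card ≤ (2 * T + 1).toNat := by
    refine (card_le_card hsub).trans (card_image_le.trans ?_)
    rw [Int.card_Icc]
    apply le_of_eq
    congr 1
    ring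
  have hcR : ((cntB_row R (a, b)).card : ℝ) ≤ 2 * (T : ℝ) + 1 := by
    have h : ((cntB_row R (a, b)).card : ℤ) ≤ 2 * T + 1 := by
      have := hcard
      omega
    exact_mod_cast h
  have hmR : (0 : ℝ) < m := by exact_mod_cast (by omega : (0 : ℤ) < m)
  have hTR : (T : ℝ) ≤ R / m := by
    rw [le_div_iff₀ hmR]
    have : T * m ≤ R := Int.ediv_mul_le _ (by omega)
    exact_mod_cast this
  have hgR : (0 : ℝ) < (g : ℝ) := by exact_mod_cast hg0
  simp only
  rw [hmg]
  push_cast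
  have e : (g : ℝ) / (m * g) = 1 / m := by
    field_simp
  rw [e]
  calc ((cntB_row R (a, b)).card : ℝ) ≤ 2 * (T : ℝ) + 1 := hcR
    _ ≤ 2 * (R / m) + 1 := by linarith
    _ = 1 + 2 * R * (1 / m) := by ring

/-- PROOF. If the first row of `M` is `0` there are `(2 R + 1) ^ 2` second rows.  If the first row `(a, b)`
is not `0`, `g = gcd (a, b)`, then the second row is a multiple `t (a / g, b / g)` with an integer `t`
(`a s = b r` for the second row `(r, s)`), `|t| ≤ R g / max (|a|, |b|)`, so there are at most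
`1 + 2 R g / max (|a|, |b|)` second rows.  Sum with `sum_gcd`:
at most `2 (2 R + 1) ^ 2 + 2 R * 16 R (1 + log R)`. -/
theorem sing_count : ∃ C : ℝ, 0 < C ∧ ∀ R : ℕ, 1 ≤ R →
    ({M : M2 | (∀ i j, |M i j| ≤ R) ∧ M.det = 0}.ncard : ℝ)
      ≤ C * (R : ℝ) ^ 2 * (1 + Real.log R) := by
  refine ⟨50, by norm_num, fun R hR => ?_⟩
  set B := Icc (-(R : ℤ)) R ×ˢ Icc (-(R : ℤ)) R with hB
  set F : Finset ((ℤ × ℤ) × (ℤ × ℤ)) :=
    (B ×ˢ B).filter fun x => x.2 ∈ cntB_row R x.1 with hF
  have h1 : {M : M2 | (∀ i j, |M i j| ≤ R) ∧ M.det = 0}.ncard ≤ F.card := by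
    rw [← Set.ncard_coe_finset F]
    refine Set.ncard_le_ncard_of_injOn
      (fun M : M2 => ((M 0 0, M 0 1), (M 1 0, M 1 1))) ?_ ?_ (finite_toSet F)
    · intro M hM
      obtain ⟨h, hdet⟩ := hM
      rw [Matrix.det_fin_two] at hdet
      have hb : ∀ i j, -(R : ℤ) ≤ M i j ∧ M i j ≤ R := fun i j => abs_le.1 (h i j)
      rw [hF, mem_coe, mem_filter, mem_product, hB, cntB_row, mem_filter]
      simp only [mem_product, mem_Icc]
      exact ⟨⟨⟨hb 0 0, hb 0 1⟩, ⟨hb 1 0, hb 1 1⟩⟩, ⟨hb 1 0, hb 1 1⟩, by linarith⟩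
    · intro M _ N _ hMN
      simp only [Prod.mk.injEq] at hMN
      obtain ⟨⟨h00, h01⟩, h10, h11⟩ := hMN
      ext i j
      fin_cases i <;> fin_cases j <;> assumption
  have h2 : (F.card : ℝ) ≤ ∑ p ∈ B, ((cntB_row R p).card : ℝ) := by
    have : F.card ≤ ∑ p ∈ B, (cntB_row R p).card := by
      rw [hF, card_filter, sum_product]
      refine sum_le_sum fun p _ => ?_
      rw [← card_filter]
      exact card_le_card fun q hq => (mem_filter.1 hq).2
    exact_mod_cast this
  have hR1 : (1 : ℝ) ≤ R := by exact_mod_cast hR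
  have hlog : 0 ≤ Real.log R := Real.log_nonneg hR1
  have h3 : ∑ p ∈ B, ((cntB_row R p).card : ℝ)
      ≤ (2 * R + 1) ^ 2 + ((2 * R + 1) ^ 2 + 2 * R * (16 * R * (1 + Real.log R))) := by
    rw [← sum_filter_add_sum_filter_not B (fun p => p = 0)]
    refine add_le_add ?_ ?_
    · calc ∑ p ∈ B.filter (fun p => p = 0), ((cntB_row R p).card : ℝ)
          ≤ ∑ p ∈ ({0} : Finset (ℤ × ℤ)), ((cntB_row R p).card : ℝ) := by
            refine sum_le_sum_of_subset_of_nonneg ?_ (fun _ _ _ => Nat.cast_nonneg _)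
            intro p hp
            rw [mem_singleton]
            exact (mem_filter.1 hp).2
        _ = ((cntB_row R 0).card : ℝ) := sum_singleton _ _
        _ ≤ (B.card : ℝ) := by
            exact_mod_cast card_le_card (filter_subset _ _)
        _ = (2 * R + 1) ^ 2 := cntB_box R
    · calc ∑ p ∈ B.filter (fun p => ¬ p = 0), ((cntB_row R p).card : ℝ)
          ≤ ∑ p ∈ B.filter (fun p => ¬ p = 0),
              (1 + 2 * R * ((Int.gcd p.1 p.2 : ℝ) / (max |p.1| |p.2| : ℤ))) :=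
            sum_le_sum fun p hp => cntB_card R p (mem_filter.1 hp).2
        _ = ((B.filter (fun p => ¬ p = 0)).card : ℝ) + 2 * R *
              ∑ p ∈ B.filter (fun p => p ≠ 0),
                ((Int.gcd p.1 p.2 : ℝ) / (max |p.1| |p.2| : ℤ)) := by
            rw [sum_add_distrib, mul_sum, sum_const, nsmul_eq_mul, mul_one]
        _ ≤ (2 * R + 1) ^ 2 + 2 * R * (16 * R * (1 + Real.log R)) := by
            refine add_le_add ?_ ?_
            · rw [← cntB_box R]
              exact_mod_cast card_le_card (filter_subset _ _)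
            · exact mul_le_mul_of_nonneg_left (sum_gcd R hR) (by positivity)
  have h4 : ((2 * R + 1) ^ 2 + ((2 * R + 1) ^ 2 + 2 * R * (16 * R * (1 + Real.log R))) : ℝ)
      ≤ 50 * (R : ℝ) ^ 2 * (1 + Real.log R) := by
    have h5 : ((2 * R + 1) ^ 2 : ℝ) ≤ 9 * R ^ 2 := by nlinarith
    have h6 : (0 : ℝ) ≤ R ^ 2 * Real.log R := by positivity
    nlinarith
  calc ({M : M2 | (∀ i j, |M i j| ≤ R) ∧ M.det = 0}.ncard : ℝ) ≤ (F.card : ℝ) := by
        exact_mod_cast h1
    _ ≤ _ := h2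
    _ ≤ _ := h3
    _ ≤ _ := h4

end Pool.MP43e44c.GL
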