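import Pool.Agent.H.MP_43e44c_ag.GL.CntB

/-!
Gaussian sums over singular matrices.
-/

set_option autoImplicit false

open Finset

namespace Pool.MP43e44c.GL

theorem CntC_fin (R : ℕ) : {M : M2 | (∀ i j, |M i j| ≤ R) ∧ M.det = 0}.Finite := by
  have h : {f : Fin 2 → Fin 2 → ℤ | ∀ i, f i ∈ {g : Fin 2 → ℤ | ∀ j, g j ∈
      Set.Icc (-(R : ℤ)) R}}.Finite :=
    Set.Finite.pi' fun _ => Set.Finite.pi' fun _ => Set.finite_Icc _ _
  refine h.subset ?_
  rintro M ⟨hM, _⟩ i j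
  exact abs_le.1 (hM i j)

theorem CntC_summable {c : ℝ} (hc : 0 < c) :
    Summable fun k : ℕ => ((k : ℝ) + 1) ^ 2 * Real.exp (-c * k) := by
  have h := Real.summable_pow_mul_exp_neg_nat_mul 2 hc
  have h1 := (summable_nat_add_iff 1).2 h
  refine (h1.mul_left (Real.exp c)).congr fun k => ?_
  have h2 : Real.exp (-c * k) = Real.exp c * Real.exp (-c * ((k + 1 : ℕ) : ℝ)) := by
    rw [← Real.exp_add]
    congr 1
    push_cast
    ring
  rw [h2]
  push_cast
  ring

/-- The sum of the squares of the entries. -/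
def CntC_q (M : M2) : ℕ := ∑ i, ∑ j, (M i j).natAbs ^ 2

theorem CntC_q_cast (M : M2) : (CntC_q M : ℝ) = ∑ i, ∑ j, (M i j : ℝ) ^ 2 := by
  unfold CntC_q
  push_cast
  refine Finset.sum_congr rfl fun i _ => Finset.sum_congr rfl fun j _ => ?_
  have h : ∀ x : ℤ, ((x.natAbs : ℕ) : ℝ) ^ 2 = (x : ℝ) ^ 2 := fun x => by
    rw [Nat.cast_natAbs, Int.cast_abs, sq_abs]
  exact h _

theorem CntC_entry (M : M2) (i j : Fin 2) : (M i j).natAbs ^ 2 ≤ CntC_q M := by
  unfold CntC_q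
  calc (M i j).natAbs ^ 2 ≤ ∑ j, (M i j).natAbs ^ 2 :=
        Finset.single_le_sum (f := fun j => (M i j).natAbs ^ 2) (fun _ _ => Nat.zero_le _)
          (Finset.mem_univ j)
    _ ≤ ∑ i, ∑ j, (M i j).natAbs ^ 2 :=
        Finset.single_le_sum (f := fun i => ∑ j, (M i j).natAbs ^ 2) (fun _ _ => Nat.zero_le _)
          (Finset.mem_univ i)

theorem CntC_card {C0 : ℝ} (hC0 : 0 < C0) (hcount : ∀ R : ℕ, 1 ≤ R →
    ({M : M2 | (∀ i j, |M i j| ≤ R) ∧ M.det = 0}.ncard : ℝ) ≤ C0 * (R : ℝ) ^ 2 *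
      (1 + Real.log R)) {n : ℕ} (hn : 2 ≤ n) (k : ℕ) {S : Finset M2}
    (hS : ∀ M ∈ S, M.det = 0) (hk : ∀ M ∈ S, CntC_q M < (k + 1) * n) :
    (S.card : ℝ) ≤ 3 * C0 * ((k : ℝ) + 1) ^ 2 * (n * Real.log n) := by
  have hN1 : 1 ≤ (k + 1) * n := by nlinarith
  have hR1 : 1 ≤ Nat.sqrt ((k + 1) * n) := Nat.sqrt_pos.2 (by omega)
  have hR2 : Nat.sqrt ((k + 1) * n) ^ 2 ≤ (k + 1) * n := Nat.sqrt_le' _
  have hsub : (S : Set M2) ⊆
      {M : M2 | (∀ i j, |M i j| ≤ (Nat.sqrt ((k + 1) * n) : ℕ)) ∧ M.det = 0} := by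
    intro M hM
    refine ⟨fun i j => ?_, hS M hM⟩
    have h1 := CntC_entry M i j
    have h2 := hk M hM
    have h3 : (M i j).natAbs ≤ Nat.sqrt ((k + 1) * n) := by
      rw [Nat.le_sqrt']
      omega
    rw [Int.abs_eq_natAbs]
    exact_mod_cast h3
  have h1 : S.card ≤
      {M : M2 | (∀ i j, |M i j| ≤ (Nat.sqrt ((k + 1) * n) : ℕ)) ∧ M.det = 0}.ncard := by
    rw [← Set.ncard_coe_finset]
    exact Set.ncard_le_ncard hsub (CntC_fin _)
  have h2 := hcount _ hR1
  generalize Nat.sqrt ((k + 1) * n) = R at *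
  have hR2' : (R : ℝ) ^ 2 ≤ ((k : ℝ) + 1) * n := by exact_mod_cast hR2
  have hRpos : (0 : ℝ) < R := by exact_mod_cast hR1
  have hnpos : (0 : ℝ) < n := by
    have : 0 < n := by omega
    exact_mod_cast this
  have hkpos : (0 : ℝ) < (k : ℝ) + 1 := by positivity
  have hlogn : 1 / 2 ≤ Real.log n := by
    have h3 := Real.log_two_gt_d9
    have h4 : Real.log 2 ≤ Real.log n := Real.log_le_log (by norm_num) (by exact_mod_cast hn)
    linarith
  have hlogR : Real.log R ≤ k + Real.log n := by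
    have h3 : (0 : ℝ) ≤ Real.log R := Real.log_nonneg (by exact_mod_cast hR1)
    have h4 : 2 * Real.log R ≤ Real.log (((k : ℝ) + 1) * n) := by
      rw [← Real.log_rpow hRpos]
      refine Real.log_le_log (by positivity) ?_
      rw [Real.rpow_two]
      exact hR2'
    rw [Real.log_mul hkpos.ne' hnpos.ne'] at h4
    have h5 : Real.log ((k : ℝ) + 1) ≤ k := by
      have := Real.log_le_sub_one_of_pos hkpos
      linarith
    linarith
  have h6 : 1 + Real.log R ≤ 3 * ((k : ℝ) + 1) * Real.log n := by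
    have hk0 : (0 : ℝ) ≤ k := by positivity
    nlinarith
  have h7 : (0 : ℝ) ≤ 1 + Real.log R := by
    have : (0 : ℝ) ≤ Real.log R := Real.log_nonneg (by exact_mod_cast hR1)
    linarith
  calc (S.card : ℝ) ≤ _ := by exact_mod_cast h1
    _ ≤ C0 * (R : ℝ) ^ 2 * (1 + Real.log R) := h2
    _ ≤ C0 * (((k : ℝ) + 1) * n) * (3 * ((k : ℝ) + 1) * Real.log n) := by
        have h8 : C0 * (R : ℝ) ^ 2 ≤ C0 * (((k : ℝ) + 1) * n) :=
          mul_le_mul_of_nonneg_left hR2' hC0.le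
        exact mul_le_mul h8 h6 h7 (by positivity)
    _ = _ := by ring

/-- PROOF. For `k ≥ 0` let `S k` be the set of the `M ∈ S` with
`k n ≤ ∑ (M i j) ^ 2 < (k + 1) n`.  The entries are at most `R = ⌈√((k + 1) n)⌉`, `R ≥ 1`,
`R ^ 2 ≤ 4 (k + 1) n`, so `S k` has at most `C (k + 1) n (1 + log (4 (k + 1) n))` elements
(`sing_count`), and `1 + log (4 (k + 1) n) ≤ C' (k + 1) log n` as `n ≥ 2`.  The sum over `S k` is at most
`exp (- c k)` times that, and `∑ (k + 1) ^ 2 exp (- c k)` converges. -/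
theorem sing_gauss {c : ℝ} (hc : 0 < c) : ∃ C : ℝ, 0 < C ∧ ∀ n : ℕ, 2 ≤ n → ∀ S : Finset M2,
    (∀ M ∈ S, M.det = 0) →
    ∑ M ∈ S, Real.exp (-c * (∑ i, ∑ j, (M i j : ℝ) ^ 2) / n) ≤ C * n * Real.log n := by
  obtain ⟨C0, hC0, hcount⟩ := sing_count
  have hsum := CntC_summable hc
  have hT : 0 < ∑' k : ℕ, ((k : ℝ) + 1) ^ 2 * Real.exp (-c * k) :=
    hsum.tsum_pos (fun k => by positivity) 0 (by positivity)
  refine ⟨3 * C0 * ∑' k : ℕ, ((k : ℝ) + 1) ^ 2 * Real.exp (-c * k), by positivity, ?_⟩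
  intro n hn S hS
  have hnpos : (0 : ℝ) < n := by
    have : 0 < n := by omega
    exact_mod_cast this
  have hlogn : 0 ≤ Real.log n := Real.log_nonneg (by exact_mod_cast (by omega : 1 ≤ n))
  rw [← Finset.sum_fiberwise_of_maps_to (t := S.image fun M => CntC_q M / n)
    (g := fun M => CntC_q M / n) (fun M h => Finset.mem_image_of_mem _ h)]
  have key : ∀ k ∈ S.image (fun M => CntC_q M / n),
      ∑ M ∈ S with CntC_q M / n = k, Real.exp (-c * (∑ i, ∑ j, (M i j : ℝ) ^ 2) / n) ≤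
        3 * C0 * (n * Real.log n) * (((k : ℝ) + 1) ^ 2 * Real.exp (-c * k)) := by
    intro k _
    have h1 : ∀ M ∈ S.filter (fun M => CntC_q M / n = k),
        Real.exp (-c * (∑ i, ∑ j, (M i j : ℝ) ^ 2) / n) ≤ Real.exp (-c * k) := by
      intro M hM
      rw [Finset.mem_filter] at hM
      rw [← CntC_q_cast, Real.exp_le_exp, div_le_iff₀ hnpos, mul_assoc]
      have h2 : k * n ≤ CntC_q M := by
        rw [← hM.2]
        exact Nat.div_mul_le_self _ _
      have h3 : (k : ℝ) * n ≤ CntC_q M := by exact_mod_cast h2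
      nlinarith
    have h2 := CntC_card hC0 hcount hn k (S := S.filter (fun M => CntC_q M / n = k))
      (fun M hM => hS M (Finset.mem_filter.1 hM).1) (fun M hM => by
        have h3 := (Finset.mem_filter.1 hM).2
        have h4 := Nat.lt_div_mul_add (a := CntC_q M) (b := n) (by omega)
        rw [h3] at h4
        calc CntC_q M < k * n + n := h4
          _ = (k + 1) * n := by ring)
    calc ∑ M ∈ S with CntC_q M / n = k, Real.exp (-c * (∑ i, ∑ j, (M i j : ℝ) ^ 2) / n)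
        ≤ (S.filter (fun M => CntC_q M / n = k)).card • Real.exp (-c * k) :=
          Finset.sum_le_card_nsmul _ _ _ h1
      _ = ((S.filter (fun M => CntC_q M / n = k)).card : ℝ) * Real.exp (-c * k) := by
          rw [nsmul_eq_mul]
      _ ≤ (3 * C0 * ((k : ℝ) + 1) ^ 2 * (n * Real.log n)) * Real.exp (-c * k) :=
          mul_le_mul_of_nonneg_right h2 (Real.exp_pos _).le
      _ = _ := by ring
  calc _ ≤ ∑ k ∈ S.image (fun M => CntC_q M / n),
        3 * C0 * (n * Real.log n) * (((k : ℝ) + 1) ^ 2 * Real.exp (-c * k)) :=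
        Finset.sum_le_sum key
    _ = 3 * C0 * (n * Real.log n) * ∑ k ∈ S.image (fun M => CntC_q M / n),
        (((k : ℝ) + 1) ^ 2 * Real.exp (-c * k)) := by rw [Finset.mul_sum]
    _ ≤ 3 * C0 * (n * Real.log n) * ∑' k : ℕ, (((k : ℝ) + 1) ^ 2 * Real.exp (-c * k)) := by
        refine mul_le_mul_of_nonneg_left ?_ (by positivity)
        exact hsum.sum_le_tsum _ fun k _ => by positivity
    _ = _ := by ring

end Pool.MP43e44c.GL
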