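import Pool.Agent.H.MP_43e44c_ag.GL.Half

/-!
Coordinates of representations.
-/

set_option autoImplicit false

open Finset

namespace Pool.MP43e44c.GL

/-- The coordinates of one representation. -/
def co1 {G : Type*} [Group G] (k : Fin 5) (ρ : G →* M2) (g : G) : coo k → ℤ :=
  fun p => ρ g p.1.1 p.1.2

/-- The coordinates of two representations. -/
def co2 {G : Type*} [Group G] (k : Fin 5) (ρ ρ' : G →* M2) (g : G) : coo k ⊕ coo k → ℤ :=
  Sum.elim (co1 k ρ g) (co1 k ρ' g)

end Pool.MP43e44c.GL
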