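import Mathlib

/-!
Coprime pairs.
-/

set_option autoImplicit false

open Finset

namespace Pool.MP43e44c.GL

/-- The coprime pairs of positive integers up to `T` with odd sum. -/
def cop (T : ℕ) : Finset (ℕ × ℕ) :=
  (Icc 1 T ×ˢ Icc 1 T).filter fun p => Nat.Coprime p.1 p.2 ∧ Odd (p.1 + p.2)

/-- The pairs with odd sum. -/
def copA_odd (m : ℕ) : Finset (ℕ × ℕ) :=
  (Icc 1 m ×ˢ Icc 1 m).filter fun p => Odd (p.1 + p.2)

theorem copA_even_card (m : ℕ) : ((Icc 1 m).filter fun x => Even x).card = m / 2 := by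
  have h := Nat.Ioc_filter_dvd_card_eq_div m 2
  rw [← h]
  apply congrArg
  ext x
  simp only [mem_filter, mem_Icc, mem_Ioc, even_iff_two_dvd]
  constructor <;> rintro ⟨⟨h1, h2⟩, h3⟩ <;> exact ⟨⟨by omega, h2⟩, h3⟩

theorem copA_odd_card (m : ℕ) : ((Icc 1 m).filter fun x => Odd x).card = m - m / 2 := by
  have h := Finset.card_filter_add_card_filter_not (s := Icc 1 m) (fun x => Even x)
  rw [copA_even_card, Nat.card_Icc] at h
  have h2 : ((Icc 1 m).filter fun x => ¬ Even x) = ((Icc 1 m).filter fun x => Odd x) := by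
    apply filter_congr
    intro x _
    rw [Nat.not_even_iff_odd]
  rw [h2] at h
  omega

theorem copA_card (m : ℕ) : (copA_odd m).card = 2 * ((m / 2) * (m - m / 2)) := by
  have h1 : copA_odd m = (((Icc 1 m).filter fun x => Even x) ×ˢ ((Icc 1 m).filter fun x => Odd x)) ∪
      (((Icc 1 m).filter fun x => Odd x) ×ˢ ((Icc 1 m).filter fun x => Even x)) := by
    ext ⟨x, y⟩
    simp only [copA_odd, mem_filter, mem_product, mem_union, Nat.odd_add]
    constructor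
    · rintro ⟨⟨hx, hy⟩, h⟩
      rcases Nat.even_or_odd x with hx' | hx'
      · left
        refine ⟨⟨hx, hx'⟩, hy, ?_⟩
        rw [← Nat.not_even_iff_odd] at *
        intro h2
        exact (h.2 h2) hx'
      · right
        exact ⟨⟨hx, hx'⟩, hy, h.1 hx'⟩
    · rintro (⟨⟨hx, hx'⟩, hy, hy'⟩ | ⟨⟨hx, hx'⟩, hy, hy'⟩)
      · refine ⟨⟨hx, hy⟩, ?_⟩
        rw [← Nat.not_even_iff_odd] at *
        tauto
      · exact ⟨⟨hx, hy⟩, fun _ => hy', fun _ => hx'⟩
  rw [h1, card_union_of_disjoint, card_product, card_product, copA_even_card, copA_odd_card]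
  · ring
  · rw [disjoint_left]
    rintro ⟨x, y⟩ h2 h3
    simp only [mem_product, mem_filter] at h2 h3
    exact (Nat.not_even_iff_odd.2 h3.1.2) h2.1.2

theorem copA_le (m : ℕ) : ((copA_odd m).card : ℝ) ≤ (m : ℝ) ^ 2 / 2 := by
  have h : 2 * (copA_odd m).card ≤ m ^ 2 := by
    rw [copA_card]
    obtain ⟨a, b, ha, hb, hab⟩ : ∃ a b, m / 2 = a ∧ m - m / 2 = b ∧ m = a + b :=
      ⟨_, _, rfl, rfl, by omega⟩
    rw [hb, ha, hab]
    have h3 : 2 * a * b ≤ a ^ 2 + b ^ 2 := two_mul_le_add_sq a b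
    nlinarith
  have h2 : (2 * ((copA_odd m).card : ℝ)) ≤ (m : ℝ) ^ 2 := by exact_mod_cast h
  linarith

theorem copA_ge (m : ℕ) : ((m : ℝ) ^ 2 - 1) / 2 ≤ ((copA_odd m).card : ℝ) := by
  have h : m ^ 2 ≤ 2 * (copA_odd m).card + 1 := by
    rw [copA_card]
    rcases Nat.even_or_odd' m with ⟨a, rfl | rfl⟩
    · rw [show 2 * a / 2 = a by omega, show 2 * a - a = a by omega]
      nlinarith
    · rw [show (2 * a + 1) / 2 = a by omega, show 2 * a + 1 - a = a + 1 by omega]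
      nlinarith
  have h2 : (m : ℝ) ^ 2 ≤ 2 * ((copA_odd m).card : ℝ) + 1 := by exact_mod_cast h
  linarith

theorem copA_sum (n : ℕ) :
    ∑ k ∈ range (n + 1), (1 : ℝ) / (2 * k + 3) ^ 2 ≤ (17 / 72 : ℝ) - 1 / (4 * (n : ℝ) + 8) := by
  induction n with
  | zero => norm_num
  | succ n ih =>
    rw [sum_range_succ]
    have h : (1 : ℝ) / (2 * ((n + 1 : ℕ) : ℝ) + 3) ^ 2 ≤
        1 / (4 * n + 8) - 1 / (4 * ((n + 1 : ℕ) : ℝ) + 8) := by
      push_cast
      have hn : (0 : ℝ) ≤ n := Nat.cast_nonneg n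
      rw [div_sub_div _ _ (by positivity) (by positivity), div_le_div_iff₀ (by positivity)
        (by positivity)]
      nlinarith
    linarith

theorem copA_sum_le (T : ℕ) : ∑ k ∈ range T, (1 : ℝ) / (2 * k + 3) ^ 2 ≤ 17 / 72 := by
  cases T with
  | zero => norm_num
  | succ n =>
    have h := copA_sum n
    have h2 : (0 : ℝ) ≤ 1 / (4 * n + 8) := by positivity
    linarith

theorem copA_non (T : ℕ) : ((copA_odd T).filter fun p => ¬ Nat.Coprime p.1 p.2) ⊆
    (range T).biUnion fun k =>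
      (copA_odd (T / (2 * k + 3))).image fun q => ((2 * k + 3) * q.1, (2 * k + 3) * q.2) := by
  rintro ⟨x, y⟩ hp
  simp only [copA_odd, mem_filter, mem_product, mem_Icc] at hp
  obtain ⟨⟨⟨⟨hx1, hx2⟩, hy1, hy2⟩, hodd⟩, hnc⟩ := hp
  obtain ⟨a, ha⟩ := Nat.gcd_dvd_left x y
  obtain ⟨b, hb⟩ := Nat.gcd_dvd_right x y
  have hnc' : Nat.gcd x y ≠ 1 := hnc
  have hg0 : 0 < Nat.gcd x y := Nat.gcd_pos_of_pos_left _ (by omega)
  generalize hg : Nat.gcd x y = g at *
  have hmul : x + y = g * (a + b) := by rw [mul_add, ← ha, ← hb]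
  rw [hmul, Nat.odd_mul] at hodd
  obtain ⟨⟨c, hc⟩, hab⟩ := hodd
  have hc1 : 1 ≤ c := by omega
  have ha0 : 1 ≤ a := by
    rcases Nat.eq_zero_or_pos a with h | h
    · rw [h, mul_zero] at ha
      omega
    · exact h
  have hb0 : 1 ≤ b := by
    rcases Nat.eq_zero_or_pos b with h | h
    · rw [h, mul_zero] at hb
      omega
    · exact h
  have hgT : g ≤ T := by
    calc g = g * 1 := (mul_one g).symm
      _ ≤ g * a := Nat.mul_le_mul_left g ha0
      _ ≤ T := by omega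
  rw [mem_biUnion]
  refine ⟨c - 1, mem_range.2 (by omega), ?_⟩
  rw [mem_image]
  have hk : 2 * (c - 1) + 3 = g := by omega
  refine ⟨(a, b), ?_, ?_⟩
  · rw [hk]
    simp only [copA_odd, mem_filter, mem_product, mem_Icc]
    refine ⟨⟨⟨ha0, ?_⟩, hb0, ?_⟩, hab⟩
    · rw [Nat.le_div_iff_mul_le hg0, mul_comm, ← ha]
      exact hx2
    · rw [Nat.le_div_iff_mul_le hg0, mul_comm, ← hb]
      exact hy2
  · rw [hk, ← ha, ← hb]

/-- PROOF. The number of the pairs in `Icc 1 T ×ˢ Icc 1 T` with odd sum is `2 ⌊T/2⌋ ⌈T/2⌉ ≥ (T ^ 2 - 1) / 2`.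
If such a pair is not coprime, both entries are divisible by some odd `d`, `3 ≤ d ≤ T` (the gcd is odd,
since not both are even), and the number of the pairs `d (x', y')`, `x', y' ≤ T / d`, with odd sum (i.e.
`x' + y'` odd) is at most `⌊T / d⌋ ^ 2 / 2 ≤ T ^ 2 / (2 d ^ 2)`.  `∑ 1 / d ^ 2` over the odd `d ≥ 3` is at
most `1 / 9 + ∑_{d ≥ 5 odd} 1 / ((d - 1) (d + 1)) ≤ 1 / 9 + 1 / 8`.  So
`card (cop T) ≥ (T ^ 2 - 1) / 2 - (17 / 144) T ^ 2 ≥ T ^ 2 / 3` for `T ≥ 4`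
(`1/2 - 17/144 = 55/144 > 1/3`, the difference `7/144 T ^ 2 ≥ 1/2` for `T ≥ 4`). -/
theorem cop_card {T : ℕ} (hT : 4 ≤ T) : (T : ℝ) ^ 2 / 3 ≤ ((cop T).card : ℝ) := by
  have h1 : (cop T).card + ((copA_odd T).filter fun p => ¬ Nat.Coprime p.1 p.2).card =
      (copA_odd T).card := by
    rw [← Finset.card_filter_add_card_filter_not (s := copA_odd T)
      (fun p => Nat.Coprime p.1 p.2)]
    congr 2
    ext p
    simp only [cop, copA_odd, mem_filter]
    tauto
  have h2 : ((((copA_odd T).filter fun p => ¬ Nat.Coprime p.1 p.2).card : ℕ) : ℝ) ≤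
      (T : ℝ) ^ 2 / 2 * (17 / 72) := by
    have h3 : ((copA_odd T).filter fun p => ¬ Nat.Coprime p.1 p.2).card ≤
        ∑ k ∈ range T, (copA_odd (T / (2 * k + 3))).card :=
      (card_le_card (copA_non T)).trans
        (card_biUnion_le.trans (sum_le_sum fun k _ => card_image_le))
    have h4 : ((((copA_odd T).filter fun p => ¬ Nat.Coprime p.1 p.2).card : ℕ) : ℝ) ≤
        ∑ k ∈ range T, ((copA_odd (T / (2 * k + 3))).card : ℝ) := by exact_mod_cast h3
    have h5 : ∑ k ∈ range T, ((copA_odd (T / (2 * k + 3))).card : ℝ) ≤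
        ∑ k ∈ range T, (T : ℝ) ^ 2 / 2 * (1 / (2 * k + 3) ^ 2) := by
      apply sum_le_sum
      intro k _
      refine (copA_le _).trans ?_
      have h6 : ((T / (2 * k + 3) : ℕ) : ℝ) ≤ (T : ℝ) / (2 * k + 3) := by
        have := Nat.cast_div_le (α := ℝ) (m := T) (n := 2 * k + 3)
        push_cast at this
        exact this
      have h7 : ((T / (2 * k + 3) : ℕ) : ℝ) ^ 2 ≤ ((T : ℝ) / (2 * k + 3)) ^ 2 :=
        pow_le_pow_left₀ (Nat.cast_nonneg _) h6 2
      rw [div_pow] at h7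
      calc ((T / (2 * k + 3) : ℕ) : ℝ) ^ 2 / 2 ≤ ((T : ℝ) ^ 2 / (2 * k + 3) ^ 2) / 2 := by
            linarith
        _ = (T : ℝ) ^ 2 / 2 * (1 / (2 * k + 3) ^ 2) := by ring
    rw [← mul_sum] at h5
    have h8 := copA_sum_le T
    have h9 : (T : ℝ) ^ 2 / 2 * ∑ k ∈ range T, (1 : ℝ) / (2 * k + 3) ^ 2 ≤
        (T : ℝ) ^ 2 / 2 * (17 / 72) := mul_le_mul_of_nonneg_left h8 (by positivity)
    linarith
  have h10 := copA_ge T
  have h11 : ((cop T).card : ℝ) + (((copA_odd T).filter fun p => ¬ Nat.Coprime p.1 p.2).card : ℝ) =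
      ((copA_odd T).card : ℝ) := by exact_mod_cast h1
  have h12 : (4 : ℝ) ≤ T := by exact_mod_cast hT
  nlinarith

/-- `cop (4 T)` minus `cop T`: the pairs with `T < max ≤ 4 T`; `card (cop T) ≤ T ^ 2`, so
`16 T ^ 2 / 3 - T ^ 2 ≥ 4 T ^ 2`. -/
theorem cop_dyadic {T : ℕ} (hT : 1 ≤ T) :
    4 * (T : ℝ) ^ 2 ≤ (((cop (4 * T)).filter fun p => T < max p.1 p.2).card : ℝ) := by
  have h1 := cop_card (T := 4 * T) (by omega)
  have h2 := Finset.card_filter_add_card_filter_not (s := cop (4 * T))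
    (fun p => T < max p.1 p.2)
  have h3 : ((cop (4 * T)).filter fun p => ¬ T < max p.1 p.2).card ≤ T * T := by
    have h4 : ((cop (4 * T)).filter fun p => ¬ T < max p.1 p.2) ⊆ Icc 1 T ×ˢ Icc 1 T := by
      rintro ⟨x, y⟩ hp
      simp only [cop, mem_filter, mem_product, mem_Icc] at hp ⊢
      omega
    refine (card_le_card h4).trans ?_
    rw [card_product, Nat.card_Icc]
    simp
  have h5 : ((((cop (4 * T)).filter fun p => T < max p.1 p.2).card : ℕ) : ℝ) +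
      ((((cop (4 * T)).filter fun p => ¬ T < max p.1 p.2).card : ℕ) : ℝ) =
      ((cop (4 * T)).card : ℝ) := by exact_mod_cast h2
  have h6 : ((((cop (4 * T)).filter fun p => ¬ T < max p.1 p.2).card : ℕ) : ℝ) ≤
      (T : ℝ) * T := by exact_mod_cast h3
  push_cast at h1
  nlinarith

end Pool.MP43e44c.GL
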