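import Pool.Agent.H.MP_43e44c_ag.GL.CopA

/-!
Quadruples `(g, h, x, y)` with `x, y` coprime.
-/

set_option autoImplicit false

open Finset

namespace Pool.MP43e44c.GL

/-- The quadruples `(g, h, x, y)` of positive integers with `x, y` coprime, `x + y` odd, `g` and `h`
congruent to `m` modulo `2`, and `g * max x y ≤ R`, `h * max x y ≤ R`. -/
def quad (R m : ℕ) : Finset (ℕ × ℕ × ℕ × ℕ) :=
  (Icc 1 R ×ˢ Icc 1 R ×ˢ Icc 1 R ×ˢ Icc 1 R).filter fun q =>
    Nat.Coprime q.2.2.1 q.2.2.2 ∧ Odd (q.2.2.1 + q.2.2.2) ∧ q.1 % 2 = m % 2 ∧ q.2.1 % 2 = m % 2 ∧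
      q.1 * max q.2.2.1 q.2.2.2 ≤ R ∧ q.2.1 * max q.2.2.1 q.2.2.2 ≤ R

theorem copB_gs (G m : ℕ) :
    G / 2 ≤ ((Icc 1 G).filter fun g => g % 2 = m % 2).card := by
  have h := Finset.card_le_card_of_injOn (s := range (G / 2))
    (t := (Icc 1 G).filter fun g => g % 2 = m % 2) (fun k => 2 * k + 2 - m % 2) (by
      intro k hk
      rw [mem_coe, mem_range] at hk
      rw [mem_coe, mem_filter, mem_Icc]
      change (1 ≤ 2 * k + 2 - m % 2 ∧ 2 * k + 2 - m % 2 ≤ G) ∧ (2 * k + 2 - m % 2) % 2 = m % 2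
      have h1 : m % 2 = 0 ∨ m % 2 = 1 := by omega
      rcases h1 with h1 | h1 <;> rw [h1] <;> refine ⟨⟨?_, ?_⟩, ?_⟩ <;> omega) (by
      intro k _ l _ hkl
      have h1 : m % 2 = 0 ∨ m % 2 = 1 := by omega
      change 2 * k + 2 - m % 2 = 2 * l + 2 - m % 2 at hkl
      rcases h1 with h1 | h1 <;> rw [h1] at hkl <;> omega)
  rwa [card_range] at h

/-- the contribution of one dyadic range -/
def copBset (R m j : ℕ) : Finset (ℕ × ℕ × ℕ × ℕ) :=
  ((Icc 1 (R / (4 * 4 ^ j))).filter fun g => g % 2 = m % 2) ×ˢ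
    ((Icc 1 (R / (4 * 4 ^ j))).filter fun g => g % 2 = m % 2) ×ˢ
      ((cop (4 * 4 ^ j)).filter fun p => 4 ^ j < max p.1 p.2)

theorem copB_sub {R m j : ℕ} (hj : 8 * 4 ^ j ≤ R) : copBset R m j ⊆ quad R m := by
  rintro ⟨g, h, x, y⟩ hq
  unfold copBset cop at hq
  simp only [mem_product, mem_filter, mem_Icc] at hq
  obtain ⟨⟨⟨hg1, hg2⟩, hg3⟩, ⟨⟨hh1, hh2⟩, hh3⟩, ⟨⟨⟨hx1, hx2⟩, hy1, hy2⟩, hc, ho⟩, -⟩ := hq
  have hT : 0 < 4 * 4 ^ j := by positivity
  have hTR : 4 * 4 ^ j ≤ R := by omega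
  have hdiv : R / (4 * 4 ^ j) * (4 * 4 ^ j) ≤ R := Nat.div_mul_le_self R _
  have hmax : max x y ≤ 4 * 4 ^ j := max_le hx2 hy2
  have hdR : R / (4 * 4 ^ j) ≤ R := Nat.div_le_self R _
  unfold quad
  simp only [mem_product, mem_filter, mem_Icc]
  refine ⟨⟨⟨hg1, hg2.trans hdR⟩, ⟨hh1, hh2.trans hdR⟩, ⟨hx1, hx2.trans hTR⟩, hy1,
    hy2.trans hTR⟩, hc, ho, hg3, hh3, ?_, ?_⟩
  · exact (Nat.mul_le_mul hg2 hmax).trans hdiv
  · exact (Nat.mul_le_mul hh2 hmax).trans hdiv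

theorem copB_disj {R m j j' : ℕ} (hj : j < j') : Disjoint (copBset R m j) (copBset R m j') := by
  rw [Finset.disjoint_left]
  rintro ⟨g, h, x, y⟩ hq hq'
  unfold copBset cop at hq hq'
  simp only [mem_product, mem_filter, mem_Icc] at hq hq'
  obtain ⟨-, -, ⟨⟨⟨-, hx2⟩, -, hy2⟩, -, -⟩, -⟩ := hq
  obtain ⟨-, -, -, h2⟩ := hq'
  have h3 : 4 ^ (j + 1) ≤ 4 ^ j' := Nat.pow_le_pow_right (by norm_num) hj
  rw [pow_succ] at h3
  have h4 : max x y ≤ 4 * 4 ^ j := max_le hx2 hy2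
  omega

theorem copB_card {R m j : ℕ} (hj : 8 * 4 ^ j ≤ R) :
    (R : ℝ) ^ 2 / 64 ≤ ((copBset R m j).card : ℝ) := by
  unfold copBset
  rw [card_product, card_product]
  push_cast
  set T : ℕ := 4 ^ j with hT
  have hT1 : 1 ≤ T := Nat.one_le_pow _ _ (by norm_num)
  set G : ℕ := R / (4 * T) with hG
  have hgs := copB_gs G m
  have hG2 : 2 ≤ G := by
    rw [hG, Nat.le_div_iff_mul_le (by omega)]
    omega
  have hGR : R < (G + 1) * (4 * T) := by
    rw [hG, ← Nat.div_lt_iff_lt_mul (by omega)]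
    exact Nat.lt_succ_self _
  have h1 : R ≤ 16 * T * (G / 2) := by
    have h2 : G + 1 ≤ 4 * (G / 2) := by omega
    calc R ≤ (G + 1) * (4 * T) := hGR.le
      _ ≤ 4 * (G / 2) * (4 * T) := Nat.mul_le_mul_right _ h2
      _ = 16 * T * (G / 2) := by ring
  have h3 : (R : ℝ) ≤ 16 * T * ((((Icc 1 G).filter fun g => g % 2 = m % 2).card : ℕ) : ℝ) := by
    have h4 : (R : ℝ) ≤ 16 * T * ((G / 2 : ℕ) : ℝ) := by exact_mod_cast h1
    refine h4.trans ?_
    have h5 : ((G / 2 : ℕ) : ℝ) ≤ (((Icc 1 G).filter fun g => g % 2 = m % 2).card : ℝ) := by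
      exact_mod_cast hgs
    have h6 : (0 : ℝ) ≤ 16 * T := by positivity
    exact mul_le_mul_of_nonneg_left h5 h6
  have h7 := cop_dyadic hT1
  set a : ℝ := (((Icc 1 G).filter fun g => g % 2 = m % 2).card : ℝ) with ha
  set b : ℝ := (((cop (4 * T)).filter fun p => T < max p.1 p.2).card : ℝ) with hb
  have hTr : (1 : ℝ) ≤ T := by exact_mod_cast hT1
  have ha0 : 0 ≤ a := Nat.cast_nonneg _
  have hR0 : (0 : ℝ) ≤ R := Nat.cast_nonneg _
  have h8 : (R : ℝ) ^ 2 ≤ (16 * T * a) ^ 2 := pow_le_pow_left₀ hR0 h3 2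
  have h9 : a * (a * (4 * (T : ℝ) ^ 2)) ≤ a * (a * b) :=
    mul_le_mul_of_nonneg_left (mul_le_mul_of_nonneg_left h7 ha0) ha0
  calc (R : ℝ) ^ 2 / 64 ≤ (16 * T * a) ^ 2 / 64 := by
        exact div_le_div_of_nonneg_right h8 (by norm_num)
    _ = a * (a * (4 * (T : ℝ) ^ 2)) := by ring
    _ ≤ a * (a * b) := h9

/-- PROOF. For `T = 4 ^ j`, `4 ^ (j + 1) ≤ R / 2`, and a pair `(x, y)` with `T < max x y ≤ 4 T`, `x, y`
coprime with odd sum, the number of the `g ≤ R / (4 T)` (a real number at least `2`) with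
`g % 2 = m % 2`, `1 ≤ g`, is at least `R / (16 T)` (at least `⌊⌊R / (4T)⌋ / 2⌋`).  So by `cop_dyadic` these
pairs contribute at least `4 T ^ 2 (R / (16 T)) ^ 2 = R ^ 2 / 64` quadruples, the contributions of
different `j` are disjoint, and the number of the `j ≥ 0` with `4 ^ (j + 1) ≤ R / 2` is at least
`log R / (2 log 4)` for `R ≥ R₀`. -/
theorem quad_card : ∃ c : ℝ, 0 < c ∧ ∃ R₀ : ℕ, ∀ R m : ℕ, R₀ ≤ R →
    c * (R : ℝ) ^ 2 * Real.log R ≤ ((quad R m).card : ℝ) := by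
  refine ⟨1 / 256, by norm_num, 64, ?_⟩
  intro R m hR
  set J : ℕ := Nat.log 4 (R / 8) + 1 with hJ
  have h8 : R / 8 ≠ 0 := by
    have : 8 ≤ R / 8 := by omega
    omega
  have hj : ∀ j ∈ range J, 8 * 4 ^ j ≤ R := by
    intro j hj
    rw [mem_range] at hj
    have h1 : 4 ^ j ≤ 4 ^ Nat.log 4 (R / 8) := Nat.pow_le_pow_right (by norm_num) (by omega)
    have h2 : 4 ^ Nat.log 4 (R / 8) ≤ R / 8 := Nat.pow_log_le_self 4 h8
    omega
  have hsub : (range J).biUnion (copBset R m) ⊆ quad R m := by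
    intro q hq
    rw [mem_biUnion] at hq
    obtain ⟨j, hj1, hj2⟩ := hq
    exact copB_sub (hj j hj1) hj2
  have hcard : ∑ j ∈ range J, (copBset R m j).card ≤ (quad R m).card := by
    rw [← Finset.card_biUnion]
    · exact Finset.card_le_card hsub
    · intro j _ j' _ hne
      rcases lt_or_gt_of_ne hne with h | h
      · exact copB_disj h
      · exact (copB_disj h).symm
  have hcard' : (J : ℝ) * ((R : ℝ) ^ 2 / 64) ≤ ((quad R m).card : ℝ) := by
    have h1 : ∑ _j ∈ range J, ((R : ℝ) ^ 2 / 64) ≤ ∑ j ∈ range J, ((copBset R m j).card : ℝ) :=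
      Finset.sum_le_sum fun j hj' => copB_card (hj j hj')
    rw [Finset.sum_const, card_range, nsmul_eq_mul] at h1
    refine h1.trans ?_
    exact_mod_cast hcard
  have hlog : Real.log R ≤ 4 * J := by
    have h1 : R / 8 < 4 ^ J := Nat.lt_pow_succ_log_self (by norm_num) _
    have h2 : R < 8 * 4 ^ J := by omega
    have h3 : (R : ℝ) ≤ 8 * 4 ^ J := by exact_mod_cast h2.le
    have hR0 : (0 : ℝ) < R := by
      have : 0 < R := by omega
      exact_mod_cast this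
    have h4 : Real.log R ≤ Real.log 8 + J * Real.log 4 := by
      have := Real.log_le_log hR0 h3
      rwa [Real.log_mul (by norm_num) (by positivity), Real.log_pow] at this
    have h5 : 2 * Real.log 8 ≤ Real.log R := by
      have h6 : (64 : ℝ) ≤ R := by exact_mod_cast hR
      have := Real.log_le_log (by norm_num) h6
      have h7 : Real.log 64 = 2 * Real.log 8 := by
        rw [show (64 : ℝ) = 8 ^ 2 by norm_num, Real.log_pow]
        push_cast
        ring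
      linarith
    have h6 : Real.log 4 ≤ 2 := by
      rw [show (4 : ℝ) = 2 ^ 2 by norm_num, Real.log_pow]
      have := Real.log_two_lt_d9
      push_cast
      linarith
    have hJ0 : (0 : ℝ) ≤ J := Nat.cast_nonneg _
    nlinarith
  have h1 : (1 / 256 : ℝ) * (R : ℝ) ^ 2 * Real.log R ≤ 1 / 256 * (R : ℝ) ^ 2 * (4 * J) :=
    mul_le_mul_of_nonneg_left hlog (by positivity)
  refine h1.trans (le_trans (le_of_eq ?_) hcard')
  ring

/-- A quadruple is determined by the products: `(x, y)` is the reduced form of `(g x, g y)`. -/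
theorem quad_inj {R m R' m' : ℕ} {g h x y g' h' x' y' : ℕ} (hq : (g, h, x, y) ∈ quad R m)
    (hq' : (g', h', x', y') ∈ quad R' m') (h1 : g * x = g' * x') (h2 : g * y = g' * y')
    (h3 : h * x = h' * x') : g = g' ∧ h = h' ∧ x = x' ∧ y = y' := by
  unfold quad at hq hq'
  simp only [mem_product, mem_filter, mem_Icc] at hq hq'
  obtain ⟨⟨⟨hg, -⟩, ⟨-, -⟩, ⟨hx, -⟩, -, -⟩, hc, -⟩ := hq
  obtain ⟨-, hc', -⟩ := hq'
  have e1 : g = g' := by
    have h4 : Nat.gcd (g * x) (g * y) = g := by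
      rw [Nat.gcd_mul_left, Nat.Coprime.gcd_eq_one hc, mul_one]
    have h5 : Nat.gcd (g' * x') (g' * y') = g' := by
      rw [Nat.gcd_mul_left, Nat.Coprime.gcd_eq_one hc', mul_one]
    rw [← h4, h1, h2, h5]
  subst e1
  have e2 : x = x' := Nat.eq_of_mul_eq_mul_left hg h1
  have e3 : y = y' := Nat.eq_of_mul_eq_mul_left hg h2
  subst e2
  have e4 : h = h' := Nat.eq_of_mul_eq_mul_right hx h3
  exact ⟨rfl, e4, rfl, e3⟩

end Pool.MP43e44c.GL
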