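import Mathlib

/-!
Odd integral representations of dimension at most two: definitions.
-/

set_option autoImplicit false

open Finset

namespace Pool.MP43e44c.GL

/-- Integral two by two matrices. -/
abbrev M2 := Matrix (Fin 2) (Fin 2) ℤ

/-- A matrix of order `4` (for `t = 0`) or `6` (for `t = 1`). -/
def rot (t : ℤ) : M2 := !![0, -1; 1, t]

/-- A reflection. -/
def ref (t : ℤ) : M2 := !![1, t; 0, -1]

/-- One half of the finite matrix groups of type `C₂`, `C₄`, `C₆`, `D₄`, `D₆`. -/
def hf : Fin 5 → Finset M2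
  | 0 => {1}
  | 1 => {1, rot 0}
  | 2 => {1, rot 1, rot 1 * rot 1}
  | 3 => {1, rot 0, ref 0, ref 0 * rot 0}
  | 4 => {1, rot 1, rot 1 * rot 1, ref 1, ref 1 * rot 1, ref 1 * (rot 1 * rot 1)}

/-- The finite matrix groups. -/
def full (k : Fin 5) : Finset M2 := hf k ∪ (hf k).image fun s => -s

/-- The order of the half. -/
def hc : Fin 5 → ℕ
  | 0 => 1
  | 1 => 2
  | 2 => 3
  | 3 => 4
  | 4 => 6

theorem hf_card (k : Fin 5) : (hf k).card = hc k := by
  revert k; decide

theorem full_card (k : Fin 5) : (full k).card = 2 * hc k := by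
  revert k; decide

theorem one_mem (k : Fin 5) : (1 : M2) ∈ full k := by
  revert k; decide

theorem mul_mem (k : Fin 5) : ∀ s ∈ full k, ∀ s' ∈ full k, s * s' ∈ full k := by
  revert k; decide

theorem neg_mem (k : Fin 5) : ∀ s ∈ full k, -s ∈ full k := by
  revert k; decide

theorem hf_neg (k : Fin 5) : ∀ s ∈ hf k, -s ∉ hf k := by
  revert k; decide

theorem full_abs (k : Fin 5) : ∀ s ∈ full k, ∀ i j, |s i j| ≤ 1 := by
  revert k; decide

end Pool.MP43e44c.GL
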