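import Pool.Agent.H.MP_43e44c_ag.GL.Kin

/-!
Half systems in a finite group with a distinguished involution.
-/

set_option autoImplicit false

open Finset

namespace Pool.MP43e44c.GL

/-- A half system for the involution `c`. -/
def IsHf {G : Type*} [Group G] (c : G) (A : Finset G) : Prop := ∀ g, g ∈ A ↔ g * c ∉ A

/-- An odd integral representation with image of type `k`. -/
structure Typ {G : Type*} [Group G] (c : G) (k : Fin 5) (ρ : G →* M2) : Prop where
  odd : ρ c = -1
  mem : ∀ g, ρ g ∈ full k
  surj : ∀ s ∈ full k, ∃ g, ρ g = s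

open Classical in
/-- The half systems for which the representation is degenerate. -/
noncomputable def Ev {G : Type*} [Group G] [Fintype G] (c : G) (ρ : G →* M2) :
    Finset (Finset G) :=
  univ.filter fun A => IsHf c A ∧ (∑ g ∈ A, ρ g).det = 0

/-- The order of magnitude of the proportion of the degenerate half systems. -/
noncomputable def al (k : Fin 5) (n : ℕ) : ℝ :=
  match k with
  | 0 => 1 / √n
  | 1 => 1 / n
  | 2 => 1 / n
  | 3 => Real.log n / n
  | 4 => Real.log n / n

section

variable {G : Type*} [Group G] [Fintype G] {c : G}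

/-- Split `A` into `A ∩ T` and `A \ T`; right multiplication by `c` maps `A \ T` bijectively onto
`T \ A`, and changes the sign of `x`. -/
theorem half_sum [DecidableEq G] (hc2 : c * c = 1) {T A : Finset G} (hT : IsHf c T)
    (hA : IsHf c A) {β : Type*} [AddCommGroup β] (x : G → β) (hx : ∀ g, x (g * c) = - x g) :
    ∑ g ∈ A, x g = ∑ t : T, if (t : G) ∈ A then x t else - x t := by
  have h1 : ∑ g ∈ A \ T, x g = ∑ t ∈ T \ A, x (t * c) := by
    symm
    refine Finset.sum_bij (fun t _ => t * c) ?_ ?_ ?_ ?_
    · intro t ht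
      rw [mem_sdiff] at ht ⊢
      refine ⟨?_, (hT t).1 ht.1⟩
      by_contra h
      exact ht.2 ((hA t).2 h)
    · intro a _ b _ hab
      exact mul_right_cancel hab
    · intro g hg
      rw [mem_sdiff] at hg
      refine ⟨g * c, ?_, ?_⟩
      · rw [mem_sdiff]
        refine ⟨?_, (hA g).1 hg.1⟩
        by_contra h
        exact hg.2 ((hT g).2 h)
      · rw [mul_assoc, hc2, mul_one]
    · intro t _
      rfl
  have h2 : ∑ g ∈ A, x g = ∑ g ∈ A ∩ T, x g + ∑ g ∈ A \ T, x g :=
    (Finset.sum_inter_add_sum_sdiff A T x).symm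
  have h3 : ∑ t : T, (if (t : G) ∈ A then x t else - x t) =
      ∑ t ∈ T, (if t ∈ A then x t else - x t) :=
    Finset.sum_coe_sort T (fun t => if t ∈ A then x t else - x t)
  have h4 : ∑ t ∈ T, (if t ∈ A then x t else - x t) =
      ∑ t ∈ T ∩ A, (if t ∈ A then x t else - x t) + ∑ t ∈ T \ A, (if t ∈ A then x t else - x t) :=
    (Finset.sum_inter_add_sum_sdiff T A _).symm
  rw [h3, h4, h2, h1]
  congr 1
  · rw [inter_comm]
    refine Finset.sum_congr rfl fun t ht => ?_
    rw [if_pos (mem_inter.1 ht).2]
  · refine Finset.sum_congr rfl fun t ht => ?_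
    rw [if_neg (mem_sdiff.1 ht).2, hx]

/-- `T` and its translate by `c` form a partition. -/
theorem half_card (hc2 : c * c = 1) {T : Finset G} (hT : IsHf c T) :
    Fintype.card G = 2 * T.card := by
  classical
  have h1 : (Tᶜ).card = T.card := by
    symm
    refine Finset.card_bij (fun t _ => t * c) ?_ ?_ ?_
    · intro t ht
      rw [mem_compl]
      exact (hT t).1 ht
    · intro a _ b _ hab
      exact mul_right_cancel hab
    · intro g hg
      rw [mem_compl] at hg
      refine ⟨g * c, ?_, ?_⟩
      · by_contra h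
        exact hg ((hT g).2 h)
      · rw [mul_assoc, hc2, mul_one]
  have h2 := Finset.card_add_card_compl T
  omega

/-- A half system is determined by its intersection with the half system `T`:
`A ↦ (t ↦ decide (t ∈ A))` is injective on half systems. -/
theorem half_le [DecidableEq G] (hc2 : c * c = 1) {T : Finset G} (hT : IsHf c T)
    (P : Finset G → Prop) (Q : (T → Bool) → Prop)
    (h : ∀ A, IsHf c A → P A → Q fun t => decide ((t : G) ∈ A)) :
    {A : Finset G | IsHf c A ∧ P A}.ncard ≤ {v : T → Bool | Q v}.ncard := by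
  refine Set.ncard_le_ncard_of_injOn (fun A : Finset G => fun t : T => decide ((t : G) ∈ A))
    ?_ ?_ (Set.toFinite _)
  · rintro A ⟨h1, h2⟩
    exact h A h1 h2
  · rintro A ⟨h1, -⟩ B ⟨h2, -⟩ hAB
    have key : ∀ g ∈ T, (g ∈ A ↔ g ∈ B) := by
      intro g hg
      have h3 := congrFun hAB ⟨g, hg⟩
      simpa using h3
    ext g
    by_cases hg : g ∈ T
    · exact key g hg
    · have hgc : g * c ∈ T := by
        by_contra h3
        exact hg ((hT g).2 h3)
      rw [h1 g, h2 g, key _ hgc]

/-- The elements with `ρ g ∈ hf k` form a half system (`full k` is the disjoint union of `hf k` and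
`- hf k`, `hf_neg`). -/
theorem half_pre [DecidableEq G] {k : Fin 5} {ρ : G →* M2} (h : Typ c k ρ) :
    IsHf c (univ.filter fun g => ρ g ∈ hf k) := by
  intro g
  have h1 : ρ (g * c) = - ρ g := by
    rw [map_mul, h.odd, mul_neg, mul_one]
  rw [mem_filter, mem_filter, h1]
  simp only [mem_univ, true_and]
  constructor
  · intro h2
    exact hf_neg k _ h2
  · intro h2
    have h3 := h.mem g
    unfold full at h3
    rcases mem_union.1 h3 with h4 | h4
    · exact h4
    · obtain ⟨s, hs, hs2⟩ := mem_image.1 h4
      exfalso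
      apply h2
      rw [← hs2, neg_neg]
      exact hs

/-- All fibres of `ρ` have the same number of elements as the kernel. -/
theorem fib_card {k : Fin 5} {ρ : G →* M2} (h : Typ c k ρ) {s : M2} (hs : s ∈ full k) :
    {g : G | ρ g = s}.ncard = Nat.card ρ.ker := by
  obtain ⟨g0, hg0⟩ := h.surj s hs
  have h1 : {g : G | ρ g = s} = (fun g => g0 * g) '' (ρ.ker : Set G) := by
    ext g
    constructor
    · intro hg
      have hg' : ρ g = s := hg
      refine ⟨g0⁻¹ * g, ?_, ?_⟩
      · show g0⁻¹ * g ∈ ρ.ker
        rw [MonoidHom.mem_ker, map_mul, hg', ← hg0, ← map_mul, inv_mul_cancel, map_one]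
      · show g0 * (g0⁻¹ * g) = g
        rw [mul_inv_cancel_left]
    · rintro ⟨a, ha, rfl⟩
      have ha' : ρ a = 1 := MonoidHom.mem_ker.1 ha
      show ρ (g0 * a) = s
      rw [map_mul, ha', mul_one, hg0]
  rw [h1, Set.ncard_image_of_injective _ (mul_right_injective g0)]
  exact (Nat.card_coe_set_eq (ρ.ker : Set G)).symm

theorem ker_card {k : Fin 5} {ρ : G →* M2} (h : Typ c k ρ) :
    Fintype.card G = 2 * hc k * Nat.card ρ.ker := by
  classical
  have h1 : (univ : Finset G).card = ∑ s ∈ full k, ((univ : Finset G).filter fun g => ρ g = s).card :=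
    Finset.card_eq_sum_card_fiberwise fun g _ => h.mem g
  have h2 : ∀ s ∈ full k, ((univ : Finset G).filter fun g => ρ g = s).card = Nat.card ρ.ker := by
    intro s hs
    rw [← fib_card h hs, ← Set.ncard_coe_finset]
    congr 1
    ext g
    simp
  rw [← Finset.card_univ, h1, Finset.sum_congr rfl h2, Finset.sum_const, full_card, smul_eq_mul]

end

end Pool.MP43e44c.GL
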