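import Pool.Agent.H.MP_43e44c_ag.EX.ExLat
import Pool.Agent.H.MP_43e44c_ag.AB.Dict
import Pool.Agent.H.MP_43e44c_ag.GL.Half

/-!
Galois CM fields: a CM type whose half system is degenerate for an odd representation and has no
symmetry has exotic Hodge classes.
-/

set_option autoImplicit false

open NumberField Finset Module

namespace Pool.MP43e44c.GL

variable {K : Type*} [Field K] [NumberField K] [IsCMField K] [IsGalois ℚ K]

/-- As `exists_c` (Gal.lean) for abelian fields.  `exists_cm_conj` (Disc.lean) or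
`IsCMField.complexConj K` gives the automorphism; it commutes with all automorphisms because
`conj ψ = ψ ∘ c` for all embeddings `ψ`, also for `ψ ∘ g`. -/
theorem exists_conj (φ : K →+* ℂ) : ∃ c : K ≃ₐ[ℚ] K, c * c = 1 ∧ c ≠ 1 ∧ (∀ g, c * g = g * c) ∧
    (∀ g, ComplexEmbedding.conjugate (tw φ g) = tw φ (g * c)) ∧
    (∀ ψ : K →+* ℂ, ComplexEmbedding.conjugate ψ = ψ.comp (c : K →+* K)) := by
  obtain ⟨c0, hc0⟩ := exists_cm_conj K
  obtain ⟨c, hc⟩ := (tw_bijective φ).2 (ComplexEmbedding.conjugate φ)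
  have hcc : (c : K →+* K) = c0 := by
    ext x
    apply φ.injective
    have h1 : tw φ c x = ComplexEmbedding.conjugate φ x := by rw [hc]
    rw [hc0 φ] at h1
    exact h1
  have hall : ∀ ψ : K →+* ℂ, ComplexEmbedding.conjugate ψ = ψ.comp (c : K →+* K) := by
    intro ψ
    rw [hcc]
    exact hc0 ψ
  have htw : ∀ g, ComplexEmbedding.conjugate (tw φ g) = tw φ (g * c) := fun g => hall (tw φ g)
  refine ⟨c, ?_, ?_, ?_, htw, hall⟩
  · apply (tw_bijective φ).1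
    rw [← htw, hc, conj_conj]
    rfl
  · rintro rfl
    exact conj_ne φ hc.symm
  · intro g
    apply (tw_bijective φ).1
    rw [← htw]
    ext x
    have h1 : ComplexEmbedding.conjugate φ (g x) = ComplexEmbedding.conjugate (tw φ g) x := rfl
    rw [← h1, ← hc]
    rfl

/-- The half system of a CM type. -/
noncomputable def hOf (φ : K →+* ℂ) (Φ : Finset (K →+* ℂ)) : Finset (K ≃ₐ[ℚ] K) := by
  classical
  exact univ.filter fun g => tw φ g ∈ Φ

omit [IsCMField K] [IsGalois ℚ K] in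
theorem mem_hOf {φ : K →+* ℂ} {Φ : Finset (K →+* ℂ)} {g : K ≃ₐ[ℚ] K} :
    g ∈ hOf φ Φ ↔ tw φ g ∈ Φ := by
  classical
  simp [hOf]

/-- As `isHalf_iff` (Gal.lean). -/
theorem isHf_iff {φ : K →+* ℂ} {c : K ≃ₐ[ℚ] K}
    (hc : ∀ g, ComplexEmbedding.conjugate (tw φ g) = tw φ (g * c)) (Φ : Finset (K →+* ℂ)) :
    IsHf c (hOf φ Φ) ↔ IsCMType Φ := by
  unfold IsHf IsCMType
  simp only [mem_hOf, ← hc]
  constructor
  · intro h ψ
    obtain ⟨g, rfl⟩ := (tw_bijective φ).2 ψ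
    exact h g
  · intro h g
    exact h _

/-- PROOF. As `exotic_of_char` (AB/Dict.lean): primitivity as there.  `M = ∑ g ∈ A, ρ g` (`A = hOf φ Φ`)
has determinant `0`, so there is a nonzero `w : Fin 2 → ℤ` with `M *ᵥ w = 0`
(`Matrix.exists_mulVec_eq_zero_iff`); let `w i ≠ 0` and `F g = (ρ g *ᵥ w) i`, so `F 1 = w i ≠ 0`,
`F (g * c) = - F g`, and for `x` in the group
`∑ g, F (x⁻¹ * g) * (±1) = (ρ x⁻¹ *ᵥ (∑ g, (±1) ρ g *ᵥ w)) i = (ρ x⁻¹ *ᵥ (2 M *ᵥ w)) i = 0`, where the sign is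
`1` for `g ∈ A` and `-1` otherwise (and `∑ g, (±1) ρ g = 2 M` since `ρ (g * c) = - ρ g`).  The function
`ψ ↦ F (e.symm ψ)` is in `lat`, apply `not_generated_of_lat`. -/
theorem exotic_of_rep {φ : K →+* ℂ} {c : K ≃ₐ[ℚ] K} (hc2 : c * c = 1)
    (hc : ∀ g, ComplexEmbedding.conjugate (tw φ g) = tw φ (g * c))
    {Φ : Finset (K →+* ℂ)} (hΦ : IsCMType Φ)
    (hsym : ∀ h : K ≃ₐ[ℚ] K, (∀ x, x ∈ hOf φ Φ ↔ x * h ∉ hOf φ Φ) → h = c)
    {ρ : (K ≃ₐ[ℚ] K) →* M2} (hρ : ρ c = -1) (h0 : (∑ g ∈ hOf φ Φ, ρ g).det = 0) :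
    ¬ HodgeRingGeneratedByDivisors Φ := by
  classical
  -- primitivity
  have hprim : ∀ ψ ψ' : K →+* ℂ, Perp Φ ψ ψ' → ψ' = ComplexEmbedding.conjugate ψ := by
    intro ψ ψ' hp
    obtain ⟨g, rfl⟩ := (tw_bijective φ).2 ψ
    obtain ⟨g', rfl⟩ := (tw_bijective φ).2 ψ'
    rw [hc]
    have h1 : g⁻¹ * g' = c := by
      apply hsym
      intro x
      obtain ⟨σ, hσ⟩ := exists_smul_eq φ (tw φ (x * g⁻¹))
      have h2 := hp σ
      rw [tw_smul hσ, tw_smul hσ, ← mem_hOf, ← mem_hOf, inv_mul_cancel_right] at h2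
      rw [h2, mul_assoc]
    rw [← h1, mul_inv_cancel_left]
  -- the sum with signs
  have hT : ∑ g, ρ g = 0 := by
    have h1 : ∑ g, ρ g = - ∑ g, ρ g := by
      calc ∑ g, ρ g = ∑ g, ρ (g * c) := (Equiv.sum_comp (Equiv.mulRight c) (fun g => ρ g)).symm
        _ = ∑ g, - ρ g := sum_congr rfl fun g _ => by rw [map_mul, hρ, mul_neg, mul_one]
        _ = - ∑ g, ρ g := sum_neg_distrib _
    have h2 : ∀ i j, (∑ g, ρ g) i j = 0 := by
      intro i j
      have h3 := congrFun (congrFun h1 i) j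
      rw [Matrix.neg_apply] at h3
      omega
    ext i j
    exact h2 i j
  obtain ⟨w, hw0, hw⟩ := Matrix.exists_mulVec_eq_zero_iff.2 h0
  obtain ⟨i, hi⟩ := Function.ne_iff.1 hw0
  have hN : ∑ g, sgn (hOf φ Φ) g • ρ g = (2 : ℤ) • ∑ g ∈ hOf φ Φ, ρ g := by
    have h1 : ∀ g, sgn (hOf φ Φ) g • ρ g = (2 : ℤ) • (if g ∈ hOf φ Φ then ρ g else 0) - ρ g := by
      intro g
      unfold sgn
      split_ifs
      · rw [one_smul, two_smul, add_sub_cancel_right]
      · rw [smul_zero, zero_sub, neg_smul, one_smul]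
    rw [sum_congr rfl fun g _ => h1 g, sum_sub_distrib, hT, sub_zero, ← smul_sum,
      sum_ite_mem, univ_inter]
  set F : (K ≃ₐ[ℚ] K) → ℤ := fun g => (ρ g).mulVec w i with hF
  have hFx : ∀ x, ∑ g, F (x⁻¹ * g) * sgn (hOf φ Φ) g = 0 := by
    intro x
    have h1 : (∑ g, sgn (hOf φ Φ) g • ρ (x⁻¹ * g)).mulVec w = 0 := by
      have h2 : ∑ g, sgn (hOf φ Φ) g • ρ (x⁻¹ * g) = ρ x⁻¹ * ∑ g, sgn (hOf φ Φ) g • ρ g := by
        rw [mul_sum]
        refine sum_congr rfl fun g _ => ?_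
        rw [map_mul, mul_smul_comm]
      rw [h2, hN, ← Matrix.mulVec_mulVec, Matrix.smul_mulVec, hw, smul_zero, Matrix.mulVec_zero]
    have h2 := congrFun h1 i
    rw [Matrix.sum_mulVec, Finset.sum_apply, Pi.zero_apply] at h2
    rw [← h2]
    refine sum_congr rfl fun g _ => ?_
    rw [Matrix.smul_mulVec, Pi.smul_apply, smul_eq_mul, mul_comm]
  let e : (K ≃ₐ[ℚ] K) ≃ (K →+* ℂ) := Equiv.ofBijective (tw φ) (tw_bijective φ)
  have he : ∀ g, e.symm (tw φ g) = g := fun g => e.symm_apply_apply g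
  refine not_generated_of_lat hΦ hprim (f := fun ψ => F (e.symm ψ)) ⟨?_, ?_⟩ ?_
  · intro ψ
    obtain ⟨g, rfl⟩ := (tw_bijective φ).2 ψ
    show F (e.symm (ComplexEmbedding.conjugate (tw φ g))) = - F (e.symm (tw φ g))
    rw [hc, he, he]
    show (ρ (g * c)).mulVec w i = - (ρ g).mulVec w i
    rw [map_mul, hρ, mul_neg, mul_one, Matrix.neg_mulVec, Pi.neg_apply]
  · intro σ
    obtain ⟨x, hx⟩ := (tw_bijective φ).2 (σ • φ)
    have h1 : ∑ ψ, F (e.symm ψ) * sg Φ (σ • ψ)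
        = ∑ g : K ≃ₐ[ℚ] K, F (x⁻¹ * g) * sgn (hOf φ Φ) g := by
      rw [← Equiv.sum_comp e, ← Equiv.sum_comp (Equiv.mulLeft x)
        (fun g => F (x⁻¹ * g) * sgn (hOf φ Φ) g)]
      refine Finset.sum_congr rfl fun g _ => ?_
      have h2 : e g = tw φ g := rfl
      rw [h2, he, tw_smul hx.symm, Equiv.coe_mulLeft, inv_mul_cancel_left]
      congr 1
      unfold sg sgn
      simp only [mem_hOf]
    rw [h1]
    exact hFx x
  · intro hcon
    have h1 := congrFun hcon (tw φ 1)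
    simp only [he, Pi.zero_apply] at h1
    apply hi
    rw [Pi.zero_apply, ← h1, hF]
    simp only
    rw [map_one, Matrix.one_mulVec]

end Pool.MP43e44c.GL
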