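import Pool.Agent.H.MP_43e44c_ag.GL.ExA
import Pool.Agent.H.MP_43e44c_ag.GL.Sym

/-!
Degenerate half systems and CM types with exotic Hodge classes.
-/

set_option autoImplicit false

open NumberField Finset Module

namespace Pool.MP43e44c.GL

variable {K : Type*} [Field K] [NumberField K] [IsCMField K] [IsGalois ℚ K]

open Classical in
/-- PROOF. As `card_char_le` (AB/Fam.lean), with `exotic_of_rep` and `card_symm`: the CM type attached
to a half system `A` is `univ.filter fun ψ => ∃ g ∈ A, tw φ g = ψ`. -/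
theorem card_ev_le {φ : K →+* ℂ} {c : K ≃ₐ[ℚ] K} (hc2 : c * c = 1) (hc1 : c ≠ 1)
    (hcen : ∀ g, c * g = g * c)
    (hc : ∀ g, ComplexEmbedding.conjugate (tw φ g) = tw φ (g * c)) {n : ℕ}
    (hn : finrank ℚ K = 2 * n) (E : Finset (Finset (K ≃ₐ[ℚ] K)))
    (hE : ∀ A ∈ E, ∃ ρ : (K ≃ₐ[ℚ] K) →* M2, ρ c = -1 ∧ A ∈ Ev c ρ) :
    E.card ≤ {Φ : Finset (K →+* ℂ) | IsCMType Φ ∧ ¬ HodgeRingGeneratedByDivisors Φ}.ncard
      + 2 * n * 2 ^ (n / 2) := by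
  have hcard : Fintype.card (K ≃ₐ[ℚ] K) = 2 * n := by
    rw [← Nat.card_eq_fintype_card, IsGalois.card_aut_eq_finrank, hn]
  have hsub : E ⊆ (E.filter fun A => ∀ h : K ≃ₐ[ℚ] K, (∀ x, x ∈ A ↔ x * h ∉ A) → h = c) ∪
      (univ.filter fun A : Finset (K ≃ₐ[ℚ] K) => IsHf c A ∧
        ∃ h : K ≃ₐ[ℚ] K, h ≠ c ∧ ∀ x, x ∈ A ↔ x * h ∉ A) := by
    intro A hA
    rw [mem_union, mem_filter, mem_filter]
    by_cases h : ∀ h : K ≃ₐ[ℚ] K, (∀ x, x ∈ A ↔ x * h ∉ A) → h = c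
    · exact Or.inl ⟨hA, h⟩
    · push Not at h
      obtain ⟨h, h1, h2⟩ := h
      obtain ⟨ρ, -, hA2⟩ := hE A hA
      exact Or.inr ⟨mem_univ _, (mem_filter.1 hA2).2.1, h, h2, h1⟩
  refine (card_le_card hsub).trans ((card_union_le _ _).trans (Nat.add_le_add ?_ ?_))
  · rw [← Set.ncard_coe_finset]
    have hhalf : ∀ A : Finset (K ≃ₐ[ℚ] K),
        hOf φ (univ.filter fun ψ => ∃ g ∈ A, tw φ g = ψ) = A := by
      intro A
      ext g
      rw [mem_hOf, mem_filter]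
      constructor
      · rintro ⟨-, g', hg', h⟩
        rwa [← (tw_bijective φ).1 h]
      · intro h
        exact ⟨mem_univ _, g, h, rfl⟩
    refine Set.ncard_le_ncard_of_injOn (fun A => univ.filter fun ψ => ∃ g ∈ A, tw φ g = ψ)
      ?_ ?_ (Set.toFinite _)
    · intro A hA
      obtain ⟨hA1, hsym⟩ := mem_filter.1 (mem_coe.1 hA)
      obtain ⟨ρ, hρ, hA2⟩ := hE A hA1
      obtain ⟨-, hA3, h0⟩ := mem_filter.1 hA2
      have hΦ : IsCMType (univ.filter fun ψ => ∃ g ∈ A, tw φ g = ψ) := by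
        rw [← isHf_iff hc, hhalf]
        exact hA3
      refine ⟨hΦ, ?_⟩
      refine exotic_of_rep hc2 hc hΦ ?_ hρ ?_
      · rw [hhalf]
        exact hsym
      · rw [hhalf]
        exact h0
    · intro A _ B _ h
      simp only at h
      rw [← hhalf A, h, hhalf B]
  · have h1 := card_symm (c := c) hc2 hc1 hcen hcard
    have h2 : {A : Finset (K ≃ₐ[ℚ] K) | IsHf c A ∧ ∃ h : K ≃ₐ[ℚ] K, h ≠ c ∧
        ∀ x, x ∈ A ↔ x * h ∉ A} = ((univ.filter fun A : Finset (K ≃ₐ[ℚ] K) => IsHf c A ∧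
        ∃ h : K ≃ₐ[ℚ] K, h ≠ c ∧ ∀ x, x ∈ A ↔ x * h ∉ A : Finset (Finset (K ≃ₐ[ℚ] K))) :
        Set (Finset (K ≃ₐ[ℚ] K))) := by
      ext A
      simp
    rw [h2, Set.ncard_coe_finset] at h1
    exact h1

end Pool.MP43e44c.GL
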