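import Pool.Agent.H.MP_43e44c_ag.GL.FldA

/-!
The subfields which count.
-/

set_option autoImplicit false

open NumberField Finset Module

namespace Pool.MP43e44c.GL

/-- The subfields which count: for type `0` (degree `2`) only if `n` is even, for type `1` (cyclic of
degree `4`) only if `4` divides `n`. -/
def GCnt (K : Type*) [Field K] [NumberField K] (n : ℕ) (k : Fin 5) :
    Set (IntermediateField ℚ K) :=
  {F | F ∈ GSub K k ∧ (k = 0 → 2 ∣ n) ∧ (k = 1 → 4 ∣ n)}

end Pool.MP43e44c.GL
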