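import Pool.Agent.H.MP_43e44c_ag.GL.Half

/-!
The number of half systems with given intersections with the fibres of a representation.
-/

set_option autoImplicit false

open Finset

namespace Pool.MP43e44c.GL

variable {G : Type*} [Group G] [Fintype G] [DecidableEq G] {c : G}

theorem fib_hc_pos (k : Fin 5) : 0 < hc k := by
  revert k; decide

theorem fib_hf_full {k : Fin 5} {s : M2} (hs : s ∈ hf k) : s ∈ full k :=
  Finset.mem_union_left _ hs

theorem fib_size {k : Fin 5} {ρ : G →* M2} (h : Typ c k ρ) {m : ℕ}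
    (hm : Fintype.card G = 2 * hc k * m) {s : M2} (hs : s ∈ hf k) :
    (univ.filter fun g : G => ρ g = s).card = m := by
  classical
  have h1 := fib_card h (fib_hf_full hs)
  have h2 := ker_card h
  have h3 : Nat.card ρ.ker = m := by
    have h4 : 2 * hc k * Nat.card ρ.ker = 2 * hc k * m := by rw [← h2, hm]
    exact Nat.eq_of_mul_eq_mul_left (Nat.mul_pos (by norm_num) (fib_hc_pos k)) h4
  rw [← h3, ← h1, ← Set.ncard_coe_finset]
  congr 1
  ext g
  simp

theorem fib_pre {k : Fin 5} {ρ : G →* M2} (h : Typ c k ρ) (g : G) :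
    ρ g ∈ hf k ↔ ρ (g * c) ∉ hf k := by
  have := half_pre h g
  simpa using this

/-- The half system with given intersections with the fibres. -/
noncomputable def fibInv (c : G) (k : Fin 5) (ρ : G →* M2) (f : ∀ s ∈ hf k, Finset G) : Finset G := by
  classical
  exact univ.filter fun g => (∃ h : ρ g ∈ hf k, g ∈ f (ρ g) h) ∨
    (∃ h : ρ (g * c) ∈ hf k, g * c ∉ f (ρ (g * c)) h)

theorem mem_fibInv (k : Fin 5) (ρ : G →* M2) (f : ∀ s ∈ hf k, Finset G) (g : G) :
    g ∈ fibInv c k ρ f ↔ (∃ h : ρ g ∈ hf k, g ∈ f (ρ g) h) ∨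
    (∃ h : ρ (g * c) ∈ hf k, g * c ∉ f (ρ (g * c)) h) := by
  classical
  simp [fibInv]

theorem fibInv_pos {k : Fin 5} {ρ : G →* M2} (h : Typ c k ρ) (f : ∀ s ∈ hf k, Finset G) {g : G}
    (hg : ρ g ∈ hf k) : g ∈ fibInv c k ρ f ↔ g ∈ f (ρ g) hg := by
  have h2 := (fib_pre h g).1 hg
  rw [mem_fibInv]
  constructor
  · rintro (⟨_, h3⟩ | ⟨h3, _⟩)
    · exact h3
    · exact absurd h3 h2
  · intro h3
    exact Or.inl ⟨hg, h3⟩

theorem fibInv_neg {k : Fin 5} {ρ : G →* M2} (h : Typ c k ρ) (f : ∀ s ∈ hf k, Finset G) {g : G}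
    (hg : ρ (g * c) ∈ hf k) : g ∈ fibInv c k ρ f ↔ g * c ∉ f (ρ (g * c)) hg := by
  have h2 : ρ g ∉ hf k := fun h3 => (fib_pre h g).1 h3 hg
  rw [mem_fibInv]
  constructor
  · rintro (⟨h3, _⟩ | ⟨_, h3⟩)
    · exact absurd h3 h2
    · exact h3
  · intro h3
    exact Or.inr ⟨hg, h3⟩

theorem fibInv_half {k : Fin 5} {ρ : G →* M2} (h : Typ c k ρ) (hc2 : c * c = 1)
    (f : ∀ s ∈ hf k, Finset G) : IsHf c (fibInv c k ρ f) := by
  intro g
  by_cases hg : ρ g ∈ hf k
  · rw [fibInv_pos h f hg]
    have h1 : g * c * c = g := by rw [mul_assoc, hc2, mul_one]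
    have h2 : ρ (g * c * c) ∈ hf k := by rw [h1]; exact hg
    rw [fibInv_neg h f h2, not_not]
    have : ∀ (x : G) (hx : x = g) (hx2 : ρ x ∈ hf k), (x ∈ f (ρ x) hx2 ↔ g ∈ f (ρ g) hg) := by
      rintro x rfl hx2
      exact Iff.rfl
    exact (this _ h1 h2).symm
  · have h2 : ρ (g * c) ∈ hf k := by
      by_contra h3
      exact hg ((fib_pre h g).2 h3)
    rw [fibInv_neg h f h2, fibInv_pos h f h2]

/-- PROOF. `A ↦ A ∩ T`, `T = {g | ρ g ∈ hf k}`, is a bijection of the half systems with the subsets of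
`T` (`half_pre`; the inverse maps `B` to `B ∪ (T \ B) * c`), and `T` is the disjoint union of the fibres
over the `s ∈ hf k`, which have `m` elements (`fib_card`, `ker_card`; `m > 0` since `G` is not empty and
`hc k > 0`).  A subset of `T` is the same as a family of subsets of the fibres, and the number of
subsets of a fibre with `j s` elements is `m.choose (j s)` (`card_powersetCard`). -/
theorem fib {k : Fin 5} {ρ : G →* M2} (h : Typ c k ρ) (hc2 : c * c = 1) {m : ℕ}
    (hm : Fintype.card G = 2 * hc k * m) (j : M2 → ℕ) :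
    {A : Finset G | IsHf c A ∧ ∀ s ∈ hf k, (A.filter fun g => ρ g = s).card = j s}.ncard
      = ∏ s ∈ hf k, m.choose (j s) := by
  classical
  have key : {A : Finset G | IsHf c A ∧ ∀ s ∈ hf k, (A.filter fun g => ρ g = s).card = j s}.ncard
      = ((((hf k).pi fun s => powersetCard (j s) (univ.filter fun g : G => ρ g = s)) :
        Finset (∀ s ∈ hf k, Finset G)) : Set (∀ s ∈ hf k, Finset G)).ncard := by
    refine Set.ncard_congr (fun A _ => fun s _ => A.filter fun g => ρ g = s) ?_ ?_ ?_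
    · rintro A ⟨hA, hA2⟩
      rw [Finset.mem_coe, Finset.mem_pi]
      intro s hs
      rw [Finset.mem_powersetCard]
      refine ⟨?_, hA2 s hs⟩
      intro g hg
      rw [Finset.mem_filter] at hg ⊢
      exact ⟨Finset.mem_univ _, hg.2⟩
    · rintro A B ⟨hA, _⟩ ⟨hB, _⟩ hAB
      have h1 : ∀ g, ρ g ∈ hf k → (g ∈ A ↔ g ∈ B) := by
        intro g hg
        have h2 := congrFun (congrFun hAB (ρ g)) hg
        have h3 : g ∈ (A.filter fun x => ρ x = ρ g) ↔ g ∈ (B.filter fun x => ρ x = ρ g) := by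
          rw [h2]
        simpa using h3
      ext g
      by_cases hg : ρ g ∈ hf k
      · exact h1 g hg
      · have h2 : ρ (g * c) ∈ hf k := by
          by_contra h3
          exact hg ((fib_pre h g).2 h3)
        rw [hA g, hB g, h1 _ h2]
    · intro f hf'
      rw [Finset.mem_coe, Finset.mem_pi] at hf'
      have h1 : ∀ s (hs : s ∈ hf k), ((fibInv c k ρ f).filter fun g => ρ g = s) = f s hs := by
        intro s hs
        have h2 := (Finset.mem_powersetCard.1 (hf' s hs)).1
        ext g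
        rw [Finset.mem_filter]
        constructor
        · rintro ⟨h3, rfl⟩
          exact (fibInv_pos h f hs).1 h3
        · intro h3
          have h4 := h2 h3
          rw [Finset.mem_filter] at h4
          obtain ⟨_, h4⟩ := h4
          subst h4
          exact ⟨(fibInv_pos h f hs).2 h3, rfl⟩
      refine ⟨fibInv c k ρ f, ⟨fibInv_half h hc2 f, ?_⟩, ?_⟩
      · intro s hs
        rw [h1 s hs]
        exact (Finset.mem_powersetCard.1 (hf' s hs)).2
      · funext s hs
        exact h1 s hs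
  rw [key, Set.ncard_coe_finset, Finset.card_pi]
  refine Finset.prod_congr rfl fun s hs => ?_
  rw [Finset.card_powersetCard, fib_size h hm hs]

end Pool.MP43e44c.GL
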