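import Pool.Agent.H.MP_43e44c_ag.GL.Fib

/-!
Degenerate half systems from prescribed sums over the fibres.
-/

set_option autoImplicit false

open Finset

namespace Pool.MP43e44c.GL

variable {G : Type*} [Group G] [Fintype G] [DecidableEq G] {c : G}

theorem Fib2_hc_pos (k : Fin 5) : 0 < hc k := by
  revert k; decide

theorem Fib2_ker {k : Fin 5} {ρ : G →* M2} (h : Typ c k ρ) {m : ℕ}
    (hm : Fintype.card G = 2 * hc k * m) : Nat.card ρ.ker = m := by
  have h1 := ker_card h
  rw [hm] at h1
  have h2 : 0 < 2 * hc k := by have := Fib2_hc_pos k; omega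
  exact (Nat.eq_of_mul_eq_mul_left h2 h1).symm

theorem Fib2_fibre {k : Fin 5} {ρ : G →* M2} (h : Typ c k ρ) {m : ℕ}
    (hm : Fintype.card G = 2 * hc k * m) {s : M2} (hs : s ∈ full k) :
    (univ.filter fun g => ρ g = s).card = m := by
  have h1 := fib_card h hs
  rw [Fib2_ker h hm] at h1
  rw [← h1, ← Set.ncard_coe_finset]
  congr 1
  ext g
  simp

theorem Fib2_c {k : Fin 5} {ρ : G →* M2} (h : Typ c k ρ) (g : G) : ρ (g * c) = - ρ g := by
  rw [map_mul, h.odd, mul_neg, mul_one]

theorem Fib2_two {k : Fin 5} {ρ : G →* M2} (h : Typ c k ρ) (hc2 : c * c = 1) {m : ℕ}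
    (hm : Fintype.card G = 2 * hc k * m) {A : Finset G} (hA : IsHf c A) {s : M2}
    (hs : s ∈ full k) :
    (A.filter fun g => ρ g = s).card + (A.filter fun g => ρ g = -s).card = m := by
  have h1 : (A.filter fun g => ρ g = -s).card
      = ((univ.filter fun g => ρ g = s).filter fun g => g ∉ A).card := by
    refine Finset.card_bij' (fun g _ => g * c) (fun g _ => g * c) ?_ ?_ ?_ ?_
    · intro g hg
      rw [mem_filter] at hg
      simp only [mem_filter, mem_univ, true_and]
      exact ⟨by rw [Fib2_c h, hg.2, neg_neg], (hA g).1 hg.1⟩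
    · intro g hg
      simp only [mem_filter, mem_univ, true_and] at hg
      rw [mem_filter]
      refine ⟨?_, by rw [Fib2_c h, hg.1]⟩
      by_contra h2
      exact hg.2 ((hA g).2 h2)
    · intro g _
      rw [mul_assoc, hc2, mul_one]
    · intro g _
      rw [mul_assoc, hc2, mul_one]
  have h2 : (A.filter fun g => ρ g = s).card
      = ((univ.filter fun g => ρ g = s).filter fun g => g ∈ A).card := by
    congr 1
    ext g
    simp only [mem_filter, mem_univ, true_and]
    tauto
  rw [h1, h2, Finset.card_filter_add_card_filter_not]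
  exact Fib2_fibre h hm hs

/-- `∑ g ∈ A, ρ g = ∑ s ∈ full k, #{g ∈ A | ρ g = s} • s`, and for `s ∈ hf k` the number of the `g ∈ A`
with `ρ g = - s` is `m - j s` (right multiplication by `c` maps the elements of the fibre over `s` which
are not in `A` to the elements of `A` in the fibre over `- s`). -/
theorem fib_sum {k : Fin 5} {ρ : G →* M2} (h : Typ c k ρ) (hc2 : c * c = 1) {m : ℕ}
    (hm : Fintype.card G = 2 * hc k * m) {A : Finset G} (hA : IsHf c A) {j : M2 → ℕ}
    (hj : ∀ s ∈ hf k, (A.filter fun g => ρ g = s).card = j s) :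
    ∑ g ∈ A, ρ g = ∑ s ∈ hf k, (2 * (j s : ℤ) - m) • s := by
  have h1 : ∑ g ∈ A, ρ g
      = ∑ s ∈ full k, ((A.filter fun g => ρ g = s).card : ℤ) • s := by
    rw [← Finset.sum_fiberwise_of_maps_to (t := full k) (g := fun g => ρ g) (fun g _ => h.mem g)]
    refine Finset.sum_congr rfl fun s _ => ?_
    rw [Finset.sum_congr rfl (g := fun _ => s) (fun g hg => (mem_filter.1 hg).2),
      Finset.sum_const, natCast_zsmul]
  have hdisj : Disjoint (hf k) ((hf k).image fun s => -s) := by
    rw [Finset.disjoint_left]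
    intro s hs hs'
    obtain ⟨u, hu, rfl⟩ := mem_image.1 hs'
    exact hf_neg k u hu hs
  rw [h1, full, Finset.sum_union hdisj, Finset.sum_image (fun a _ b _ hab => neg_injective hab),
    ← Finset.sum_add_distrib]
  refine Finset.sum_congr rfl fun s hs => ?_
  have h2 := Fib2_two h hc2 hm hA (s := s) (mem_union_left _ hs)
  rw [hj s hs] at h2
  rw [hj s hs]
  have h3 : ((A.filter fun g => ρ g = -s).card : ℤ) = m - j s := by
    have := congrArg (Nat.cast : ℕ → ℤ) h2
    push_cast at this
    linarith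
  rw [h3, smul_neg, ← sub_eq_add_neg, ← sub_smul]
  congr 1
  ring

/-- Sum over a finite set `X` of functions `j` (different on `hf k`): the events of `fib` are disjoint,
and contained in `Ev c ρ` by `fib_sum`. -/
theorem fib_low {k : Fin 5} {ρ : G →* M2} (h : Typ c k ρ) (hc2 : c * c = 1) {m : ℕ}
    (hm : Fintype.card G = 2 * hc k * m) (X : Finset (M2 → ℕ))
    (hX : ∀ j ∈ X, (∑ s ∈ hf k, (2 * (j s : ℤ) - m) • s).det = 0)
    (hX' : ∀ j ∈ X, ∀ j' ∈ X, (∀ s ∈ hf k, j s = j' s) → j = j') :
    ∑ j ∈ X, ∏ s ∈ hf k, m.choose (j s) ≤ (Ev c ρ).card := by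
  classical
  let F : (M2 → ℕ) → Finset (Finset G) := fun j =>
    univ.filter fun A => IsHf c A ∧ ∀ s ∈ hf k, (A.filter fun g => ρ g = s).card = j s
  have hF : ∀ j A, A ∈ F j ↔ IsHf c A ∧ ∀ s ∈ hf k, (A.filter fun g => ρ g = s).card = j s := by
    intro j A
    simp only [F, mem_filter, mem_univ, true_and]
  have h1 : ∀ j, ∏ s ∈ hf k, m.choose (j s) = (F j).card := by
    intro j
    rw [← fib h hc2 hm j, ← Set.ncard_coe_finset]
    congr 1
    ext A
    rw [Finset.mem_coe, hF]
    rfl
  rw [Finset.sum_congr rfl (fun j _ => h1 j), ← Finset.card_biUnion]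
  · apply Finset.card_le_card
    intro A hA
    obtain ⟨j, hj, hA⟩ := mem_biUnion.1 hA
    rw [hF] at hA
    unfold Ev
    simp only [mem_filter, mem_univ, true_and]
    refine ⟨hA.1, ?_⟩
    rw [fib_sum h hc2 hm hA.1 hA.2]
    exact hX j hj
  · intro j hj j' hj' hne
    change Disjoint (F j) (F j')
    rw [Finset.disjoint_left]
    intro A hA hA'
    rw [hF] at hA hA'
    exact hne (hX' j hj j' hj' fun s hs => (hA.2 s hs).symm.trans (hA'.2 s hs))

end Pool.MP43e44c.GL
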