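import Pool.Agent.H.MP_43e44c_ag.GL.Kin

/-!
Galois CM subfields of degree 2, 4, 6, 8, 12 and odd representations.
-/

set_option autoImplicit false

open NumberField Finset Module

namespace Pool.MP43e44c.GL

/-- The group is cyclic of order 2, 4, 6 or dihedral of order 8, 12. -/
def GTyp (k : Fin 5) (Γ : Type*) [Group Γ] : Prop :=
  match k with
  | 0 => IsCyclic Γ ∧ Nat.card Γ = 2
  | 1 => IsCyclic Γ ∧ Nat.card Γ = 4
  | 2 => IsCyclic Γ ∧ Nat.card Γ = 6
  | 3 => Nonempty (Γ ≃* DihedralGroup 4)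
  | 4 => Nonempty (Γ ≃* DihedralGroup 6)

/-- The Galois subfields of type `k` which are not real. -/
def GSub (K : Type*) [Field K] [NumberField K] (k : Fin 5) : Set (IntermediateField ℚ K) :=
  {F | IsGalois ℚ F ∧ (∃ x ∈ F, ∃ φ : K →+* ℂ, (φ x).im ≠ 0) ∧ GTyp k (F ≃ₐ[ℚ] F)}

/-- transfer along an isomorphism -/
theorem fldA_transfer {k : Fin 5} {Γ A : Type*} [Group Γ] [Group A] (e : Γ ≃* A)
    (h : ∃ τ : A →* M2, Function.Injective τ ∧ (∀ g, τ g ∈ full k) ∧ (∀ s ∈ full k, ∃ g, τ g = s) ∧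
      ∀ z : A, z ≠ 1 → z * z = 1 → (∀ g, z * g = g * z) → τ z = -1) :
    ∃ τ : Γ →* M2, Function.Injective τ ∧ (∀ g, τ g ∈ full k) ∧ (∀ s ∈ full k, ∃ g, τ g = s) ∧
      ∀ z : Γ, z ≠ 1 → z * z = 1 → (∀ g, z * g = g * z) → τ z = -1 := by
  obtain ⟨τ, h1, h2, h3, h4⟩ := h
  refine ⟨τ.comp e.toMonoidHom, h1.comp e.injective, fun g => h2 _, fun s hs => ?_, ?_⟩
  · obtain ⟨a, ha⟩ := h3 s hs
    refine ⟨e.symm a, ?_⟩
    change τ (e (e.symm a)) = s
    rw [e.apply_symm_apply, ha]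
  · intro z hz hzz hc
    change τ (e z) = -1
    refine h4 (e z) ?_ ?_ ?_
    · intro h0
      apply hz
      rw [← e.map_one] at h0
      exact e.injective h0
    · rw [← map_mul, hzz, map_one]
    · intro g
      have h5 := congrArg e (hc (e.symm g))
      rw [map_mul, map_mul, e.apply_symm_apply] at h5
      exact h5

/-- the model of a cyclic group -/
def fldA_cyc (N : ℕ) (c : M2) (i : Multiplicative (ZMod N)) : M2 := c ^ (Multiplicative.toAdd i).val

/-- the model of a dihedral group -/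
def fldA_dih (N : ℕ) (t : ℤ) : DihedralGroup N → M2
  | DihedralGroup.r i => rot t ^ i.val
  | DihedralGroup.sr i => ref t * rot t ^ i.val

theorem fldA_two : ∃ τ : Multiplicative (ZMod 2) →* M2, Function.Injective τ ∧
    (∀ g, τ g ∈ full 0) ∧ (∀ s ∈ full 0, ∃ g, τ g = s) ∧
      ∀ z : Multiplicative (ZMod 2), z ≠ 1 → z * z = 1 → (∀ g, z * g = g * z) → τ z = -1 := by
  refine ⟨⟨⟨fldA_cyc 2 (-1), by decide⟩, by decide⟩, ?_, ?_, ?_, ?_⟩
  · change ∀ a b : Multiplicative (ZMod 2), fldA_cyc 2 (-1) a = fldA_cyc 2 (-1) b → a = b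
    decide
  · change ∀ g : Multiplicative (ZMod 2), fldA_cyc 2 (-1) g ∈ full 0
    decide
  · change ∀ s ∈ full 0, ∃ g : Multiplicative (ZMod 2), fldA_cyc 2 (-1) g = s
    decide
  · change ∀ z : Multiplicative (ZMod 2), z ≠ 1 → z * z = 1 → (∀ g, z * g = g * z) →
      fldA_cyc 2 (-1) z = -1
    decide

theorem fldA_four : ∃ τ : Multiplicative (ZMod 4) →* M2, Function.Injective τ ∧
    (∀ g, τ g ∈ full 1) ∧ (∀ s ∈ full 1, ∃ g, τ g = s) ∧
      ∀ z : Multiplicative (ZMod 4), z ≠ 1 → z * z = 1 → (∀ g, z * g = g * z) → τ z = -1 := by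
  refine ⟨⟨⟨fldA_cyc 4 (rot 0), by decide⟩, by decide⟩, ?_, ?_, ?_, ?_⟩
  · change ∀ a b : Multiplicative (ZMod 4), fldA_cyc 4 (rot 0) a = fldA_cyc 4 (rot 0) b → a = b
    decide
  · change ∀ g : Multiplicative (ZMod 4), fldA_cyc 4 (rot 0) g ∈ full 1
    decide
  · change ∀ s ∈ full 1, ∃ g : Multiplicative (ZMod 4), fldA_cyc 4 (rot 0) g = s
    decide
  · change ∀ z : Multiplicative (ZMod 4), z ≠ 1 → z * z = 1 → (∀ g, z * g = g * z) →
      fldA_cyc 4 (rot 0) z = -1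
    decide

theorem fldA_six : ∃ τ : Multiplicative (ZMod 6) →* M2, Function.Injective τ ∧
    (∀ g, τ g ∈ full 2) ∧ (∀ s ∈ full 2, ∃ g, τ g = s) ∧
      ∀ z : Multiplicative (ZMod 6), z ≠ 1 → z * z = 1 → (∀ g, z * g = g * z) → τ z = -1 := by
  refine ⟨⟨⟨fldA_cyc 6 (rot 1), by decide⟩, by decide⟩, ?_, ?_, ?_, ?_⟩
  · change ∀ a b : Multiplicative (ZMod 6), fldA_cyc 6 (rot 1) a = fldA_cyc 6 (rot 1) b → a = b
    decide
  · change ∀ g : Multiplicative (ZMod 6), fldA_cyc 6 (rot 1) g ∈ full 2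
    decide
  · change ∀ s ∈ full 2, ∃ g : Multiplicative (ZMod 6), fldA_cyc 6 (rot 1) g = s
    decide
  · change ∀ z : Multiplicative (ZMod 6), z ≠ 1 → z * z = 1 → (∀ g, z * g = g * z) →
      fldA_cyc 6 (rot 1) z = -1
    decide

theorem fldA_d4 : ∃ τ : DihedralGroup 4 →* M2, Function.Injective τ ∧
    (∀ g, τ g ∈ full 3) ∧ (∀ s ∈ full 3, ∃ g, τ g = s) ∧
      ∀ z : DihedralGroup 4, z ≠ 1 → z * z = 1 → (∀ g, z * g = g * z) → τ z = -1 := by
  refine ⟨⟨⟨fldA_dih 4 0, by decide⟩, by decide⟩, ?_, ?_, ?_, ?_⟩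
  · change ∀ a b : DihedralGroup 4, fldA_dih 4 0 a = fldA_dih 4 0 b → a = b
    decide
  · change ∀ g : DihedralGroup 4, fldA_dih 4 0 g ∈ full 3
    decide
  · change ∀ s ∈ full 3, ∃ g : DihedralGroup 4, fldA_dih 4 0 g = s
    decide
  · change ∀ z : DihedralGroup 4, z ≠ 1 → z * z = 1 → (∀ g, z * g = g * z) → fldA_dih 4 0 z = -1
    decide

theorem fldA_d6 : ∃ τ : DihedralGroup 6 →* M2, Function.Injective τ ∧
    (∀ g, τ g ∈ full 4) ∧ (∀ s ∈ full 4, ∃ g, τ g = s) ∧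
      ∀ z : DihedralGroup 6, z ≠ 1 → z * z = 1 → (∀ g, z * g = g * z) → τ z = -1 := by
  refine ⟨⟨⟨fldA_dih 6 1, by decide⟩, by decide⟩, ?_, ?_, ?_, ?_⟩
  · change ∀ a b : DihedralGroup 6, fldA_dih 6 1 a = fldA_dih 6 1 b → a = b
    decide
  · change ∀ g : DihedralGroup 6, fldA_dih 6 1 g ∈ full 4
    decide
  · change ∀ s ∈ full 4, ∃ g : DihedralGroup 6, fldA_dih 6 1 g = s
    decide
  · change ∀ z : DihedralGroup 6, z ≠ 1 → z * z = 1 → (∀ g, z * g = g * z) → fldA_dih 6 1 z = -1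
    decide

/-- PROOF. In the cyclic case map a generator to `-1`, `rot 0`, `rot 1`.  In the dihedral case
(`m = 4`, `t = 0` or `m = 6`, `t = 1`) let `r i ↦ (rot t) ^ i.val`, `sr i ↦ ref t * (rot t) ^ i.val`; the
relations `(rot t) ^ m = 1`, `ref t * ref t = 1`, `rot t * ref t * rot t = ref t`.  For all of these finite
statements `decide` works (define the map on the finite group and check multiplicativity by `decide`).
An element `z ≠ 1` of the center with `z * z = 1` is mapped to `-1`: in the cyclic groups the involution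
is unique, in the dihedral groups of order 8 and 12 the center has two elements. -/
theorem exists_model {k : Fin 5} {Γ : Type*} [Group Γ] (h : GTyp k Γ) :
    ∃ τ : Γ →* M2, Function.Injective τ ∧ (∀ g, τ g ∈ full k) ∧ (∀ s ∈ full k, ∃ g, τ g = s) ∧
      ∀ z : Γ, z ≠ 1 → z * z = 1 → (∀ g, z * g = g * z) → τ z = -1 := by
  match k, h with
  | 0, h =>
    obtain ⟨hcyc, hcard⟩ : IsCyclic Γ ∧ Nat.card Γ = 2 := h
    have e := zmodCyclicMulEquiv hcyc
    rw [hcard] at e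
    exact fldA_transfer e.symm fldA_two
  | 1, h =>
    obtain ⟨hcyc, hcard⟩ : IsCyclic Γ ∧ Nat.card Γ = 4 := h
    have e := zmodCyclicMulEquiv hcyc
    rw [hcard] at e
    exact fldA_transfer e.symm fldA_four
  | 2, h =>
    obtain ⟨hcyc, hcard⟩ : IsCyclic Γ ∧ Nat.card Γ = 6 := h
    have e := zmodCyclicMulEquiv hcyc
    rw [hcard] at e
    exact fldA_transfer e.symm fldA_six
  | 3, h =>
    obtain ⟨e⟩ : Nonempty (Γ ≃* DihedralGroup 4) := h
    exact fldA_transfer e fldA_d4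
  | 4, h =>
    obtain ⟨e⟩ : Nonempty (Γ ≃* DihedralGroup 6) := h
    exact fldA_transfer e fldA_d6

end Pool.MP43e44c.GL
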