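import Pool.Agent.H.MP_43e44c_ag.GL.FldA
import Pool.Agent.H.MP_43e44c_ag.GL.ExA

/-!
Galois CM subfields of degree 2, 4, 6, 8, 12 and odd representations.
-/

set_option autoImplicit false

open NumberField Finset Module

namespace Pool.MP43e44c.GL

variable {K : Type*} [Field K] [NumberField K] [IsCMField K] [IsGalois ℚ K]

/-- PROOF. `F` is Galois, so `N = F.fixingSubgroup` is normal with quotient isomorphic to the group of
`F` (`IsGalois.normalAutEquivQuotient` as in `exists_char_field`, AB/Dict.lean, or the restriction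
homomorphism `AlgEquiv.restrictNormalHom F`, surjective with kernel `F.fixingSubgroup`).  Compose it with
`τ` of `exists_model`.  The image of `c` is central, of square one, and not `1`, because `F` is not real. -/
theorem exists_rep {k : Fin 5} {F : IntermediateField ℚ K} (hF : F ∈ GSub K k)
    {c : K ≃ₐ[ℚ] K} (hc2 : c * c = 1) (hcen : ∀ g, c * g = g * c)
    (hc' : ∀ ψ : K →+* ℂ, ComplexEmbedding.conjugate ψ = ψ.comp (c : K →+* K)) :
    ∃ ρ : (K ≃ₐ[ℚ] K) →* M2, Typ c k ρ ∧ ρ.ker = F.fixingSubgroup := by
  obtain ⟨hgal, ⟨x, hx, ψ, hψ⟩, htyp⟩ := hF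
  have : IsGalois ℚ F := hgal
  obtain ⟨τ, hinj, hmem, hsurj, hz⟩ := exists_model htyp
  have hrs : Function.Surjective (AlgEquiv.restrictNormalHom (F := ℚ) (K₁ := K) F) :=
    AlgEquiv.restrictNormalHom_surjective K
  have hker : (AlgEquiv.restrictNormalHom (F := ℚ) (K₁ := K) F).ker = F.fixingSubgroup :=
    by
      ext g
      rw [MonoidHom.mem_ker, IntermediateField.mem_fixingSubgroup_iff]
      constructor
      · intro h y hy
        have h1 := AlgEquiv.restrictNormal_commutes g F ⟨y, hy⟩
        have h2 : g.restrictNormal F = 1 := h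
        rw [h2] at h1
        exact h1.symm
      · intro h
        ext y
        have h1 := AlgEquiv.restrictNormal_commutes g F y
        exact h1.trans (h y y.2)
  have hcN : c ∉ F.fixingSubgroup := by
    intro h2
    rw [IntermediateField.mem_fixingSubgroup_iff] at h2
    apply hψ
    rw [← Complex.conj_eq_iff_im]
    have h3 : ψ (c x) = (ComplexEmbedding.conjugate ψ) x := by rw [hc' ψ]; rfl
    have h4 : c x = x := h2 x hx
    rw [h4] at h3
    exact h3.symm
  refine ⟨τ.comp (AlgEquiv.restrictNormalHom F), ⟨?_, fun g => hmem _, ?_⟩, ?_⟩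
  · rw [MonoidHom.comp_apply]
    apply hz
    · intro h
      apply hcN
      rw [← hker, MonoidHom.mem_ker]
      exact h
    · rw [← map_mul, hc2, map_one]
    · intro g
      obtain ⟨g', rfl⟩ := hrs g
      rw [← map_mul, hcen, map_mul]
  · intro s hs
    obtain ⟨g, hg⟩ := hsurj s hs
    obtain ⟨g', rfl⟩ := hrs g
    exact ⟨g', hg⟩
  · rw [← hker]
    ext g
    rw [MonoidHom.mem_ker, MonoidHom.mem_ker, MonoidHom.comp_apply]
    constructor
    · intro h
      apply hinj
      rw [h, map_one]
    · intro h
      rw [h, map_one]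

end Pool.MP43e44c.GL
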