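import Pool.Agent.H.MP_43e44c_ag.GL.Def

/-!
Finite facts about the matrix groups of type `C₂`, `C₄`, `C₆`, `D₄`, `D₆`.
-/

set_option autoImplicit false

open Finset

namespace Pool.MP43e44c.GL

/-- The inverse. -/
def iv (s : M2) : M2 := (s 0 0 * s 1 1 - s 0 1 * s 1 0) • !![s 1 1, - s 0 1; - s 1 0, s 0 0]

theorem iv_mem (k : Fin 5) : ∀ s ∈ full k, iv s ∈ full k := by
  revert k; decide

theorem mul_iv (k : Fin 5) : ∀ s ∈ full k, s * iv s = 1 := by
  revert k; decide

set_option maxRecDepth 100000 in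
theorem avg (k : Fin 5) : ∀ s ∈ full k,
    ∑ u ∈ full k, (u * ((s - 1) * iv s) * iv u - u * (s - 1) * iv u)
      = (2 * (hc k : ℤ) * (2 - (s 0 0 + s 1 1))) • (1 : M2) := by
  revert k; decide

theorem tr_ne (k : Fin 5) : ∀ s ∈ full k, s ≠ 1 → 2 * (hc k : ℤ) * (2 - (s 0 0 + s 1 1)) ≠ 0 := by
  revert k; decide

/-- The entries which are used as coordinates. -/
def coo : Fin 5 → Finset (Fin 2 × Fin 2)
  | 0 => {(0, 0)}
  | 1 => {(0, 0), (1, 0)}
  | 2 => {(0, 0), (1, 0)}
  | 3 => univ
  | 4 => univ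

/-- Any additive functional which kills the two-sided ideal generated by `s - 1` vanishes. -/
theorem simple (k : Fin 5) {s : M2} (hs : s ∈ full k) (h1 : s ≠ 1) (L : M2 →+ ℚ)
    (h : ∀ u ∈ full k, ∀ v ∈ full k, L (u * (s - 1) * v) = 0) : ∀ m ∈ full k, L m = 0 := by
  intro m hm
  have hsum := avg k s hs
  have hN := tr_ne k s hs h1
  generalize 2 * (hc k : ℤ) * (2 - (s 0 0 + s 1 1)) = N at hsum hN
  have h2 : (N : ℚ) * L m = 0 := by
    have h3 : N • m = ∑ u ∈ full k, (u * (s - 1) * (iv s * iv u * m) - u * (s - 1) * (iv u * m)) := by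
      have h4 : N • m = (N • (1 : M2)) * m := by rw [smul_mul_assoc, one_mul]
      rw [h4, ← hsum, Finset.sum_mul]
      refine Finset.sum_congr rfl fun u _ => ?_
      noncomm_ring
    have h5 := congrArg L h3
    rw [map_zsmul, map_sum, zsmul_eq_mul] at h5
    rw [h5]
    refine Finset.sum_eq_zero fun u hu => ?_
    rw [map_sub, h u hu _ (mul_mem k _ (mul_mem k _ (iv_mem k s hs) _ (iv_mem k u hu)) _ hm),
      h u hu _ (mul_mem k _ (iv_mem k u hu) _ hm), sub_zero]
  rcases mul_eq_zero.1 h2 with h3 | h3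
  · exfalso
    apply hN
    exact_mod_cast h3
  · exact h3

/-- The coordinates are independent on the group. -/
theorem coo_indep (k : Fin 5) (l : Fin 2 × Fin 2 → ℚ)
    (h : ∀ m ∈ full k, ∑ p ∈ coo k, l p * (m p.1 p.2 : ℚ) = 0) : ∀ p ∈ coo k, l p = 0 := by
  have hh : ∀ m ∈ hf k, ∑ p ∈ coo k, l p * (m p.1 p.2 : ℚ) = 0 := fun m hm =>
    h m (mem_union_left _ hm)
  fin_cases k
  · have h0 := hh 1 (by decide)
    simp [coo] at h0
    intro p hp
    simp only [coo, mem_singleton] at hp
    rw [hp]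
    exact h0
  · have h0 := hh 1 (by decide)
    have h1 := hh (rot 0) (by decide)
    simp [coo] at h0
    simp [coo, rot] at h1
    intro p hp
    simp only [coo, mem_insert, mem_singleton] at hp
    rcases hp with rfl | rfl
    · exact h0
    · exact h1
  · have h0 := hh 1 (by decide)
    have h1 := hh (rot 1) (by decide)
    simp [coo] at h0
    simp [coo, rot] at h1
    intro p hp
    simp only [coo, mem_insert, mem_singleton] at hp
    rcases hp with rfl | rfl
    · exact h0
    · exact h1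
  · have h0 := hh 1 (by decide)
    have h1 := hh (rot 0) (by decide)
    have h2 := hh (ref 0) (by decide)
    have h3 := hh (ref 0 * rot 0) (by decide)
    simp [coo, Fintype.sum_prod_type, Fin.sum_univ_two] at h0
    simp [coo, rot, Fintype.sum_prod_type, Fin.sum_univ_two] at h1
    simp [coo, ref, Fintype.sum_prod_type, Fin.sum_univ_two] at h2
    simp [coo, ref, rot, Fintype.sum_prod_type, Fin.sum_univ_two] at h3
    rintro ⟨i, j⟩ -
    fin_cases i <;> fin_cases j <;> simp <;> linarith
  · have h0 := hh 1 (by decide)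
    have h1 := hh (rot 1) (by decide)
    have h2 := hh (ref 1) (by decide)
    have h3 := hh (ref 1 * rot 1) (by decide)
    simp [coo, Fintype.sum_prod_type, Fin.sum_univ_two] at h0
    simp [coo, rot, Fintype.sum_prod_type, Fin.sum_univ_two] at h1
    simp [coo, ref, Fintype.sum_prod_type, Fin.sum_univ_two] at h2
    simp [coo, ref, rot, Fintype.sum_prod_type, Fin.sum_univ_two] at h3
    rintro ⟨i, j⟩ -
    fin_cases i <;> fin_cases j <;> simp <;> linarith

end Pool.MP43e44c.GL
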