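import Pool.Agent.H.MP_43e44c_ag.GL.LowA
import Pool.Agent.H.MP_43e44c_ag.GL.Fib2
import Pool.Agent.H.MP_43e44c_ag.GL.CopB

/-!
Lower bounds for the number of degenerate half systems: type `3`.
-/

set_option autoImplicit false

open Finset

namespace Pool.MP43e44c.GL

theorem low2_sum (f : M2 → M2) :
    ∑ s ∈ hf 3, f s = f 1 + f (rot 0) + f (ref 0) + f (ref 0 * rot 0) := by
  show ∑ s ∈ ({1, rot 0, ref 0, ref 0 * rot 0} : Finset M2), f s = _
  rw [Finset.sum_insert (by decide), Finset.sum_insert (by decide),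
    Finset.sum_insert (by decide), Finset.sum_singleton]
  abel

theorem low2_det {a b a' b' : ℤ} (h : a ^ 2 + b ^ 2 = a' ^ 2 + b' ^ 2) :
    (a • (1 : M2) + b • rot 0 + a' • ref 0 + b' • (ref 0 * rot 0)).det = 0 := by
  rw [Matrix.det_fin_two, Matrix.one_fin_two]
  simp [rot, ref]
  linear_combination h

/-- The prescribed coordinates. -/
def low2_L (q : ℕ × ℕ × ℕ × ℕ) (s : M2) : ℤ :=
  if s = 1 then (q.1 : ℤ) * q.2.2.1 + q.2.1 * q.2.2.2
  else if s = rot 0 then (q.2.1 : ℤ) * q.2.2.1 - q.1 * q.2.2.2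
  else if s = ref 0 then (q.2.1 : ℤ) * q.2.2.2 - q.1 * q.2.2.1
  else (q.1 : ℤ) * q.2.2.2 + q.2.1 * q.2.2.1

/-- The prescribed numbers of elements. -/
def low2_J (m : ℕ) (q : ℕ × ℕ × ℕ × ℕ) (s : M2) : ℕ :=
  if s ∈ hf 3 then ((m + low2_L q s) / 2).toNat else 0

theorem low2_L1 (q : ℕ × ℕ × ℕ × ℕ) :
    low2_L q 1 = (q.1 : ℤ) * q.2.2.1 + q.2.1 * q.2.2.2 := by
  rw [low2_L, if_pos rfl]

theorem low2_L2 (q : ℕ × ℕ × ℕ × ℕ) :
    low2_L q (rot 0) = (q.2.1 : ℤ) * q.2.2.1 - q.1 * q.2.2.2 := by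
  rw [low2_L, if_neg (by decide), if_pos rfl]

theorem low2_L3 (q : ℕ × ℕ × ℕ × ℕ) :
    low2_L q (ref 0) = (q.2.1 : ℤ) * q.2.2.2 - q.1 * q.2.2.1 := by
  rw [low2_L, if_neg (by decide), if_neg (by decide), if_pos rfl]

theorem low2_L4 (q : ℕ × ℕ × ℕ × ℕ) :
    low2_L q (ref 0 * rot 0) = (q.1 : ℤ) * q.2.2.2 + q.2.1 * q.2.2.1 := by
  rw [low2_L, if_neg (by decide), if_neg (by decide), if_neg (by decide)]

/-- The prescribed coordinates are small, and congruent to `m` modulo `2`. -/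
theorem low2_bd {R m : ℕ} {q : ℕ × ℕ × ℕ × ℕ} (hq : q ∈ quad R m) {s : M2} (hs : s ∈ hf 3) :
    |low2_L q s| ≤ 2 * R ∧ Even ((m : ℤ) + low2_L q s) := by
  obtain ⟨g, h, x, y⟩ := q
  rw [quad, mem_filter] at hq
  obtain ⟨-, -, hxy, hg, hh, h1, h2⟩ := hq
  simp only at hxy hg hh h1 h2
  have a1 : g * x ≤ R := le_trans (Nat.mul_le_mul_left _ (le_max_left _ _)) h1
  have a2 : g * y ≤ R := le_trans (Nat.mul_le_mul_left _ (le_max_right _ _)) h1
  have a3 : h * x ≤ R := le_trans (Nat.mul_le_mul_left _ (le_max_left _ _)) h2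
  have a4 : h * y ≤ R := le_trans (Nat.mul_le_mul_left _ (le_max_right _ _)) h2
  have b1 : (g : ℤ) * x ≤ R := by exact_mod_cast a1
  have b2 : (g : ℤ) * y ≤ R := by exact_mod_cast a2
  have b3 : (h : ℤ) * x ≤ R := by exact_mod_cast a3
  have b4 : (h : ℤ) * y ≤ R := by exact_mod_cast a4
  have p1 : (0 : ℤ) ≤ (g : ℤ) * x := by positivity
  have p2 : (0 : ℤ) ≤ (g : ℤ) * y := by positivity
  have p3 : (0 : ℤ) ≤ (h : ℤ) * x := by positivity
  have p4 : (0 : ℤ) ≤ (h : ℤ) * y := by positivity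
  have e1 : Even (g : ℤ) ↔ Even (m : ℤ) := by
    rw [Int.even_iff, Int.even_iff]
    omega
  have e2 : Even (h : ℤ) ↔ Even (m : ℤ) := by
    rw [Int.even_iff, Int.even_iff]
    omega
  have e3 : Even (x : ℤ) ↔ ¬ Even (y : ℤ) := by
    rw [Nat.odd_iff] at hxy
    rw [Int.even_iff, Int.even_iff]
    omega
  have hs' : s = 1 ∨ s = rot 0 ∨ s = ref 0 ∨ s = ref 0 * rot 0 := by
    have h5 : s ∈ ({1, rot 0, ref 0, ref 0 * rot 0} : Finset M2) := hs
    simpa only [mem_insert, mem_singleton] using h5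
  rcases hs' with rfl | rfl | rfl | rfl
  · rw [low2_L1]
    refine ⟨?_, ?_⟩
    · rw [abs_le]
      constructor <;> simp only <;> linarith
    · simp only [Int.even_add, Int.even_mul, e1, e2]
      tauto
  · rw [low2_L2]
    refine ⟨?_, ?_⟩
    · rw [abs_le]
      constructor <;> simp only <;> linarith
    · simp only [Int.even_add, Int.even_sub, Int.even_mul, e1, e2]
      tauto
  · rw [low2_L3]
    refine ⟨?_, ?_⟩
    · rw [abs_le]
      constructor <;> simp only <;> linarith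
    · simp only [Int.even_add, Int.even_sub, Int.even_mul, e1, e2]
      tauto
  · rw [low2_L4]
    refine ⟨?_, ?_⟩
    · rw [abs_le]
      constructor <;> simp only <;> linarith
    · simp only [Int.even_add, Int.even_mul, e1, e2]
      tauto

theorem low2_J_eq {R m : ℕ} (hR : 2 * R ≤ m) {q : ℕ × ℕ × ℕ × ℕ} (hq : q ∈ quad R m) {s : M2}
    (hs : s ∈ hf 3) : 2 * (low2_J m q s : ℤ) - m = low2_L q s := by
  obtain ⟨h1, h2⟩ := low2_bd hq hs
  obtain ⟨t, ht⟩ := h2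
  have h3 : -(2 * (R : ℤ)) ≤ low2_L q s := (abs_le.1 h1).1
  have h4 : (2 * (R : ℤ)) ≤ m := by exact_mod_cast hR
  rw [low2_J, if_pos hs, Int.toNat_of_nonneg (by omega)]
  omega

theorem low2_inj {R m : ℕ} (hR : 2 * R ≤ m) {q q' : ℕ × ℕ × ℕ × ℕ} (hq : q ∈ quad R m)
    (hq' : q' ∈ quad R m) (hJ : low2_J m q = low2_J m q') : q = q' := by
  have key : ∀ s ∈ hf 3, low2_L q s = low2_L q' s := by
    intro s hs
    rw [← low2_J_eq hR hq hs, ← low2_J_eq hR hq' hs, hJ]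
  have k1 := key 1 (by decide)
  have k2 := key (rot 0) (by decide)
  have k3 := key (ref 0) (by decide)
  have k4 := key (ref 0 * rot 0) (by decide)
  rw [low2_L1, low2_L1] at k1
  rw [low2_L2, low2_L2] at k2
  rw [low2_L3, low2_L3] at k3
  rw [low2_L4, low2_L4] at k4
  obtain ⟨g, h, x, y⟩ := q
  obtain ⟨g', h', x', y'⟩ := q'
  simp only at k1 k2 k3 k4
  have e1 : (g : ℤ) * x = g' * x' := by linarith
  have e2 : (g : ℤ) * y = g' * y' := by linarith
  have e3 : (h : ℤ) * x = h' * x' := by linarith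
  obtain ⟨rfl, rfl, rfl, rfl⟩ := quad_inj hq hq' (by exact_mod_cast e1) (by exact_mod_cast e2)
    (by exact_mod_cast e3)
  rfl

/-- PROOF. `n = 4 m`.  For a quadruple `(g, h, x, y) ∈ quad R m`, `R = ⌊√m / 4⌋`, let
`a = g x + h y`, `b = h x - g y`, `a' = h y - g x`, `b' = g y + h x`: all congruent to `m` modulo `2`
(`x + y` is odd), of absolute value at most `2 R ≤ √m / 2`, and `a ^ 2 + b ^ 2 = a' ^ 2 + b' ^ 2`, which is
the vanishing of the determinant of `a + b rot 0 + ref 0 (a' + b' rot 0)`.  Let `2 j - m = a, b, a', b'` at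
`1, rot 0, ref 0, ref 0 * rot 0` (and `j = 0` elsewhere).  Different quadruples give different `j`
(`quad_inj`).  By `fib_low`, `choose_low` and `quad_card` the number is at least
`c R ^ 2 log R (c 2 ^ m / √m) ^ 4`. -/
theorem ev_low_three.{u} : ∃ c₀ : ℝ, 0 < c₀ ∧ ∃ n₀ : ℕ,
    ∀ {G : Type u} [Group G] [Fintype G] {c : G} {ρ : G →* M2}, c * c = 1 → Typ c 3 ρ →
      ∀ n : ℕ, Fintype.card G = 2 * n → n₀ ≤ n →
      c₀ * al 3 n * 2 ^ n ≤ ((Ev c ρ).card : ℝ) := by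
  obtain ⟨c1, hc1, m0, h1⟩ := choose_low
  obtain ⟨c2, hc2, R0, h2⟩ := quad_card
  refine ⟨c1 ^ 4 * c2 / 128, by positivity, 4 * (m0 + 64 * (R0 + 1) ^ 2 + 4096), ?_⟩
  intro G _ _ c ρ hcc hT n hn hn0
  classical
  have hk := ker_card hT
  generalize Nat.card ρ.ker = m at hk
  have hnm : n = 4 * m := by
    have h3 : hc 3 = 4 := rfl
    rw [h3] at hk
    omega
  have hm0 : m0 + 64 * (R0 + 1) ^ 2 + 4096 ≤ m := by
    rw [hnm] at hn0
    exact Nat.le_of_mul_le_mul_left hn0 (by norm_num)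
  have hmm : m0 ≤ m :=
    le_trans (le_trans (Nat.le_add_right m0 _) (Nat.le_add_right _ _)) hm0
  have hm4096 : 4096 ≤ m := le_trans (Nat.le_add_left 4096 _) hm0
  have hmR : 64 * (R0 + 1) ^ 2 ≤ m :=
    le_trans (le_trans (Nat.le_add_left _ m0) (Nat.le_add_right _ _)) hm0
  have hmpos : (0 : ℝ) < m := by
    have : 0 < m := lt_of_lt_of_le (by norm_num) hm4096
    exact_mod_cast this
  have hsq : √(m : ℝ) ^ 2 = m := Real.sq_sqrt hmpos.le
  have hs64 : 64 ≤ √(m : ℝ) := by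
    rw [Real.le_sqrt' (by norm_num)]
    have : (4096 : ℝ) ≤ m := by exact_mod_cast hm4096
    linarith
  have hsR : 8 * ((R0 : ℝ) + 1) ≤ √(m : ℝ) := by
    rw [Real.le_sqrt' (by positivity)]
    have : (64 * (R0 + 1) ^ 2 : ℝ) ≤ m := by exact_mod_cast hmR
    linarith
  obtain ⟨R, hRdef⟩ : ∃ R : ℕ, R = ⌊√(m : ℝ) / 4⌋₊ := ⟨_, rfl⟩
  have hRle : (R : ℝ) ≤ √(m : ℝ) / 4 := by
    rw [hRdef]
    exact Nat.floor_le (by positivity)
  have hRge : √(m : ℝ) / 8 ≤ R := by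
    have h3 := Nat.lt_floor_add_one (√(m : ℝ) / 4)
    rw [← hRdef] at h3
    linarith
  have hR0 : R0 ≤ R := by
    have h3 : (R0 : ℝ) ≤ R := by linarith
    exact_mod_cast h3
  have hR2m : 2 * R ≤ m := by
    have h3 : (2 * R : ℝ) ≤ m := by nlinarith
    exact_mod_cast h3
  have hm : Fintype.card G = 2 * hc 3 * m := hk
  -- the choices
  have hcard : ((quad R m).image (low2_J m)).card = (quad R m).card := by
    apply card_image_of_injOn
    intro q hq q' hq' hqq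
    exact low2_inj hR2m hq hq' hqq
  have hfl := fib_low hT hcc hm ((quad R m).image (low2_J m)) (by
      intro j hj
      obtain ⟨q, hq, rfl⟩ := mem_image.1 hj
      have h3 : ∑ s ∈ hf 3, (2 * (low2_J m q s : ℤ) - m) • s = ∑ s ∈ hf 3, low2_L q s • s :=
        sum_congr rfl fun s hs => by rw [low2_J_eq hR2m hq hs]
      rw [h3, low2_sum]
      apply low2_det
      rw [low2_L1, low2_L2, low2_L3, low2_L4]
      ring) (by
      intro j hj j' hj' hjj
      obtain ⟨q, hq, rfl⟩ := mem_image.1 hj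
      obtain ⟨q', hq', rfl⟩ := mem_image.1 hj'
      funext s
      by_cases hs : s ∈ hf 3
      · exact hjj s hs
      · rw [low2_J, low2_J, if_neg hs, if_neg hs])
  have hterm : ∀ j ∈ (quad R m).image (low2_J m),
      (c1 / √(m : ℝ) * 2 ^ m) ^ 4 ≤ ((∏ s ∈ hf 3, m.choose (j s) : ℕ) : ℝ) := by
    intro j hj
    obtain ⟨q, hq, rfl⟩ := mem_image.1 hj
    have h3 : (c1 / √(m : ℝ) * 2 ^ m) ^ 4 = ∏ s ∈ hf 3, (c1 / √(m : ℝ) * 2 ^ m) := by
      rw [prod_const, hf_card]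
      rfl
    rw [h3, Nat.cast_prod]
    refine prod_le_prod (fun s _ => by positivity) fun s hs => ?_
    apply h1 m _ hmm
    have h4 : (2 * (low2_J m q s : ℝ) - m) = ((low2_L q s : ℤ) : ℝ) := by
      rw [← low2_J_eq hR2m hq hs]
      push_cast
      ring
    have h5 := (low2_bd hq hs).1
    have h6 : ((|low2_L q s| : ℤ) : ℝ) ≤ 2 * R := by exact_mod_cast h5
    rw [h4, ← Int.cast_abs]
    linarith
  have hsum : ((quad R m).card : ℝ) * (c1 / √(m : ℝ) * 2 ^ m) ^ 4 ≤ ((Ev c ρ).card : ℝ) := by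
    have h3 : ((∑ j ∈ (quad R m).image (low2_J m), ∏ s ∈ hf 3, m.choose (j s) : ℕ) : ℝ) ≤
        ((Ev c ρ).card : ℝ) := by exact_mod_cast hfl
    refine le_trans ?_ h3
    rw [Nat.cast_sum, ← hcard, ← nsmul_eq_mul]
    exact card_nsmul_le_sum _ _ _ hterm
  refine le_trans ?_ hsum
  -- numerical estimates
  have hQ := h2 R m hR0
  have hRsq : (m : ℝ) / 64 ≤ (R : ℝ) ^ 2 := by
    have h3 : (0 : ℝ) ≤ √(m : ℝ) / 8 := by positivity
    calc (m : ℝ) / 64 = (√(m : ℝ) / 8) ^ 2 := by rw [div_pow, hsq]; norm_num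
      _ ≤ (R : ℝ) ^ 2 := pow_le_pow_left₀ h3 hRge 2
  have hlogR : Real.log m / 4 ≤ Real.log R := by
    have h3 : √(√(m : ℝ)) ≤ √(m : ℝ) / 8 := by
      rw [Real.sqrt_le_left (by positivity)]
      nlinarith
    have h4 : Real.log (√(√(m : ℝ))) = Real.log m / 4 := by
      rw [Real.log_sqrt (by positivity), Real.log_sqrt hmpos.le]
      ring
    rw [← h4]
    exact Real.log_le_log (by positivity) (h3.trans hRge)
  have hlogm : 0 ≤ Real.log m := Real.log_nonneg (by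
    have : 1 ≤ m := le_trans (by norm_num) hm4096
    exact_mod_cast this)
  have hlogn : Real.log n ≤ 2 * Real.log m := by
    have h3 : (n : ℝ) ≤ (m : ℝ) ^ 2 := by
      rw [hnm]
      push_cast
      have : (4096 : ℝ) ≤ m := by exact_mod_cast hm4096
      nlinarith
    have h4 : 0 < (n : ℝ) := by
      rw [hnm]
      push_cast
      positivity
    calc Real.log n ≤ Real.log ((m : ℝ) ^ 2) := Real.log_le_log h4 h3
      _ = 2 * Real.log m := by rw [Real.log_pow]; norm_num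
  have hal : al 3 n = Real.log n / n := rfl
  have hpow : (c1 / √(m : ℝ) * 2 ^ m) ^ 4 = c1 ^ 4 / (m : ℝ) ^ 2 * 2 ^ n := by
    rw [mul_pow, div_pow, ← pow_mul, hnm, mul_comm m 4]
    congr 2
    calc √(m : ℝ) ^ 4 = (√(m : ℝ) ^ 2) ^ 2 := by ring
      _ = (m : ℝ) ^ 2 := by rw [hsq]
  have hX : c2 * ((m : ℝ) / 64) * (Real.log m / 4) ≤ ((quad R m).card : ℝ) := by
    refine le_trans ?_ hQ
    refine mul_le_mul (mul_le_mul_of_nonneg_left hRsq hc2.le) hlogR (by positivity) (by positivity)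
  rw [hpow, hal]
  have hnr : (n : ℝ) = 4 * m := by rw [hnm]; push_cast; ring
  calc c1 ^ 4 * c2 / 128 * (Real.log n / n) * 2 ^ n
      ≤ c1 ^ 4 * c2 / 128 * (2 * Real.log m / n) * 2 ^ n := by
        refine mul_le_mul_of_nonneg_right (mul_le_mul_of_nonneg_left ?_ (by positivity))
          (by positivity)
        exact div_le_div_of_nonneg_right hlogn (by positivity)
    _ = c2 * ((m : ℝ) / 64) * (Real.log m / 4) * (c1 ^ 4 / (m : ℝ) ^ 2 * 2 ^ n) := by
        rw [hnr]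
        field_simp
        ring
    _ ≤ ((quad R m).card : ℝ) * (c1 ^ 4 / (m : ℝ) ^ 2 * 2 ^ n) :=
        mul_le_mul_of_nonneg_right hX (by positivity)

end Pool.MP43e44c.GL
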