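import Pool.Agent.H.MP_43e44c_ag.GL.LowA
import Pool.Agent.H.MP_43e44c_ag.GL.Fib2
import Pool.Agent.H.MP_43e44c_ag.GL.CopB

/-!
Lower bounds for the number of degenerate half systems: type `4`.
-/

set_option autoImplicit false

open Finset

namespace Pool.MP43e44c.GL

theorem low3_sum {β : Type*} [AddCommMonoid β] (f : M2 → β) :
    ∑ s ∈ hf 4, f s = f 1 + (f (rot 1) + (f (rot 1 * rot 1) + (f (ref 1) + (f (ref 1 * rot 1) +
      f (ref 1 * (rot 1 * rot 1)))))) := by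
  have h : hf 4 = {1, rot 1, rot 1 * rot 1, ref 1, ref 1 * rot 1, ref 1 * (rot 1 * rot 1)} := rfl
  rw [h, Finset.sum_insert (by decide), Finset.sum_insert (by decide), Finset.sum_insert (by decide),
    Finset.sum_insert (by decide), Finset.sum_insert (by decide), Finset.sum_singleton]

theorem low3_det (c1 c2 c3 c4 c5 c6 : ℤ) :
    (c1 • (1 : M2) + (c2 • rot 1 + (c3 • (rot 1 * rot 1) + (c4 • ref 1 + (c5 • (ref 1 * rot 1) +
      c6 • (ref 1 * (rot 1 * rot 1))))))).det =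
    (c1 - c3) ^ 2 + (c1 - c3) * (c2 + c3) + (c2 + c3) ^ 2 - (c4 - c6) ^ 2
      - (c4 - c6) * (c5 + c6) - (c5 + c6) ^ 2 := by
  have h1 : (1 : M2) = !![1, 0; 0, 1] := Matrix.one_fin_two
  rw [Matrix.det_fin_two, h1]
  simp only [rot, ref, Matrix.add_apply, Matrix.smul_apply, Matrix.mul_fin_two, Matrix.of_apply,
    Matrix.cons_val, smul_eq_mul]
  ring

/-- A function with given values on the six elements of the half. -/
def low3j (a1 a2 a3 a4 a5 a6 : ℕ) (s : M2) : ℕ :=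
  if s = 1 then a1 else if s = rot 1 then a2 else if s = rot 1 * rot 1 then a3 else
    if s = ref 1 then a4 else if s = ref 1 * rot 1 then a5 else
      if s = ref 1 * (rot 1 * rot 1) then a6 else 0

section

variable (a1 a2 a3 a4 a5 a6 : ℕ)

theorem low3j_1 : low3j a1 a2 a3 a4 a5 a6 1 = a1 := by
  rw [low3j, if_pos rfl]

theorem low3j_2 : low3j a1 a2 a3 a4 a5 a6 (rot 1) = a2 := by
  rw [low3j, if_neg (by decide), if_pos rfl]

theorem low3j_3 : low3j a1 a2 a3 a4 a5 a6 (rot 1 * rot 1) = a3 := by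
  rw [low3j, if_neg (by decide), if_neg (by decide), if_pos rfl]

theorem low3j_4 : low3j a1 a2 a3 a4 a5 a6 (ref 1) = a4 := by
  rw [low3j, if_neg (by decide), if_neg (by decide), if_neg (by decide), if_pos rfl]

theorem low3j_5 : low3j a1 a2 a3 a4 a5 a6 (ref 1 * rot 1) = a5 := by
  rw [low3j, if_neg (by decide), if_neg (by decide), if_neg (by decide), if_neg (by decide),
    if_pos rfl]

theorem low3j_6 : low3j a1 a2 a3 a4 a5 a6 (ref 1 * (rot 1 * rot 1)) = a6 := by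
  rw [low3j, if_neg (by decide), if_neg (by decide), if_neg (by decide), if_neg (by decide),
    if_neg (by decide), if_pos rfl]

end

/-- The number of elements from the signed sum. -/
def low3a (m : ℕ) (z : ℤ) : ℕ := (((m : ℤ) + z) / 2).toNat

theorem low3a_eq {m : ℕ} {z : ℤ} (h1 : ((m : ℤ) + z) % 2 = 0) (h2 : |z| ≤ m) :
    2 * (low3a m z : ℤ) = m + z := by
  have h3 := (abs_le.1 h2).1
  unfold low3a
  rw [Int.toNat_of_nonneg (by omega)]
  omega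

/-- The numbers with the parity of `m`. -/
def low3e (m : ℕ) (i : ℕ) : ℤ := ((m % 2 : ℕ) : ℤ) + 2 * i

/-- The six signed sums. -/
def low3c (m : ℕ) (d : (ℕ × ℕ × ℕ × ℕ) × ℕ × ℕ) : Fin 6 → ℤ :=
  ![3 * (d.1.1 * d.1.2.2.1 : ℕ) + (d.1.2.1 * d.1.2.2.2 : ℕ) - (d.1.2.1 * d.1.2.2.1 : ℕ)
      + (d.1.1 * d.1.2.2.2 : ℕ) + low3e m d.2.1,
    2 * (d.1.2.1 * d.1.2.2.1 : ℕ) - 2 * (d.1.1 * d.1.2.2.2 : ℕ) - low3e m d.2.1,
    low3e m d.2.1,
    (d.1.2.1 * d.1.2.2.2 : ℕ) - 3 * (d.1.1 * d.1.2.2.1 : ℕ) - (d.1.1 * d.1.2.2.2 : ℕ)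
      - (d.1.2.1 * d.1.2.2.1 : ℕ) + low3e m d.2.2,
    2 * (d.1.1 * d.1.2.2.2 : ℕ) + 2 * (d.1.2.1 * d.1.2.2.1 : ℕ) - low3e m d.2.2,
    low3e m d.2.2]

/-- The function of the data. -/
def low3J (m : ℕ) (d : (ℕ × ℕ × ℕ × ℕ) × ℕ × ℕ) : M2 → ℕ :=
  low3j (low3a m (low3c m d 0)) (low3a m (low3c m d 1)) (low3a m (low3c m d 2))
    (low3a m (low3c m d 3)) (low3a m (low3c m d 4)) (low3a m (low3c m d 5))

theorem low3c_det (m : ℕ) (d : (ℕ × ℕ × ℕ × ℕ) × ℕ × ℕ) :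
    (low3c m d 0 • (1 : M2) + (low3c m d 1 • rot 1 + (low3c m d 2 • (rot 1 * rot 1) +
      (low3c m d 3 • ref 1 + (low3c m d 4 • (ref 1 * rot 1) +
      low3c m d 5 • (ref 1 * (rot 1 * rot 1))))))).det = 0 := by
  rw [low3_det]
  simp only [low3c, Matrix.cons_val]
  push_cast
  ring

theorem low3c_par {R m : ℕ} {d : (ℕ × ℕ × ℕ × ℕ) × ℕ × ℕ} (hd : d.1 ∈ quad R 0) (t : Fin 6) :
    ((m : ℤ) + low3c m d t) % 2 = 0 := by
  obtain ⟨⟨g, h, x, y⟩, i, i'⟩ := d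
  simp only [quad, Finset.mem_filter] at hd
  obtain ⟨-, -, -, hg, hh, -, -⟩ := hd
  have h1 : (g * x) % 2 = 0 := by rw [Nat.mul_mod, hg]; simp
  have h2 : (g * y) % 2 = 0 := by rw [Nat.mul_mod, hg]; simp
  have h3 : (h * x) % 2 = 0 := by rw [Nat.mul_mod, hh]; simp
  have h4 : (h * y) % 2 = 0 := by rw [Nat.mul_mod, hh]; simp
  have key : ∀ A B C D : ℕ, A % 2 = 0 → B % 2 = 0 → C % 2 = 0 → D % 2 = 0 → 
      ∀ z : ℤ, z ∈ [3 * (A : ℤ) + D - C + B + low3e m i, 2 * C - 2 * B - low3e m i, low3e m i,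
        D - 3 * A - B - C + low3e m i', 2 * B + 2 * C - low3e m i', low3e m i'] → 
        ((m : ℤ) + z) % 2 = 0 := by
    intro A B C D hA hB hC hD z hz
    simp only [List.mem_cons, List.not_mem_nil, or_false, low3e] at hz
    omega
  refine key (g * x) (g * y) (h * x) (h * y) h1 h2 h3 h4 _ ?_
  fin_cases t <;> simp [low3c]

theorem low3c_abs {R m : ℕ} {d : (ℕ × ℕ × ℕ × ℕ) × ℕ × ℕ} (hd : d.1 ∈ quad R 0) {K : ℕ}
    (hi : d.2.1 < K) (hi' : d.2.2 < K) (t : Fin 6) :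
    |low3c m d t| ≤ 6 * (R : ℤ) + 2 * K := by
  obtain ⟨⟨g, h, x, y⟩, i, i'⟩ := d
  simp only [quad, Finset.mem_filter] at hd
  obtain ⟨-, -, -, -, -, hg, hh⟩ := hd
  have h1 : g * x ≤ R := (Nat.mul_le_mul_left _ (le_max_left _ _)).trans hg
  have h2 : g * y ≤ R := (Nat.mul_le_mul_left _ (le_max_right _ _)).trans hg
  have h3 : h * x ≤ R := (Nat.mul_le_mul_left _ (le_max_left _ _)).trans hh
  have h4 : h * y ≤ R := (Nat.mul_le_mul_left _ (le_max_right _ _)).trans hh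
  simp only at hi hi'
  have key : ∀ A B C D : ℕ, A ≤ R → B ≤ R → C ≤ R → D ≤ R → 
      ∀ z : ℤ, z ∈ [3 * (A : ℤ) + D - C + B + low3e m i, 2 * C - 2 * B - low3e m i, low3e m i,
        D - 3 * A - B - C + low3e m i', 2 * B + 2 * C - low3e m i', low3e m i'] → 
        |z| ≤ 6 * (R : ℤ) + 2 * K := by
    intro A B C D hA hB hC hD z hz
    rw [abs_le]
    simp only [List.mem_cons, List.not_mem_nil, or_false, low3e] at hz
    omega
  refine key (g * x) (g * y) (h * x) (h * y) h1 h2 h3 h4 _ ?_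
  fin_cases t <;> simp [low3c]

theorem low3_inj {R m : ℕ} {d d' : (ℕ × ℕ × ℕ × ℕ) × ℕ × ℕ} (hd : d.1 ∈ quad R 0)
    (hd' : d'.1 ∈ quad R 0) (hall : ∀ t, low3c m d t = low3c m d' t) : d = d' := by
  obtain ⟨⟨g, h, x, y⟩, i, i'⟩ := d
  obtain ⟨⟨g', h', x', y'⟩, j, j'⟩ := d'
  have e0 := hall 0
  have e1 := hall 1
  have e2 := hall 2
  have e3 := hall 3
  have e4 := hall 4
  have e5 := hall 5
  simp only [low3c, Matrix.cons_val] at e0 e1 e2 e3 e4 e5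
  unfold low3e at e0 e1 e2 e3 e4 e5
  have hi : i = j := by omega
  have hi' : i' = j' := by omega
  have h1 : g * x = g' * x' := by
    generalize g * x = a1 at *
    generalize g * y = a2 at *
    generalize h * x = a3 at *
    generalize h * y = a4 at *
    generalize g' * x' = a5 at *
    generalize g' * y' = a6 at *
    generalize h' * x' = a7 at *
    generalize h' * y' = a8 at *
    omega
  have h2 : g * y = g' * y' := by
    generalize g * x = a1 at *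
    generalize g * y = a2 at *
    generalize h * x = a3 at *
    generalize h * y = a4 at *
    generalize g' * x' = a5 at *
    generalize g' * y' = a6 at *
    generalize h' * x' = a7 at *
    generalize h' * y' = a8 at *
    omega
  have h3 : h * x = h' * x' := by
    generalize g * x = a1 at *
    generalize g * y = a2 at *
    generalize h * x = a3 at *
    generalize h * y = a4 at *
    generalize g' * x' = a5 at *
    generalize g' * y' = a6 at *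
    generalize h' * x' = a7 at *
    generalize h' * y' = a8 at *
    omega
  obtain ⟨rfl, rfl, rfl, rfl⟩ := quad_inj hd hd' h1 h2 h3
  subst hi hi'
  rfl

theorem low3_val (m : ℕ) (d : (ℕ × ℕ × ℕ × ℕ) × ℕ × ℕ) :
    ∀ s ∈ hf 4, ∃ t, low3J m d s = low3a m (low3c m d t) := by
  intro s hs
  have h : hf 4 = {1, rot 1, rot 1 * rot 1, ref 1, ref 1 * rot 1, ref 1 * (rot 1 * rot 1)} := rfl
  rw [h] at hs
  simp only [Finset.mem_insert, Finset.mem_singleton] at hs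
  rcases hs with rfl | rfl | rfl | rfl | rfl | rfl
  · exact ⟨0, low3j_1 _ _ _ _ _ _⟩
  · exact ⟨1, low3j_2 _ _ _ _ _ _⟩
  · exact ⟨2, low3j_3 _ _ _ _ _ _⟩
  · exact ⟨3, low3j_4 _ _ _ _ _ _⟩
  · exact ⟨4, low3j_5 _ _ _ _ _ _⟩
  · exact ⟨5, low3j_6 _ _ _ _ _ _⟩

theorem low3_mem (t : Fin 6) : ∃ s ∈ hf 4, ∀ (m : ℕ) (d : (ℕ × ℕ × ℕ × ℕ) × ℕ × ℕ),
    low3J m d s = low3a m (low3c m d t) := by
  have h : hf 4 = {1, rot 1, rot 1 * rot 1, ref 1, ref 1 * rot 1, ref 1 * (rot 1 * rot 1)} := rfl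
  rw [h]
  fin_cases t
  · exact ⟨1, by simp, fun m d => low3j_1 _ _ _ _ _ _⟩
  · exact ⟨rot 1, by simp, fun m d => low3j_2 _ _ _ _ _ _⟩
  · exact ⟨rot 1 * rot 1, by simp, fun m d => low3j_3 _ _ _ _ _ _⟩
  · exact ⟨ref 1, by simp, fun m d => low3j_4 _ _ _ _ _ _⟩
  · exact ⟨ref 1 * rot 1, by simp, fun m d => low3j_5 _ _ _ _ _ _⟩
  · exact ⟨ref 1 * (rot 1 * rot 1), by simp, fun m d => low3j_6 _ _ _ _ _ _⟩

theorem low3_jsum {m : ℕ} {d : (ℕ × ℕ × ℕ × ℕ) × ℕ × ℕ}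
    (hd : ∀ t, 2 * (low3a m (low3c m d t) : ℤ) = m + low3c m d t) :
    (∑ s ∈ hf 4, (2 * (low3J m d s : ℤ) - m) • s).det = 0 := by
  rw [low3_sum (fun s : M2 => (2 * (low3J m d s : ℤ) - m) • s)]
  have e0 : (2 * (low3J m d 1 : ℤ) - m) = low3c m d 0 := by
    rw [low3J, low3j_1, hd]; ring
  have e1 : (2 * (low3J m d (rot 1) : ℤ) - m) = low3c m d 1 := by
    rw [low3J, low3j_2, hd]; ring
  have e2 : (2 * (low3J m d (rot 1 * rot 1) : ℤ) - m) = low3c m d 2 := by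
    rw [low3J, low3j_3, hd]; ring
  have e3 : (2 * (low3J m d (ref 1) : ℤ) - m) = low3c m d 3 := by
    rw [low3J, low3j_4, hd]; ring
  have e4 : (2 * (low3J m d (ref 1 * rot 1) : ℤ) - m) = low3c m d 4 := by
    rw [low3J, low3j_5, hd]; ring
  have e5 : (2 * (low3J m d (ref 1 * (rot 1 * rot 1)) : ℤ) - m) = low3c m d 5 := by
    rw [low3J, low3j_6, hd]; ring
  simp only [e0, e1, e2, e3, e4, e5]
  exact low3c_det m d

/-- The elementary inequality at the end. -/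
theorem low3_num {c c' : ℝ} (hc : 0 < c) (hc' : 0 < c') {m R K n : ℕ} (hn : n = 6 * m)
    (hm : 128 ^ 4 ≤ m) (hR : R = ⌊√(m : ℝ) / 64⌋₊) (hK : K = ⌊√(m : ℝ) / 16⌋₊) :
    c' * c ^ 6 / (128 ^ 2 * 32 ^ 2 * 4) * al 4 n * 2 ^ n ≤
      (c' * (R : ℝ) ^ 2 * Real.log R * (K : ℝ) ^ 2) * (c / √m * 2 ^ m) ^ 6 := by
  have hmR : (128 : ℝ) ^ 4 ≤ m := by exact_mod_cast hm
  have hm0 : (0 : ℝ) < m := lt_of_lt_of_le (by norm_num) hmR
  set M : ℝ := √(m : ℝ) with hM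
  have hM2 : M ^ 2 = m := Real.sq_sqrt hm0.le
  have hM0 : 0 ≤ M := Real.sqrt_nonneg _
  have hM1 : (128 : ℝ) ^ 2 ≤ M := by
    rw [hM]
    apply Real.le_sqrt_of_sq_le
    have h1 : ((128 : ℝ) ^ 2) ^ 2 = 128 ^ 4 := by norm_num
    rw [h1]
    exact hmR
  have hMpos : 0 < M := lt_of_lt_of_le (by norm_num) hM1
  have hR1 : M / 128 ≤ (R : ℝ) := by
    have h1 : M / 64 < (R : ℝ) + 1 := by rw [hR]; exact Nat.lt_floor_add_one _
    linarith
  have hK1 : M / 32 ≤ (K : ℝ) := by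
    have h1 : M / 16 < (K : ℝ) + 1 := by rw [hK]; exact Nat.lt_floor_add_one _
    linarith
  have hlogm : 0 ≤ Real.log m := Real.log_nonneg (by linarith)
  have hlogR : Real.log m / 4 ≤ Real.log R := by
    have h1 : √M ≤ M / 128 := by
      have h2 : √M ^ 2 = M := Real.sq_sqrt hM0
      have h3 : (128 : ℝ) ≤ √M := Real.le_sqrt_of_sq_le hM1
      rw [le_div_iff₀ (by norm_num)]
      nlinarith [Real.sqrt_nonneg M]
    have h2 : Real.log m / 4 = Real.log (√M) := by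
      rw [Real.log_sqrt hM0, hM, Real.log_sqrt hm0.le]
      ring
    rw [h2]
    exact Real.log_le_log (Real.sqrt_pos.2 hMpos) (h1.trans hR1)
  have hal : al 4 n ≤ Real.log m / M ^ 2 := by
    have h1 : al 4 n = Real.log n / n := rfl
    rw [h1, hn, hM2]
    push_cast
    rw [Real.log_mul (by norm_num) hm0.ne', div_le_div_iff₀ (by positivity) hm0]
    have h2 : Real.log 6 ≤ Real.log m := Real.log_le_log (by norm_num) (by linarith)
    nlinarith
  have hpow : (2 : ℝ) ^ n = (2 ^ m) ^ 6 := by rw [hn, mul_comm, pow_mul]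
  have h5 : c' * (M / 128) ^ 2 * (Real.log m / 4) * (M / 32) ^ 2 ≤
      c' * (R : ℝ) ^ 2 * Real.log R * (K : ℝ) ^ 2 := by
    have hRl : 0 ≤ Real.log R := (div_nonneg hlogm (by norm_num)).trans hlogR
    gcongr
  calc c' * c ^ 6 / (128 ^ 2 * 32 ^ 2 * 4) * al 4 n * 2 ^ n
      ≤ c' * c ^ 6 / (128 ^ 2 * 32 ^ 2 * 4) * (Real.log m / M ^ 2) * 2 ^ n := by gcongr
    _ = (c' * (M / 128) ^ 2 * (Real.log m / 4) * (M / 32) ^ 2) * (c / M * 2 ^ m) ^ 6 := by
        rw [hpow]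
        field_simp
    _ ≤ _ := by gcongr

/-- PROOF. `n = 6 m`.  The determinant of `u + v rot 1 + ref 1 (u' + v' rot 1)` is
`u ^ 2 + u v + v ^ 2 - u' ^ 2 - u' v' - v' ^ 2`.  For a quadruple `(g, h, x, y) ∈ quad R 0` (so `g, h` are even),
`R = ⌊√m / 64⌋`, let `v = 2 h x - 2 g y`, `v' = 2 g y + 2 h x`, `u = 3 g x + h y - h x + g y`,
`u' = h y - 3 g x - g y - h x`: even numbers with `2 u + v = 6 g x + 2 h y`, `2 u' + v' = 2 h y - 6 g x`, so
`(2 u + v) ^ 2 - (2 u' + v') ^ 2 = 48 g h x y = 3 (v' ^ 2 - v ^ 2)` and the determinant vanishes; all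
are at most `6 R` in absolute value.  For every integer `e ≡ m` modulo `2` with `|e| ≤ √m / 8` and
every `e'` of the same kind let `2 j - m = u + e, v - e, e` at `1, rot 1, rot 1 * rot 1` and
`u' + e', v' - e', e'` at `ref 1, ref 1 * rot 1, ref 1 * (rot 1 * rot 1)` (since
`rot 1 * rot 1 = rot 1 - 1`, the sum of the first three terms is
`(u + e - e) + (v - e + e) rot 1`; similarly for the others).  The absolute values are at most `√m / 2`.
Different data `(quadruple, e, e')` give different `j` (`e, e'` are read off, then `u, v, u', v'`, then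
`quad_inj`).  There are at least `√m / 16` numbers `e` for `m ≥ m₀`.  By `fib_low`, `choose_low`,
`quad_card` the number is at least `c R ^ 2 log R (√m / 16) ^ 2 (c 2 ^ m / √m) ^ 6`. -/
theorem ev_low_four.{u} : ∃ c₀ : ℝ, 0 < c₀ ∧ ∃ n₀ : ℕ,
    ∀ {G : Type u} [Group G] [Fintype G] {c : G} {ρ : G →* M2}, c * c = 1 → Typ c 4 ρ →
      ∀ n : ℕ, Fintype.card G = 2 * n → n₀ ≤ n →
      c₀ * al 4 n * 2 ^ n ≤ ((Ev c ρ).card : ℝ) := by
  classical
  obtain ⟨c, hcp, m₀, hch⟩ := choose_low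
  obtain ⟨c', hcp', R₀, hq⟩ := quad_card
  refine ⟨c' * c ^ 6 / (128 ^ 2 * 32 ^ 2 * 4), by positivity,
    6 * (m₀ + (64 * R₀) ^ 2 + 128 ^ 4), ?_⟩
  intro G _ _ z ρ hz2 hT n hn hn0
  have hk := ker_card hT
  have hhc : hc 4 = 6 := rfl
  obtain ⟨m, hm⟩ : ∃ m, m = Nat.card ρ.ker := ⟨_, rfl⟩
  rw [← hm, hhc] at hk
  have hnm : n = 6 * m := by omega
  have hmm : m₀ + (64 * R₀) ^ 2 + 128 ^ 4 ≤ m := by
    rw [hnm] at hn0
    exact Nat.le_of_mul_le_mul_left hn0 (by norm_num)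
  have hm0 : m₀ ≤ m :=
    le_trans (le_trans (Nat.le_add_right _ _) (Nat.le_add_right _ _)) hmm
  have hm1 : 128 ^ 4 ≤ m := le_trans (Nat.le_add_left _ _) hmm
  have hm2 : (64 * R₀) ^ 2 ≤ m :=
    le_trans (le_trans (Nat.le_add_left _ _) (Nat.le_add_right _ _)) hmm
  obtain ⟨R, hR⟩ : ∃ R, R = ⌊√(m : ℝ) / 64⌋₊ := ⟨_, rfl⟩
  obtain ⟨K, hK⟩ : ∃ K, K = ⌊√(m : ℝ) / 16⌋₊ := ⟨_, rfl⟩
  have hmR : (128 : ℝ) ^ 4 ≤ m := by
    have h1 : (((128 ^ 4 : ℕ)) : ℝ) ≤ (m : ℝ) := Nat.cast_le.2 hm1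
    rwa [Nat.cast_pow, Nat.cast_ofNat] at h1
  have hs0 : 0 ≤ √(m : ℝ) := Real.sqrt_nonneg _
  have hRR : R₀ ≤ R := by
    rw [hR]
    apply Nat.le_floor
    have h1 : (64 * (R₀ : ℝ)) ≤ √(m : ℝ) := by
      apply Real.le_sqrt_of_sq_le
      exact_mod_cast hm2
    linarith
  have hRle : (R : ℝ) ≤ √(m : ℝ) / 64 := by rw [hR]; exact Nat.floor_le (by positivity)
  have hKle : (K : ℝ) ≤ √(m : ℝ) / 16 := by rw [hK]; exact Nat.floor_le (by positivity)
  have hsm : √(m : ℝ) ≤ m := by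
    rw [Real.sqrt_le_left (by linarith)]
    nlinarith
  obtain ⟨D, hD⟩ : ∃ D, D = quad R 0 ×ˢ (range K ×ˢ range K) := ⟨_, rfl⟩
  have hD1 : ∀ d ∈ D, d.1 ∈ quad R 0 ∧ d.2.1 < K ∧ d.2.2 < K := by
    intro d hd
    rw [hD, Finset.mem_product, Finset.mem_product, Finset.mem_range, Finset.mem_range] at hd
    exact hd
  have hD2 : ∀ d ∈ D, ∀ t, |((low3c m d t : ℤ) : ℝ)| ≤ √(m : ℝ) / 2 := by
    intro d hd t
    obtain ⟨h1, h2, h3⟩ := hD1 d hd
    have h4 := low3c_abs (m := m) h1 h2 h3 t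
    have h5 : |((low3c m d t : ℤ) : ℝ)| ≤ 6 * (R : ℝ) + 2 * K := by exact_mod_cast h4
    linarith
  have hD3 : ∀ d ∈ D, ∀ t, 2 * (low3a m (low3c m d t) : ℤ) = m + low3c m d t := by
    intro d hd t
    apply low3a_eq (low3c_par (hD1 d hd).1 t)
    have h1 := hD2 d hd t
    have h2 : |((low3c m d t : ℤ) : ℝ)| ≤ (m : ℝ) := by linarith
    exact_mod_cast h2
  have hD4 : ∀ d ∈ D, ∀ d' ∈ D, (∀ s ∈ hf 4, low3J m d s = low3J m d' s) → d = d' := by
    intro d hd d' hd' h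
    apply low3_inj (m := m) (hD1 d hd).1 (hD1 d' hd').1
    intro t
    obtain ⟨s, hs, h1⟩ := low3_mem t
    have h2 := h s hs
    rw [h1, h1] at h2
    have h3 := hD3 d hd t
    have h4 := hD3 d' hd' t
    rw [h2] at h3
    linarith
  have hlow := fib_low hT hz2 (m := m) (by rw [hk, hhc]) (D.image (low3J m)) (by
    intro j hj
    obtain ⟨d, hd, rfl⟩ := Finset.mem_image.1 hj
    exact low3_jsum (hD3 d hd)) (by
    intro j hj j' hj' h
    obtain ⟨d, hd, rfl⟩ := Finset.mem_image.1 hj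
    obtain ⟨d', hd', rfl⟩ := Finset.mem_image.1 hj'
    rw [hD4 d hd d' hd' h])
  rw [Finset.sum_image (by
    intro d hd d' hd' h
    exact hD4 d hd d' hd' fun s _ => congrFun h s)] at hlow
  have hlowR : (∑ d ∈ D, ∏ s ∈ hf 4, (m.choose (low3J m d s) : ℝ)) ≤ ((Ev z ρ).card : ℝ) := by
    exact_mod_cast hlow
  refine le_trans (low3_num hcp hcp' hnm hm1 hR hK) (le_trans ?_ hlowR)
  have hterm : ∀ d ∈ D, (c / √m * 2 ^ m) ^ 6 ≤ ∏ s ∈ hf 4, (m.choose (low3J m d s) : ℝ) := by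
    intro d hd
    have h1 : (c / √m * 2 ^ m) ^ 6 = ∏ s ∈ hf 4, (c / √m * 2 ^ m) := by
      rw [Finset.prod_const, hf_card, hhc]
    rw [h1]
    apply Finset.prod_le_prod
    · intro s _
      positivity
    · intro s hs
      apply hch m _ hm0
      obtain ⟨t, ht⟩ := low3_val m d s hs
      rw [ht]
      have h2 := hD3 d hd t
      have h3 : 2 * ((low3a m (low3c m d t) : ℕ) : ℝ) - m = ((low3c m d t : ℤ) : ℝ) := by
        have h4 : 2 * ((low3a m (low3c m d t) : ℕ) : ℝ) = (m : ℝ) + ((low3c m d t : ℤ) : ℝ) := by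
          exact_mod_cast h2
        linarith
      rw [h3]
      exact hD2 d hd t
  calc c' * (R : ℝ) ^ 2 * Real.log R * (K : ℝ) ^ 2 * (c / √m * 2 ^ m) ^ 6
      ≤ ((quad R 0).card : ℝ) * (K : ℝ) ^ 2 * (c / √m * 2 ^ m) ^ 6 := by
        have := hq R 0 hRR
        gcongr
    _ = ∑ d ∈ D, (c / √m * 2 ^ m) ^ 6 := by
        rw [Finset.sum_const, hD, Finset.card_product, Finset.card_product, Finset.card_range,
          nsmul_eq_mul]
        push_cast
        ring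
    _ ≤ _ := Finset.sum_le_sum hterm

end Pool.MP43e44c.GL
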