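import Pool.Agent.H.MP_43e44c_ag.GL.LowA
import Pool.Agent.H.MP_43e44c_ag.GL.Fib2

/-!
Lower bounds for the number of degenerate half systems: types `0`, `1`, `2`.
-/

set_option autoImplicit false

open Finset

namespace Pool.MP43e44c.GL

/-- The balanced choice contributes, if the order of the kernel is even. -/
theorem lowB_one {c1 : ℝ} (hc1 : 0 < c1) {m0 : ℕ} (h1 : ∀ m k : ℕ, m0 ≤ m →
      |2 * (k : ℝ) - m| ≤ √m / 2 → c1 / √m * 2 ^ m ≤ (m.choose k : ℝ))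
    {G : Type*} [Group G] [Fintype G] {c : G} {ρ : G →* M2} (hcc : c * c = 1) {k : Fin 5}
    (hT : Typ c k ρ) {m : ℕ} (hm : Fintype.card G = 2 * hc k * m) (hm0 : m0 ≤ m) (h2 : 2 ∣ m) :
    (c1 / √(m : ℝ) * 2 ^ m) ^ (hc k) ≤ ((Ev c ρ).card : ℝ) := by
  classical
  obtain ⟨a, ha⟩ := h2
  have ha2 : m / 2 = a := by omega
  have h3 := fib_low hT hcc hm {fun _ => a} (by
      intro j hj
      rw [mem_singleton] at hj
      subst hj
      have h4 : ∑ s ∈ hf k, (2 * (a : ℤ) - m) • s = 0 := by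
        apply Finset.sum_eq_zero
        intro s _
        have h5 : 2 * (a : ℤ) - m = 0 := by
          rw [ha]; push_cast; ring
        rw [h5, zero_smul]
      rw [h4]
      exact Matrix.det_zero) (by
      intro j hj j' hj' _
      rw [mem_singleton] at hj hj'
      rw [hj, hj'])
  rw [sum_singleton, prod_const, hf_card] at h3
  have h4 : ((m.choose a ^ hc k : ℕ) : ℝ) ≤ ((Ev c ρ).card : ℝ) := by exact_mod_cast h3
  refine le_trans ?_ h4
  rw [Nat.cast_pow]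
  refine pow_le_pow_left₀ (by positivity) ?_ _
  apply h1 m a hm0
  have h5 : 2 * (a : ℝ) - m = 0 := by
    rw [ha]; push_cast; ring
  rw [h5, abs_zero]
  positivity

/-- The choices for type `2`. -/
def lowB_J (m i : ℕ) (s : M2) : ℕ := if s = rot 1 then m / 2 - i else (m + 1) / 2 + i

theorem lowB_sum {β : Type*} [AddCommMonoid β] (f : M2 → β) :
    ∑ s ∈ hf 2, f s = f 1 + (f (rot 1) + f (rot 1 * rot 1)) := by
  change ∑ s ∈ ({1, rot 1, rot 1 * rot 1} : Finset M2), f s = _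
  rw [sum_insert (by decide), sum_insert (by decide), sum_singleton]

theorem lowB_rot : (1 : M2) - rot 1 + rot 1 * rot 1 = 0 := by decide

theorem lowB_zero {m i : ℕ} (hi : i ≤ m / 2) :
    ∑ s ∈ hf 2, (2 * (lowB_J m i s : ℤ) - m) • s = 0 := by
  rw [lowB_sum]
  have e1 : lowB_J m i 1 = (m + 1) / 2 + i := by rw [lowB_J, if_neg (by decide)]
  have e2 : lowB_J m i (rot 1) = m / 2 - i := by rw [lowB_J, if_pos rfl]
  have e3 : lowB_J m i (rot 1 * rot 1) = (m + 1) / 2 + i := by rw [lowB_J, if_neg (by decide)]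
  rw [e1, e2, e3]
  obtain ⟨x, hx⟩ : ∃ x : ℤ, x = 2 * (((m + 1) / 2 + i : ℕ) : ℤ) - m := ⟨_, rfl⟩
  have hx2 : 2 * ((m / 2 - i : ℕ) : ℤ) - m = -x := by omega
  rw [hx2, ← hx]
  have h1 : x • (1 : M2) + (-x • rot 1 + x • (rot 1 * rot 1)) =
      x • ((1 : M2) - rot 1 + rot 1 * rot 1) := by
    rw [smul_add, smul_sub, neg_smul]
    abel
  rw [h1, lowB_rot, smul_zero]

theorem lowB_bd {m i : ℕ} (hi : i ≤ m / 2) (s : M2) :
    |2 * (lowB_J m i s : ℝ) - m| ≤ 1 + 2 * i := by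
  have h1 : |2 * (lowB_J m i s : ℤ) - m| ≤ 1 + 2 * i := by
    rw [lowB_J, abs_le]
    split_ifs <;> omega
  exact_mod_cast h1

theorem lowB_two {c1 : ℝ} (hc1 : 0 < c1) {m0 : ℕ} (h1 : ∀ m k : ℕ, m0 ≤ m →
      |2 * (k : ℝ) - m| ≤ √m / 2 → c1 / √m * 2 ^ m ≤ (m.choose k : ℝ))
    {G : Type*} [Group G] [Fintype G] {c : G} {ρ : G →* M2} (hcc : c * c = 1)
    (hT : Typ c 2 ρ) {m : ℕ} (hm : Fintype.card G = 2 * hc 2 * m) (hm0 : m0 ≤ m) (hm1 : 256 ≤ m) :
    √(m : ℝ) / 16 * (c1 / √(m : ℝ) * 2 ^ m) ^ 3 ≤ ((Ev c ρ).card : ℝ) := by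
  classical
  have hmpos : (0 : ℝ) < m := by
    have : 0 < m := by omega
    exact_mod_cast this
  have hsq : √(m : ℝ) ^ 2 = m := Real.sq_sqrt hmpos.le
  have hs16 : 16 ≤ √(m : ℝ) := by
    rw [Real.le_sqrt' (by norm_num)]
    have : (256 : ℝ) ≤ m := by exact_mod_cast hm1
    linarith
  obtain ⟨K, hK⟩ : ∃ K : ℕ, K = ⌊√(m : ℝ) / 8⌋₊ := ⟨_, rfl⟩
  have hKle : (K : ℝ) ≤ √(m : ℝ) / 8 := by
    rw [hK]
    exact Nat.floor_le (by positivity)
  have hKge : √(m : ℝ) / 16 ≤ K := by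
    have h3 := Nat.lt_floor_add_one (√(m : ℝ) / 8)
    rw [← hK] at h3
    linarith
  have hKm : 2 * K ≤ m := by
    have h3 : (2 * K : ℝ) ≤ m := by nlinarith
    exact_mod_cast h3
  have hlt : ∀ i ∈ range K, i ≤ m / 2 := by
    intro i hi
    rw [mem_range] at hi
    omega
  have hinj : ∀ i i' : ℕ, lowB_J m i 1 = lowB_J m i' 1 → i = i' := by
    intro i i' h
    rw [lowB_J, lowB_J, if_neg (by decide), if_neg (by decide)] at h
    omega
  have hcard : ((range K).image (lowB_J m)).card = K := by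
    rw [card_image_of_injOn, card_range]
    intro i _ i' _ h
    exact hinj i i' (congrFun h 1)
  have hfl := fib_low hT hcc hm ((range K).image (lowB_J m)) (by
      intro j hj
      obtain ⟨i, hi, rfl⟩ := mem_image.1 hj
      rw [lowB_zero (hlt i hi)]
      exact Matrix.det_zero) (by
      intro j hj j' hj' hjj
      obtain ⟨i, hi, rfl⟩ := mem_image.1 hj
      obtain ⟨i', hi', rfl⟩ := mem_image.1 hj'
      rw [hinj i i' (hjj 1 (by decide))])
  have hterm : ∀ j ∈ (range K).image (lowB_J m),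
      (c1 / √(m : ℝ) * 2 ^ m) ^ 3 ≤ ((∏ s ∈ hf 2, m.choose (j s) : ℕ) : ℝ) := by
    intro j hj
    obtain ⟨i, hi, rfl⟩ := mem_image.1 hj
    have h3 : (c1 / √(m : ℝ) * 2 ^ m) ^ 3 = ∏ s ∈ hf 2, (c1 / √(m : ℝ) * 2 ^ m) := by
      rw [prod_const, hf_card]
      rfl
    rw [h3, Nat.cast_prod]
    refine prod_le_prod (fun s _ => by positivity) fun s hs => ?_
    apply h1 m _ hm0
    refine (lowB_bd (hlt i hi) s).trans ?_
    have h4 : (i : ℝ) + 1 ≤ K := by
      have := mem_range.1 hi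
      exact_mod_cast this
    linarith
  have h3 : ((∑ j ∈ (range K).image (lowB_J m), ∏ s ∈ hf 2, m.choose (j s) : ℕ) : ℝ) ≤
      ((Ev c ρ).card : ℝ) := by exact_mod_cast hfl
  have h4 : (K : ℝ) * (c1 / √(m : ℝ) * 2 ^ m) ^ 3 ≤
      ((∑ j ∈ (range K).image (lowB_J m), ∏ s ∈ hf 2, m.choose (j s) : ℕ) : ℝ) := by
    rw [Nat.cast_sum, ← nsmul_eq_mul]
    have h5 := card_nsmul_le_sum _ _ _ hterm
    rw [hcard] at h5
    exact h5
  exact le_trans (le_trans (mul_le_mul_of_nonneg_right hKge (by positivity)) h4) h3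

/-- PROOF. `n = hc k * m` (`ker_card`).  Type `0`: `n = m` even, `fib_low` with the single function
`j = m / 2`; `choose_low`.  Type `1`: `n = 2 m`, `m` even, the single function `j = m / 2`.  Type `2`:
`n = 3 m`; for an integer `x ≡ m` modulo `2`, `|x| ≤ √m / 2`, let `2 j - m = x, -x, x` at
`1, rot 1, rot 1 * rot 1`; the sum is `x (1 - rot 1 + rot 1 * rot 1) = 0`; there are at least `√m / 4` such
`x` for `m ≥ m₀`, each contributes at least `(c 2 ^ m / √m) ^ 3`. -/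
theorem ev_low_abel.{u} (k : Fin 5) (hk : k ≤ 2) : ∃ c₀ : ℝ, 0 < c₀ ∧ ∃ n₀ : ℕ,
    ∀ {G : Type u} [Group G] [Fintype G] {c : G} {ρ : G →* M2}, c * c = 1 → Typ c k ρ →
      ∀ n : ℕ, Fintype.card G = 2 * n → n₀ ≤ n → (k = 0 → 2 ∣ n) → (k = 1 → 4 ∣ n) →
      c₀ * al k n * 2 ^ n ≤ ((Ev c ρ).card : ℝ) := by
  obtain ⟨c1, hc1, m0, h1⟩ := choose_low
  have hk3 : k = 0 ∨ k = 1 ∨ k = 2 := by
    revert hk; revert k; decide
  rcases hk3 with rfl | rfl | rfl
  · refine ⟨c1, hc1, m0, ?_⟩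
    intro G _ _ c ρ hcc hT n hn hn0 h2 _
    have hm : Fintype.card G = 2 * hc 0 * n := by
      have h3 : hc 0 = 1 := rfl
      rw [h3, hn]
    have h3 := lowB_one hc1 h1 hcc hT hm hn0 (h2 rfl)
    have h4 : hc 0 = 1 := rfl
    rw [h4, pow_one] at h3
    have hal : al 0 n = 1 / √(n : ℝ) := rfl
    rw [hal, mul_one_div]
    exact h3
  · refine ⟨2 * c1 ^ 2, by positivity, 2 * (m0 + 1), ?_⟩
    intro G _ _ c ρ hcc hT n hn hn0 _ h2
    obtain ⟨q, hq⟩ := h2 rfl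
    have hnm : n = 2 * (2 * q) := by omega
    have hm : Fintype.card G = 2 * hc 1 * (2 * q) := by
      have h3 : hc 1 = 2 := rfl
      rw [h3, hn, hnm]
      ring
    have h3 := lowB_one hc1 h1 hcc hT hm (by omega) ⟨q, rfl⟩
    have h4 : hc 1 = 2 := rfl
    rw [h4] at h3
    refine le_trans ?_ h3
    generalize 2 * q = m at *
    have hmpos : (0 : ℝ) < m := by
      have : 0 < m := by omega
      exact_mod_cast this
    have hsq : √(m : ℝ) ^ 2 = m := Real.sq_sqrt hmpos.le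
    have hal : al 1 n = 1 / (n : ℝ) := rfl
    have hnr : (n : ℝ) = 2 * m := by rw [hnm]; push_cast; ring
    rw [hal, hnr, mul_pow, div_pow, hsq, ← pow_mul, hnm, mul_comm m 2]
    apply le_of_eq
    field_simp
  · refine ⟨3 * c1 ^ 3 / 16, by positivity, 3 * (m0 + 256), ?_⟩
    intro G _ _ c ρ hcc hT n hn hn0 _ _
    have hk := ker_card hT
    generalize Nat.card ρ.ker = m at hk
    have h4 : hc 2 = 3 := rfl
    have hnm : n = 3 * m := by
      rw [h4] at hk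
      omega
    have h3 := lowB_two hc1 h1 hcc hT hk (by omega) (by omega)
    refine le_trans ?_ h3
    have hmpos : (0 : ℝ) < m := by
      have : 0 < m := by omega
      exact_mod_cast this
    have hspos : 0 < √(m : ℝ) := Real.sqrt_pos.2 hmpos
    have hsq : √(m : ℝ) ^ 2 = m := Real.sq_sqrt hmpos.le
    have hal : al 2 n = 1 / (n : ℝ) := rfl
    have hnr : (n : ℝ) = 3 * m := by rw [hnm]; push_cast; ring
    have h5 : √(m : ℝ) / 16 * (c1 / √(m : ℝ) * 2 ^ m) ^ 3 =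
        c1 ^ 3 / (16 * √(m : ℝ) ^ 2) * 2 ^ n := by
      rw [mul_pow, div_pow, ← pow_mul, hnm, mul_comm m 3]
      field_simp
    rw [h5, hsq, hal, hnr]
    apply le_of_eq
    field_simp

end Pool.MP43e44c.GL
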