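import Pool.Agent.H.MP_43e44c_ag.GL.UpA
import Pool.Agent.H.MP_43e44c_ag.GL.Sp
import Pool.Agent.H.MP_43e44c_ag.GL.Atom

/-!
Upper bound for two representations.
-/

set_option autoImplicit false

open Finset

namespace Pool.MP43e44c.GL

section UpC

variable {G : Type*} [Group G] [Fintype G] {c : G} {k : Fin 5} {ρ ρ' : G →* M2}

omit [Fintype G] in
theorem upC_neg (h : Typ c k ρ) (h' : Typ c k ρ') (g : G) :
    co2 k ρ ρ' (g * c) = - co2 k ρ ρ' g := by
  funext p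
  rcases p with p | p
  · simp only [co2, co1, Sum.elim_inl, Pi.neg_apply, map_mul, h.odd, mul_neg, mul_one,
      Matrix.neg_apply]
  · simp only [co2, co1, Sum.elim_inr, Pi.neg_apply, map_mul, h'.odd, mul_neg, mul_one,
      Matrix.neg_apply]

omit [Fintype G] in
theorem upC_abs (h : Typ c k ρ) (h' : Typ c k ρ') (g : G) (p : coo k ⊕ coo k) :
    |co2 k ρ ρ' g p| ≤ 1 := by
  rcases p with p | p
  · exact full_abs k _ (h.mem g) _ _
  · exact full_abs k _ (h'.mem g) _ _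

theorem upC_hc (k : Fin 5) : 2 * hc k ≤ 12 := by
  revert k; decide

theorem upC_ker (h : Typ c k ρ) : ρ.ker.index ≤ 12 := by
  have h1 := ker_card h
  have h2 := Subgroup.card_mul_index ρ.ker
  rw [Nat.card_eq_fintype_card (α := G), h1, mul_comm (2 * hc k)] at h2
  have hpos : 0 < Nat.card ρ.ker := Nat.card_pos
  have h3 := Nat.eq_of_mul_eq_mul_left hpos h2
  rw [h3]
  exact upC_hc k

theorem upC_ninf (h : Typ c k ρ) (h' : Typ c k ρ') :
    Fintype.card G ≤ 144 * Nat.card (ρ.ker ⊓ ρ'.ker : Subgroup G) := by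
  have h2 := Subgroup.card_mul_index (ρ.ker ⊓ ρ'.ker)
  have h3 : (ρ.ker ⊓ ρ'.ker).index ≤ ρ.ker.index * ρ'.ker.index := Subgroup.index_inf_le
  have h4 : ρ.ker.index * ρ'.ker.index ≤ 12 * 12 := Nat.mul_le_mul (upC_ker h) (upC_ker h')
  rw [Nat.card_eq_fintype_card (α := G)] at h2
  rw [← h2, mul_comm]
  exact Nat.mul_le_mul_right _ (h3.trans h4)

theorem upC_fib (h : Typ c k ρ) (h' : Typ c k ρ') {n : ℕ} (hn : Fintype.card G = 2 * n)
    (T : Finset G) (hT : T = univ.filter fun g => ρ g ∈ hf k) (t : T) :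
    (1 / 144 : ℝ) * n ≤ ({i : T | co2 k ρ ρ' i = co2 k ρ ρ' t}.ncard : ℝ) := by
  have h1 := upC_ninf h h'
  have h2 : Nat.card (ρ.ker ⊓ ρ'.ker : Subgroup G)
      ≤ {i : T | co2 k ρ ρ' i = co2 k ρ ρ' t}.ncard := by
    have hmem : ∀ m : (ρ.ker ⊓ ρ'.ker : Subgroup G), (t : G) * (m : G) ∈ T := by
      intro m
      have hm := m.2
      rw [Subgroup.mem_inf, MonoidHom.mem_ker, MonoidHom.mem_ker] at hm
      have hTm : ∀ g, g ∈ T ↔ ρ g ∈ hf k := by
        intro g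
        rw [hT, mem_filter]
        simp
      rw [hTm, map_mul, hm.1, mul_one]
      exact (hTm _).1 t.2
    have hco : ∀ m : (ρ.ker ⊓ ρ'.ker : Subgroup G),
        co2 k ρ ρ' ((t : G) * (m : G)) = co2 k ρ ρ' t := by
      intro m
      have hm := m.2
      rw [Subgroup.mem_inf, MonoidHom.mem_ker, MonoidHom.mem_ker] at hm
      funext p
      rcases p with p | p
      · simp only [co2, co1, Sum.elim_inl, map_mul, hm.1, mul_one]
      · simp only [co2, co1, Sum.elim_inr, map_mul, hm.2, mul_one]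
    rw [← Nat.card_coe_set_eq]
    refine Nat.card_le_card_of_injective
      (fun m : (ρ.ker ⊓ ρ'.ker : Subgroup G) =>
        (⟨⟨(t : G) * (m : G), hmem m⟩, hco m⟩ : {i : T | co2 k ρ ρ' i = co2 k ρ ρ' t})) ?_
    intro m m' hmm
    have h3 := congrArg (fun z : {i : T | co2 k ρ ρ' i = co2 k ρ ρ' t} => ((z : T) : G)) hmm
    exact Subtype.ext (mul_left_cancel h3)
  have h3 : (2 * n : ℕ) ≤ 144 * {i : T | co2 k ρ ρ' i = co2 k ρ ρ' t}.ncard := by
    rw [← hn]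
    exact h1.trans (Nat.mul_le_mul_left _ h2)
  have h4 : ((2 * n : ℕ) : ℝ) ≤ ((144 * {i : T | co2 k ρ ρ' i = co2 k ρ ρ' t}.ncard : ℕ) : ℝ) :=
    Nat.cast_le.2 h3
  push_cast at h4
  have h5 : (0 : ℝ) ≤ n := Nat.cast_nonneg _
  linarith

/-- The sum over pairs. -/
theorem upC_prod {κ : Type*} [Fintype κ] [DecidableEq κ] (Z : Finset (κ ⊕ κ → ℤ))
    (S S' : Finset (κ → ℤ)) (hS : ∀ z ∈ Z, (fun p => z (Sum.inl p)) ∈ S)
    (hS' : ∀ z ∈ Z, (fun p => z (Sum.inr p)) ∈ S') (a b : ℝ) :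
    ∑ z ∈ Z, Real.exp (-a * (∑ p, (z p : ℝ) ^ 2) / b)
      ≤ (∑ z ∈ S, Real.exp (-a * (∑ p, (z p : ℝ) ^ 2) / b)) *
        ∑ z ∈ S', Real.exp (-a * (∑ p, (z p : ℝ) ^ 2) / b) := by
  classical
  rw [Finset.sum_mul_sum, ← Finset.sum_product']
  let e : (κ ⊕ κ → ℤ) → (κ → ℤ) × (κ → ℤ) :=
    fun z => (fun p => z (Sum.inl p), fun p => z (Sum.inr p))
  have he : Function.Injective e := by
    intro z z' hzz
    have h1 := congrArg Prod.fst hzz
    have h2 := congrArg Prod.snd hzz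
    funext p
    rcases p with p | p
    · exact congrFun h1 p
    · exact congrFun h2 p
  have h1 : ∑ z ∈ Z, Real.exp (-a * (∑ p, (z p : ℝ) ^ 2) / b)
      = ∑ x ∈ Z.image e, Real.exp (-a * (∑ p, (x.1 p : ℝ) ^ 2) / b) *
        Real.exp (-a * (∑ p, (x.2 p : ℝ) ^ 2) / b) := by
    rw [Finset.sum_image (fun x _ y _ hxy => he hxy)]
    refine Finset.sum_congr rfl fun z _ => ?_
    rw [← Real.exp_add, Fintype.sum_sum_type]
    congr 1
    ring
  rw [h1]
  refine Finset.sum_le_sum_of_subset_of_nonneg ?_ fun _ _ _ => by positivity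
  intro x hx
  rw [Finset.mem_image] at hx
  obtain ⟨z, hz, rfl⟩ := hx
  exact Finset.mem_product.2 ⟨hS z hz, hS' z hz⟩

end UpC

/-- PROOF. As `ev_up` with `κ = coo k ⊕ coo k`, `x t = co2 k ρ ρ' t`, `b` from `basis_pair`.  The set of the
`t ∈ T` with `x t = b q` contains the coset `t q * N` of `N = ρ.ker ⊓ ρ'.ker`, which has index at most
`12 * 12` in `G` and is contained in `T`, so `η = 1 / 144` works.  The sum over the pairs `(z, z')` of the
Gaussian weights is the product of two sums as in `gauss_sum`. -/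
theorem ev_pair.{u} (k : Fin 5) : ∃ C : ℝ, 0 < C ∧
    ∀ {G : Type u} [Group G] [Fintype G] [DecidableEq G] {c : G} {ρ ρ' : G →* M2}, c * c = 1 →
      Typ c k ρ → Typ c k ρ' → ρ.ker ≠ ρ'.ker →
      ∀ n : ℕ, Fintype.card G = 2 * n → 2 ≤ n →
      ((Ev c ρ ∩ Ev c ρ').card : ℝ) ≤ C * (al k n) ^ 2 * 2 ^ n := by
  obtain ⟨C₁, c₁, hC₁, hc₁, hatom⟩ := atom.{u, 0} (coo k ⊕ coo k) (η := 1 / 144) (by norm_num)
  obtain ⟨C₂, hC₂, hgauss⟩ := gauss_sum.{u} k hc₁
  refine ⟨C₁ * C₂ ^ 2, by positivity, ?_⟩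
  intro G _ _ _ c ρ ρ' hc2 h h' hne n hn h2n
  obtain ⟨T, hTdef⟩ : ∃ T : Finset G, T = univ.filter fun g => ρ g ∈ hf k := ⟨_, rfl⟩
  have hT : IsHf c T := by
    rw [hTdef]
    exact half_pre h
  have hTn : T.card = n := by
    have h1 := half_card hc2 hT
    omega
  have hTc : Fintype.card T = n := by
    rw [Fintype.card_coe, hTn]
  obtain ⟨t, ht⟩ := basis_pair h h' hne hc2 hT
  have hn0 : (0 : ℝ) < n := by
    have : 0 < n := by omega
    exact_mod_cast this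
  -- the count for one value
  have hone : ∀ z : coo k ⊕ coo k → ℤ,
      ({A : Finset G | IsHf c A ∧ ∑ g ∈ A, co2 k ρ ρ' g = z}.ncard : ℝ)
        ≤ C₁ * (n : ℝ) ^ (-(Fintype.card (coo k ⊕ coo k) : ℝ) / 2) *
          Real.exp (-c₁ * (∑ p, (z p : ℝ) ^ 2) / n) * 2 ^ n := by
    intro z
    have h1 := half_le hc2 hT (fun A => ∑ g ∈ A, co2 k ρ ρ' g = z)
      (fun v => ∑ i : T, (if v i then co2 k ρ ρ' i else - co2 k ρ ρ' i) = z) (by
        intro A hA hAz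
        have h3 := half_sum hc2 hT hA (fun g => co2 k ρ ρ' g) (upC_neg h h')
        rw [← hAz, h3]
        refine Finset.sum_congr rfl fun i _ => ?_
        by_cases hi : (i : G) ∈ A
        · simp [hi]
        · simp [hi])
    have h3 := hatom (ι := T) (fun i => co2 k ρ ρ' i) (fun i p => upC_abs h h' i p)
      (fun q => co2 k ρ ρ' (t q)) ht (by
        intro q
        rw [hTc]
        exact upC_fib h h' hn T hTdef (t q)) (by omega) z
    rw [hTc] at h3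
    exact (Nat.cast_le.2 h1).trans h3
  -- the sum over the values
  let Φ : Finset G → (coo k ⊕ coo k → ℤ) := fun A => ∑ g ∈ A, co2 k ρ ρ' g
  let E : Finset (Finset G) := Ev c ρ ∩ Ev c ρ'
  have hE : ∀ A ∈ E, IsHf c A ∧ A ∈ Ev c ρ ∧ A ∈ Ev c ρ' := by
    intro A hA
    have h1 := Finset.mem_inter.1 hA
    have h3 := h1.1
    simp only [Ev, Finset.mem_filter] at h3
    exact ⟨h3.2.1, h1.1, h1.2⟩
  have hcard : (E.card : ℝ) = ∑ z ∈ E.image Φ, ((E.filter fun A => Φ A = z).card : ℝ) := by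
    rw [Finset.card_eq_sum_card_image Φ E]
    push_cast
    rfl
  have hfil : ∀ z ∈ E.image Φ, ((E.filter fun A => Φ A = z).card : ℝ)
      ≤ C₁ * (n : ℝ) ^ (-(Fintype.card (coo k ⊕ coo k) : ℝ) / 2) *
          Real.exp (-c₁ * (∑ p, (z p : ℝ) ^ 2) / n) * 2 ^ n := by
    intro z _
    refine le_trans ?_ (hone z)
    rw [← Set.ncard_coe_finset]
    refine Nat.cast_le.2 (Set.ncard_le_ncard ?_ (Set.toFinite _))
    intro A hA
    have hA' := Finset.mem_filter.1 (Finset.mem_coe.1 hA)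
    exact ⟨(hE A hA'.1).1, hA'.2⟩
  have hsum : ∑ z ∈ E.image Φ, Real.exp (-c₁ * (∑ p, (z p : ℝ) ^ 2) / n)
      ≤ (C₂ * (n : ℝ) ^ (((coo k).card : ℝ) / 2) * al k n) *
        (C₂ * (n : ℝ) ^ (((coo k).card : ℝ) / 2) * al k n) := by
    have hp1 : ∀ A : Finset G, (fun p => Φ A (Sum.inl p)) = ∑ g ∈ A, co1 k ρ g := by
      intro A
      funext p
      simp only [Φ, Finset.sum_apply, co2, Sum.elim_inl]
    have hp2 : ∀ A : Finset G, (fun p => Φ A (Sum.inr p)) = ∑ g ∈ A, co1 k ρ' g := by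
      intro A
      funext p
      simp only [Φ, Finset.sum_apply, co2, Sum.elim_inr]
    have hg1 := hgauss h n h2n ((Ev c ρ).image fun A => ∑ g ∈ A, co1 k ρ g) (by
      intro z hz
      obtain ⟨A, hA, rfl⟩ := Finset.mem_image.1 hz
      exact ⟨A, hA, rfl⟩)
    have hg2 := hgauss h' n h2n ((Ev c ρ').image fun A => ∑ g ∈ A, co1 k ρ' g) (by
      intro z hz
      obtain ⟨A, hA, rfl⟩ := Finset.mem_image.1 hz
      exact ⟨A, hA, rfl⟩)
    refine (upC_prod (E.image Φ) ((Ev c ρ).image fun A => ∑ g ∈ A, co1 k ρ g)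
      ((Ev c ρ').image fun A => ∑ g ∈ A, co1 k ρ' g) ?_ ?_ c₁ n).trans ?_
    · intro z hz
      obtain ⟨A, hA, rfl⟩ := Finset.mem_image.1 hz
      rw [hp1]
      exact Finset.mem_image.2 ⟨A, (hE A hA).2.1, rfl⟩
    · intro z hz
      obtain ⟨A, hA, rfl⟩ := Finset.mem_image.1 hz
      rw [hp2]
      exact Finset.mem_image.2 ⟨A, (hE A hA).2.2, rfl⟩
    · refine mul_le_mul hg1 hg2 (Finset.sum_nonneg fun _ _ => (Real.exp_pos _).le) ?_
      exact (Finset.sum_nonneg fun _ _ => (Real.exp_pos _).le).trans hg1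
  have hpow : (n : ℝ) ^ (-(Fintype.card (coo k ⊕ coo k) : ℝ) / 2) *
      ((n : ℝ) ^ (((coo k).card : ℝ) / 2) * (n : ℝ) ^ (((coo k).card : ℝ) / 2)) = 1 := by
    rw [← Real.rpow_add hn0, ← Real.rpow_add hn0, Fintype.card_sum, Fintype.card_coe]
    push_cast
    have h0 : -(((coo k).card : ℝ) + ((coo k).card : ℝ)) / 2
        + (((coo k).card : ℝ) / 2 + ((coo k).card : ℝ) / 2) = 0 := by ring
    rw [h0, Real.rpow_zero]
  have hfin : (E.card : ℝ) ≤ C₁ * (n : ℝ) ^ (-(Fintype.card (coo k ⊕ coo k) : ℝ) / 2) *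
      ((C₂ * (n : ℝ) ^ (((coo k).card : ℝ) / 2) * al k n) *
        (C₂ * (n : ℝ) ^ (((coo k).card : ℝ) / 2) * al k n)) * 2 ^ n := by
    rw [hcard]
    refine (Finset.sum_le_sum hfil).trans ?_
    rw [← Finset.sum_mul, ← Finset.mul_sum]
    have hA0 : 0 ≤ C₁ * (n : ℝ) ^ (-(Fintype.card (coo k ⊕ coo k) : ℝ) / 2) := by positivity
    exact mul_le_mul_of_nonneg_right (mul_le_mul_of_nonneg_left hsum hA0) (by positivity)
  refine hfin.trans (le_of_eq ?_)
  calc C₁ * (n : ℝ) ^ (-(Fintype.card (coo k ⊕ coo k) : ℝ) / 2) *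
      ((C₂ * (n : ℝ) ^ (((coo k).card : ℝ) / 2) * al k n) *
        (C₂ * (n : ℝ) ^ (((coo k).card : ℝ) / 2) * al k n)) * 2 ^ n
      = ((n : ℝ) ^ (-(Fintype.card (coo k ⊕ coo k) : ℝ) / 2) *
      ((n : ℝ) ^ (((coo k).card : ℝ) / 2) * (n : ℝ) ^ (((coo k).card : ℝ) / 2))) *
        (C₁ * C₂ ^ 2 * (al k n) ^ 2 * 2 ^ n) := by ring
    _ = C₁ * C₂ ^ 2 * (al k n) ^ 2 * 2 ^ n := by rw [hpow, one_mul]

end Pool.MP43e44c.GL
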