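import Pool.Agent.H.MP_43e44c_ag.GL.FldB
import Pool.Agent.H.MP_43e44c_ag.GL.Fcnt
import Pool.Agent.H.MP_43e44c_ag.GL.UpC
import Pool.Agent.H.MP_43e44c_ag.GL.ExB
import Pool.Agent.H.MP_43e44c_ag.GL.LowB
import Pool.Agent.H.MP_43e44c_ag.GL.Low2
import Pool.Agent.H.MP_43e44c_ag.GL.Low3
import Pool.Agent.H.MP_43e44c_ag.AB.Bonf

/-!
Galois CM fields: the lower bound.
-/

set_option autoImplicit false

open NumberField Finset Module

namespace Pool.MP43e44c.GL

/-- `ev_low_abel`, `ev_low_three`, `ev_low_four`. -/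
theorem ev_low.{u} (k : Fin 5) : ∃ c₀ : ℝ, 0 < c₀ ∧ ∃ n₀ : ℕ,
    ∀ {G : Type u} [Group G] [Fintype G] {c : G} {ρ : G →* M2}, c * c = 1 → Typ c k ρ →
      ∀ n : ℕ, Fintype.card G = 2 * n → n₀ ≤ n → (k = 0 → 2 ∣ n) → (k = 1 → 4 ∣ n) →
      c₀ * al k n * 2 ^ n ≤ ((Ev c ρ).card : ℝ) := by
  by_cases hk : k ≤ 2
  · exact ev_low_abel.{u} k hk
  · by_cases hk3 : k = 3
    · subst hk3
      obtain ⟨c₀, hc₀, n₀, h⟩ := ev_low_three.{u}
      exact ⟨c₀, hc₀, n₀, fun {G} _ _ {c ρ} h1 h2 n h3 h4 _ _ => h h1 h2 n h3 h4⟩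
    · have hk4 : k = 4 := by
        revert hk hk3
        revert k
        decide
      subst hk4
      obtain ⟨c₀, hc₀, n₀, h⟩ := ev_low_four.{u}
      exact ⟨c₀, hc₀, n₀, fun {G} _ _ {c ρ} h1 h2 n h3 h4 _ _ => h h1 h2 n h3 h4⟩

theorem mainA_pos (k : Fin 5) {n : ℕ} (hn : 2 ≤ n) : 0 < al k n := by
  have h0 : (0 : ℝ) < n := by
    exact_mod_cast (by omega : 0 < n)
  have h1 : (1 : ℝ) < n := by
    exact_mod_cast (by omega : 1 < n)
  have h2 : 0 < Real.log n := Real.log_pos h1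
  fin_cases k
  · change 0 < 1 / √(n : ℝ)
    positivity
  · change 0 < 1 / (n : ℝ)
    positivity
  · change 0 < 1 / (n : ℝ)
    positivity
  · change 0 < Real.log n / (n : ℝ)
    positivity
  · change 0 < Real.log n / (n : ℝ)
    positivity

theorem mainA_tendsto (k : Fin 5) : Filter.Tendsto (al k) Filter.atTop (nhds 0) := by
  have hlog : Filter.Tendsto (fun n : ℕ => Real.log n / (n : ℝ)) Filter.atTop (nhds 0) := by
    have h1 : Filter.Tendsto (fun x : ℝ => Real.log x / x) Filter.atTop (nhds 0) := by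
      have := Real.isLittleO_log_id_atTop.tendsto_div_nhds_zero
      simpa using this
    exact h1.comp tendsto_natCast_atTop_atTop
  have hone : Filter.Tendsto (fun n : ℕ => 1 / (n : ℝ)) Filter.atTop (nhds 0) :=
    tendsto_one_div_atTop_nhds_zero_nat
  have hsq : Filter.Tendsto (fun n : ℕ => 1 / √(n : ℝ)) Filter.atTop (nhds 0) := by
    have h1 : Filter.Tendsto (fun n : ℕ => √(n : ℝ)) Filter.atTop Filter.atTop :=
      Real.tendsto_sqrt_atTop.comp tendsto_natCast_atTop_atTop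
    have h2 := h1.inv_tendsto_atTop
    refine h2.congr ?_
    intro n
    rw [Pi.inv_apply, one_div]
  fin_cases k
  · exact hsq
  · exact hone
  · exact hone
  · exact hlog
  · exact hlog

/-- PROOF. As `family_lower` (AB/Fam.lean).  Let `S` be the finite set `GCnt K n k`, `ρ F` from
`exists_rep`, `E F = Ev c (ρ F)`; `union_lower` (AB/Bonf.lean) with `N = 2 ^ n`, `α = c₀ al k n` (`ev_low`;
positive for `n ≥ 2`), `κ = max 1 (C / c₀ ^ 2)` (`ev_pair`; different fields have different fixing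
subgroups); `κ α ≤ 1` for `n ≥ n₀` since `al k n → 0`.  The union is bounded by `card_ev_le`. -/
theorem kind_lower.{u} (k : Fin 5) : ∃ c₀ : ℝ, 0 < c₀ ∧ ∃ n₀ : ℕ,
    ∀ {K : Type u} [Field K] [NumberField K] [IsCMField K] [IsGalois ℚ K] {n : ℕ},
    finrank ℚ K = 2 * n → n₀ ≤ n →
    c₀ * min 1 ((GCnt K n k).ncard * al k n) * 2 ^ n
      ≤ ({Φ : Finset (K →+* ℂ) | IsCMType Φ ∧ ¬ HodgeRingGeneratedByDivisors Φ}.ncard : ℝ)
        + 2 * n * 2 ^ (n / 2) := by
  obtain ⟨c₁, hc₁, n₁, hlow⟩ := ev_low.{u} k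
  obtain ⟨C, hC, hpair⟩ := ev_pair.{u} k
  have hκ1 : (1 : ℝ) ≤ max 1 (C / c₁ ^ 2) := le_max_left _ _
  have hκ2 : C / c₁ ^ 2 ≤ max 1 (C / c₁ ^ 2) := le_max_right _ _
  obtain ⟨κ, hκ⟩ : ∃ κ : ℝ, κ = max 1 (C / c₁ ^ 2) := ⟨_, rfl⟩
  rw [← hκ] at hκ1 hκ2
  have hκ0 : 0 < κ := by linarith
  have hev : ∀ᶠ n : ℕ in Filter.atTop, al k n < 1 / (κ * c₁) :=
    (mainA_tendsto k).eventually_lt_const (by positivity)
  obtain ⟨n₂, hn₂⟩ := Filter.eventually_atTop.1 hev
  refine ⟨1 / (4 * κ) * min 1 c₁, by positivity, max (max n₁ n₂) 2, ?_⟩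
  intro K _ _ _ _ n hn hn0
  classical
  have hn1 : n₁ ≤ n := (le_max_left _ _).trans ((le_max_left _ _).trans hn0)
  have hn2 : n₂ ≤ n := (le_max_right _ _).trans ((le_max_left _ _).trans hn0)
  have hn3 : 2 ≤ n := (le_max_right _ _).trans hn0
  have hal : 0 < al k n := mainA_pos k hn3
  obtain ⟨φ⟩ : Nonempty (K →+* ℂ) := inferInstance
  obtain ⟨c, hc2, hc1, hcen, hcφ, hc'⟩ := exists_conj φ
  have : Finite (IntermediateField ℚ K) := Field.exists_primitive_element_iff_finite_intermediateField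
    ℚ K |>.1 ⟨inferInstance, Field.exists_primitive_element ℚ K⟩
  have hfin : (GCnt K n k).Finite := Set.toFinite _
  obtain ⟨S, hS⟩ : ∃ S : Finset (IntermediateField ℚ K), S = hfin.toFinset := ⟨_, rfl⟩
  have hmem : ∀ F, F ∈ S ↔ F ∈ GCnt K n k := by
    intro F
    rw [hS, Set.Finite.mem_toFinset]
  have hcard : (GCnt K n k).ncard = S.card := by
    rw [hS, Set.ncard_eq_toFinset_card _ hfin]
  have hcG : Fintype.card (K ≃ₐ[ℚ] K) = 2 * n := by
    rw [← Nat.card_eq_fintype_card, IsGalois.card_aut_eq_finrank, hn]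
  have hex : ∀ F : IntermediateField ℚ K, ∃ ρ : (K ≃ₐ[ℚ] K) →* M2, F ∈ S →
      Typ c k ρ ∧ ρ.ker = F.fixingSubgroup := by
    intro F
    by_cases hF : F ∈ S
    · obtain ⟨ρ, h1, h2⟩ := exists_rep ((hmem F).1 hF).1 hc2 hcen hc'
      exact ⟨ρ, fun _ => ⟨h1, h2⟩⟩
    · exact ⟨1, fun h => absurd h hF⟩
  choose ρ hρ using hex
  have hα : 0 < c₁ * al k n := mul_pos hc₁ hal
  have hκα : κ * (c₁ * al k n) ≤ 1 := by
    have h1 := (hn₂ n hn2).le
    rw [le_div_iff₀ (by positivity)] at h1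
    linarith
  have h1 := union_lower S (fun F => Ev c (ρ F)) (N := 2 ^ n) (α := c₁ * al k n) (κ := κ)
    (by positivity) hα hκ1 hκα
    (fun F hF => hlow hc2 (hρ F hF).1 n hcG hn1 ((hmem F).1 hF).2.1 ((hmem F).1 hF).2.2)
    (fun F hF F' hF' hne => by
      have hker : (ρ F).ker ≠ (ρ F').ker := by
        rw [(hρ F hF).2, (hρ F' hF').2]
        intro h
        apply hne
        rw [← IsGalois.fixedField_fixingSubgroup F, h, IsGalois.fixedField_fixingSubgroup F']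
      have h2 := hpair hc2 (hρ F hF).1 (hρ F' hF').1 hker n hcG hn3
      refine h2.trans ?_
      apply mul_le_mul_of_nonneg_right _ (by positivity)
      have h3 : κ * (c₁ * al k n) ^ 2 = (κ * c₁ ^ 2) * (al k n) ^ 2 := by ring
      rw [h3]
      apply mul_le_mul_of_nonneg_right _ (by positivity)
      rwa [div_le_iff₀ (by positivity)] at hκ2)
  have h2 : (S.biUnion fun F => Ev c (ρ F)).card
      ≤ {Φ : Finset (K →+* ℂ) | IsCMType Φ ∧ ¬ HodgeRingGeneratedByDivisors Φ}.ncard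
      + 2 * n * 2 ^ (n / 2) := by
    apply card_ev_le hc2 hc1 hcen hcφ hn
    intro A hA
    obtain ⟨F, hF, hA⟩ := mem_biUnion.1 hA
    exact ⟨ρ F, (hρ F hF).1.odd, hA⟩
  have h3 : ((S.biUnion fun F => Ev c (ρ F)).card : ℝ)
      ≤ ({Φ : Finset (K →+* ℂ) | IsCMType Φ ∧ ¬ HodgeRingGeneratedByDivisors Φ}.ncard : ℝ)
        + 2 * n * 2 ^ (n / 2) := by
    exact_mod_cast h2
  refine le_trans ?_ (h1.trans h3)
  rw [hcard]
  have hx : 0 ≤ (S.card : ℝ) * al k n := by positivity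
  have h4 : min 1 c₁ * min 1 ((S.card : ℝ) * al k n) ≤ min 1 ((S.card : ℝ) * (c₁ * al k n)) := by
    have ha : 0 ≤ min 1 c₁ := (lt_min one_pos hc₁).le
    have hb : 0 ≤ min 1 ((S.card : ℝ) * al k n) := le_min zero_le_one hx
    apply le_min
    · calc min 1 c₁ * min 1 ((S.card : ℝ) * al k n) ≤ 1 * 1 :=
            mul_le_mul (min_le_left _ _) (min_le_left _ _) hb zero_le_one
        _ = 1 := one_mul 1
    · calc min 1 c₁ * min 1 ((S.card : ℝ) * al k n) ≤ c₁ * ((S.card : ℝ) * al k n) :=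
            mul_le_mul (min_le_right _ _) (min_le_right _ _) hb hc₁.le
        _ = (S.card : ℝ) * (c₁ * al k n) := by ring
  apply mul_le_mul_of_nonneg_right _ (by positivity)
  rw [mul_assoc]
  exact mul_le_mul_of_nonneg_left h4 (by positivity)

end Pool.MP43e44c.GL
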