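import Pool.Agent.H.MP_43e44c_ag.GL.MainA

/-!
Galois CM fields: the lower bound.
-/

set_option autoImplicit false

open NumberField Finset Module

namespace Pool.MP43e44c.GL

private lemma MainB_al_ge (k : Fin 5) {n : ℕ} (hn : 3 ≤ n) : 1 / (n : ℝ) ≤ al k n := by
  have hn3 : (3 : ℝ) ≤ n := by exact_mod_cast hn
  have hn0 : (0 : ℝ) < n := by linarith
  have hlog : 1 ≤ Real.log n := by
    rw [Real.le_log_iff_exp_le hn0]
    have := Real.exp_one_lt_d9
    linarith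
  have h3 : 1 / (n : ℝ) ≤ Real.log n / n := by gcongr
  have h0 : 1 / (n : ℝ) ≤ 1 / √n := by
    have hs : 0 < √(n : ℝ) := Real.sqrt_pos.2 hn0
    have hle : √(n : ℝ) ≤ n := by
      rw [Real.sqrt_le_left hn0.le]
      nlinarith
    exact one_div_le_one_div_of_le hs hle
  fin_cases k
  · exact h0
  · exact le_rfl
  · exact le_rfl
  · exact h3
  · exact h3

private lemma MainB_err {c : ℝ} (hc : 0 < c) : ∃ n₁ : ℕ, ∀ n : ℕ, n₁ ≤ n →
    2 * (n : ℝ) * 2 ^ (n / 2) ≤ c / 2 * (1 / n) * 2 ^ n := by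
  have hlim := tendsto_pow_const_div_const_pow_of_one_lt 2 (by norm_num : (1 : ℝ) < 2)
  have hev := hlim.eventually (gt_mem_nhds (show (0 : ℝ) < c / 36 by positivity))
  obtain ⟨m₁, hm₁⟩ := Filter.eventually_atTop.1 hev
  refine ⟨2 * m₁ + 2, fun n hn => ?_⟩
  have hm : m₁ ≤ n / 2 := by omega
  have hm1 : 1 ≤ n / 2 := by omega
  have h1 := hm₁ (n / 2) hm
  have hn0 : (0 : ℝ) < n := by
    have : 0 < n := by omega
    exact_mod_cast this
  have hnm : (n : ℝ) ≤ 3 * ((n / 2 : ℕ) : ℝ) := by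
    have : n ≤ 3 * (n / 2) := by omega
    exact_mod_cast this
  have hpow : (2 : ℝ) ^ (n / 2) * 2 ^ (n / 2) ≤ 2 ^ n := by
    rw [← pow_add]
    exact pow_le_pow_right₀ (by norm_num) (by omega)
  generalize ((n / 2 : ℕ) : ℝ) = m at h1 hnm
  have hp : (0 : ℝ) < 2 ^ (n / 2) := by positivity
  rw [div_lt_iff₀ hp] at h1
  have hsq : (n : ℝ) * n ≤ 9 * m ^ 2 := by nlinarith
  have h2 : 4 * ((n : ℝ) * n) ≤ c * 2 ^ (n / 2) := by linarith
  have h3 : 4 * ((n : ℝ) * n) * 2 ^ (n / 2) ≤ c * 2 ^ n := by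
    calc 4 * ((n : ℝ) * n) * 2 ^ (n / 2) ≤ c * 2 ^ (n / 2) * 2 ^ (n / 2) :=
          mul_le_mul_of_nonneg_right h2 hp.le
      _ = c * (2 ^ (n / 2) * 2 ^ (n / 2)) := by ring
      _ ≤ c * 2 ^ n := mul_le_mul_of_nonneg_left hpow hc.le
  have h4 : c / 2 * (1 / n) * 2 ^ n = c * 2 ^ n / (2 * n) := by
    field_simp
  rw [h4, le_div_iff₀ (by positivity)]
  calc 2 * (n : ℝ) * 2 ^ (n / 2) * (2 * n) = 4 * ((n : ℝ) * n) * 2 ^ (n / 2) := by ring
    _ ≤ c * 2 ^ n := h3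

/-- PROOF. If `GCnt K n k` is not empty then `(GCnt K n k).ncard * al k n ≥ 1 / n` for `n ≥ 3`, so the error
term `2 n 2 ^ (n / 2)` in `kind_lower` is at most half of the left side for `n ≥ n₀`.  Sum over the five
types: `min 1 (∑ x k) ≤ ∑ min 1 (x k)`, and `∑_k min 1 (x k) ≤ 5 max_k min 1 (x k)`. -/
theorem gal_lower.{u} : ∃ c₀ : ℝ, 0 < c₀ ∧ ∃ n₀ : ℕ,
    ∀ {K : Type u} [Field K] [NumberField K] [IsCMField K] [IsGalois ℚ K] {n : ℕ},
    finrank ℚ K = 2 * n → n₀ ≤ n →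
    c₀ * min 1 (∑ k, (GCnt K n k).ncard * al k n) * 2 ^ n
      ≤ ({Φ : Finset (K →+* ℂ) | IsCMType Φ ∧ ¬ HodgeRingGeneratedByDivisors Φ}.ncard : ℝ) := by
  choose c hc n₀ hlow using fun k => kind_lower.{u} k
  obtain ⟨k₀, -, hk₀⟩ := Finset.exists_min_image (univ : Finset (Fin 5)) c ⟨0, mem_univ 0⟩
  obtain ⟨n₁, hn₁⟩ := MainB_err (hc k₀)
  refine ⟨c k₀ / 10, by have := hc k₀; positivity, n₁ + 3 + ∑ k, n₀ k, ?_⟩
  intro K _ _ _ _ n hK hn
  have hn3 : 3 ≤ n := by omega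
  have hn1 : n₁ ≤ n := by omega
  obtain ⟨k, -, hk⟩ := Finset.exists_max_image (univ : Finset (Fin 5))
    (fun k => ((GCnt K n k).ncard : ℝ) * al k n) ⟨0, mem_univ 0⟩
  have hnk : n₀ k ≤ n := by
    have := Finset.single_le_sum (f := n₀) (fun i _ => Nat.zero_le (n₀ i)) (mem_univ k)
    omega
  have h1 := hlow k (K := K) hK hnk
  have hal : 1 / (n : ℝ) ≤ al k n := MainB_al_ge k hn3
  have hn0 : (0 : ℝ) < n := by
    have : 0 < n := by omega
    exact_mod_cast this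
  have hal0 : 0 < al k n := lt_of_lt_of_le (by positivity) hal
  have hN : (0 : ℝ) ≤
      ({Φ : Finset (K →+* ℂ) | IsCMType Φ ∧ ¬ HodgeRingGeneratedByDivisors Φ}.ncard : ℝ) :=
    Nat.cast_nonneg _
  have hsum : ∑ j, ((GCnt K n j).ncard : ℝ) * al j n ≤ 5 * (((GCnt K n k).ncard : ℝ) * al k n) := by
    have h2 := Finset.sum_le_card_nsmul (univ : Finset (Fin 5))
      (fun j => ((GCnt K n j).ncard : ℝ) * al j n) (((GCnt K n k).ncard : ℝ) * al k n)
      (fun j hj => hk j hj)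
    rw [Finset.card_univ, Fintype.card_fin, nsmul_eq_mul] at h2
    exact_mod_cast h2
  have hx0 : 0 ≤ ((GCnt K n k).ncard : ℝ) * al k n := mul_nonneg (Nat.cast_nonneg _) hal0.le
  have hmin : min 1 (∑ j, ((GCnt K n j).ncard : ℝ) * al j n) ≤
      5 * min 1 (((GCnt K n k).ncard : ℝ) * al k n) := by
    rcases le_total 1 (((GCnt K n k).ncard : ℝ) * al k n) with h | h
    · rw [min_eq_left h]
      have := min_le_left 1 (∑ j, ((GCnt K n j).ncard : ℝ) * al j n)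
      linarith
    · rw [min_eq_right h]
      exact (min_le_right _ _).trans hsum
  have h2n : (0 : ℝ) < 2 ^ n := by positivity
  have hc0 := hc k₀
  have hck : c k₀ ≤ c k := hk₀ k (mem_univ k)
  rcases Nat.eq_zero_or_pos (GCnt K n k).ncard with h0 | h0
  · have h5 : min 1 (∑ j, ((GCnt K n j).ncard : ℝ) * al j n) ≤ 0 := by
      refine hmin.trans ?_
      rw [h0, Nat.cast_zero, zero_mul, min_eq_right zero_le_one, mul_zero]
    have h6 : c k₀ / 10 * min 1 (∑ j, ((GCnt K n j).ncard : ℝ) * al j n) * 2 ^ n ≤ 0 := by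
      have h7 : c k₀ / 10 * min 1 (∑ j, ((GCnt K n j).ncard : ℝ) * al j n) ≤ 0 :=
        mul_nonpos_of_nonneg_of_nonpos (by positivity) h5
      exact mul_nonpos_of_nonpos_of_nonneg h7 h2n.le
    exact h6.trans hN
  · have hcard : (1 : ℝ) ≤ (GCnt K n k).ncard := by exact_mod_cast h0
    have hx : 1 / (n : ℝ) ≤ ((GCnt K n k).ncard : ℝ) * al k n := by
      refine hal.trans ?_
      exact le_mul_of_one_le_left hal0.le hcard
    have hn1' : 1 / (n : ℝ) ≤ 1 := by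
      rw [div_le_one hn0]
      exact_mod_cast (by omega : 1 ≤ n)
    have hmin2 : 1 / (n : ℝ) ≤ min 1 (((GCnt K n k).ncard : ℝ) * al k n) := le_min hn1' hx
    generalize min 1 (((GCnt K n k).ncard : ℝ) * al k n) = y at h1 hmin hmin2
    generalize min 1 (∑ j, ((GCnt K n j).ncard : ℝ) * al j n) = z at hmin ⊢
    generalize ({Φ : Finset (K →+* ℂ) | IsCMType Φ ∧
      ¬ HodgeRingGeneratedByDivisors Φ}.ncard : ℝ) = N at h1 hN ⊢
    have herr := hn₁ n hn1
    have hy0 : 0 ≤ y := le_trans (by positivity) hmin2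
    have h8 : c k₀ / 2 * (1 / n) * 2 ^ n ≤ c k₀ / 2 * y * 2 ^ n := by
      refine mul_le_mul_of_nonneg_right ?_ h2n.le
      exact mul_le_mul_of_nonneg_left hmin2 (by positivity)
    have h9 : c k₀ * y * 2 ^ n ≤ c k * y * 2 ^ n := by
      refine mul_le_mul_of_nonneg_right ?_ h2n.le
      exact mul_le_mul_of_nonneg_right hck hy0
    have h10 : c k₀ / 10 * z * 2 ^ n ≤ c k₀ / 10 * (5 * y) * 2 ^ n := by
      refine mul_le_mul_of_nonneg_right ?_ h2n.le
      exact mul_le_mul_of_nonneg_left hmin (by positivity)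
    have h11 : c k₀ / 10 * (5 * y) * 2 ^ n = c k₀ / 2 * y * 2 ^ n := by ring
    have h12 : c k₀ * y * 2 ^ n = 2 * (c k₀ / 2 * y * 2 ^ n) := by ring
    linarith

end Pool.MP43e44c.GL
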