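import Pool.Agent.H.MP_43e44c_ag.GL.Co
import Pool.Agent.H.MP_43e44c_ag.GL.CntC

/-!
Gaussian sums over the degenerate values.
-/

set_option autoImplicit false

open Finset

namespace Pool.MP43e44c.GL

theorem upA_rel (k : Fin 5) (hk : k ≤ 2) : ∀ s ∈ full k,
    s 1 1 = s 0 0 + (if k = 2 then 1 else 0) * s 1 0 ∧ s 0 1 = - s 1 0 := by
  revert k; decide

theorem upA_form {t u v : ℤ} (ht : t = 0 ∨ t = 1) (h : u * (u + t * v) - (-v) * v = 0) :
    u = 0 ∧ v = 0 := by
  have h2 : (2 * u + t * v) ^ 2 + (4 - t ^ 2) * v ^ 2 = 0 := by linear_combination 4 * h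
  have hv : v = 0 := by
    rcases ht with rfl | rfl
    · have : v ^ 2 = 0 := by nlinarith [sq_nonneg (2 * u + 0 * v), sq_nonneg v]
      exact pow_eq_zero_iff (two_ne_zero) |>.1 this
    · have : v ^ 2 = 0 := by nlinarith [sq_nonneg (2 * u + 1 * v), sq_nonneg v]
      exact pow_eq_zero_iff (two_ne_zero) |>.1 this
  subst hv
  refine ⟨?_, rfl⟩
  have : u ^ 2 = 0 := by linear_combination h
  exact pow_eq_zero_iff (two_ne_zero) |>.1 this

/-- For the types `0, 1, 2` every integral combination of the elements of `full k` with determinant `0` is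
`0`: it is of the form `u` or `u + v rot t`, with determinant `u ^ 2` or `u ^ 2 + t u v + v ^ 2`. -/
theorem det_zero {k : Fin 5} (hk : k ≤ 2) {G : Type*} [Group G] {c : G} {ρ : G →* M2}
    (h : Typ c k ρ) (A : Finset G) (h0 : (∑ g ∈ A, ρ g).det = 0) : ∑ g ∈ A, ρ g = 0 := by
  have hM : ∀ i j, (∑ g ∈ A, ρ g) i j = ∑ g ∈ A, ρ g i j := fun i j =>
    Matrix.sum_apply i j A _
  have h1 : (∑ g ∈ A, ρ g) 1 1
      = (∑ g ∈ A, ρ g) 0 0 + (if k = 2 then 1 else 0) * (∑ g ∈ A, ρ g) 1 0 := by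
    rw [hM, hM, hM, mul_sum, ← sum_add_distrib]
    exact sum_congr rfl fun g _ => (upA_rel k hk _ (h.mem g)).1
  have h2 : (∑ g ∈ A, ρ g) 0 1 = - (∑ g ∈ A, ρ g) 1 0 := by
    rw [hM, hM, ← sum_neg_distrib]
    exact sum_congr rfl fun g _ => (upA_rel k hk _ (h.mem g)).2
  clear hM
  generalize (∑ g ∈ A, ρ g) = M at *
  have ht : (if k = 2 then (1 : ℤ) else 0) = 0 ∨ (if k = 2 then (1 : ℤ) else 0) = 1 := by
    split_ifs
    · exact Or.inr rfl
    · exact Or.inl rfl
  rw [Matrix.det_fin_two, h1, h2] at h0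
  obtain ⟨hu, hv⟩ := upA_form ht h0
  rw [hu, hv, mul_zero, add_zero] at h1
  rw [hv, neg_zero] at h2
  ext i j
  fin_cases i <;> fin_cases j
  · exact hu
  · exact h2
  · exact hv
  · exact h1

/-- The matrix with given coordinates. -/
def upA_mat {k : Fin 5} (hk : ∀ p, p ∈ coo k) (z : coo k → ℤ) : M2 :=
  Matrix.of fun i j => z ⟨(i, j), hk (i, j)⟩

theorem upA_mat_inj {k : Fin 5} (hk : ∀ p, p ∈ coo k) : Function.Injective (upA_mat hk) := by
  intro z w h
  funext ⟨⟨i, j⟩, hp⟩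
  have := congrFun (congrFun h i) j
  simpa [upA_mat] using this

theorem upA_mat_sum {k : Fin 5} (hk : ∀ p, p ∈ coo k) (z : coo k → ℤ) :
    ∑ p, (z p : ℝ) ^ 2 = ∑ i, ∑ j, (upA_mat hk z i j : ℝ) ^ 2 := by
  have h1 : ∑ p, (z p : ℝ) ^ 2 = ∑ p ∈ coo k, (z ⟨p, hk p⟩ : ℝ) ^ 2 :=
    (sum_coe_sort (coo k) (fun p => (z ⟨p, hk p⟩ : ℝ) ^ 2))
  have h2 : coo k = univ := eq_univ_iff_forall.2 hk
  have h3 : ∑ p ∈ coo k, (z ⟨p, hk p⟩ : ℝ) ^ 2 = ∑ p, (z ⟨p, hk p⟩ : ℝ) ^ 2 :=
    sum_congr h2 fun _ _ => rfl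
  rw [h1, h3, Fintype.sum_prod_type]
  rfl

theorem upA_one_le (k : Fin 5) (hk : k ≤ 2) (n : ℕ) (hn : 2 ≤ n) :
    1 ≤ (n : ℝ) ^ (((coo k).card : ℝ) / 2) * al k n := by
  have hn0 : (0 : ℝ) < n := by positivity
  apply le_of_eq
  fin_cases k
  · have h : (coo 0).card = 1 := by decide
    simp only [Fin.zero_eta, h, al]
    rw [Nat.cast_one, ← Real.sqrt_eq_rpow, mul_one_div, div_self (Real.sqrt_pos.2 hn0).ne']
  · have h : (coo 1).card = 2 := by decide
    simp only [Fin.mk_one, h, al]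
    norm_num
    field_simp
  · have h : (coo 2).card = 2 := by decide
    simp only [Fin.reduceFinMk, h, al]
    norm_num
    field_simp
  · exact absurd hk (by decide)
  · exact absurd hk (by decide)

theorem upA_eq (k : Fin 5) (hk : ¬ k ≤ 2) (n : ℕ) (hn : 2 ≤ n) :
    (n : ℝ) ^ (((coo k).card : ℝ) / 2) * al k n = n * Real.log n := by
  have hn0 : (0 : ℝ) < n := by positivity
  have h2 : (n : ℝ) ^ ((4 : ℝ) / 2) = (n : ℝ) ^ 2 := by
    rw [show ((4 : ℝ) / 2) = ((2 : ℕ) : ℝ) by norm_num, Real.rpow_natCast]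
  fin_cases k
  · exact absurd (by decide) hk
  · exact absurd (by decide) hk
  · exact absurd (by decide) hk
  · have h : (coo 3).card = 4 := by decide
    simp only [Fin.reduceFinMk, h, al]
    push_cast
    rw [h2]
    field_simp
  · have h : (coo 4).card = 4 := by decide
    simp only [Fin.reduceFinMk, h, al]
    push_cast
    rw [h2]
    field_simp

/-- The sum of the Gaussian weights over the possible values of the coordinates of a degenerate half
system is at most `C n ^ (card (coo k) / 2) al k n`: for `k ≤ 2` only the value `0` occurs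
(`det_zero`), for `k ≥ 3` the coordinates are the entries of a singular matrix (`sing_gauss`). -/
theorem gauss_sum.{u} (k : Fin 5) {c₀ : ℝ} (hc₀ : 0 < c₀) : ∃ C : ℝ, 0 < C ∧
    ∀ {G : Type u} [Group G] [Fintype G] {c : G} {ρ : G →* M2}, Typ c k ρ →
      ∀ n : ℕ, 2 ≤ n → ∀ S : Finset (coo k → ℤ),
      (∀ z ∈ S, ∃ A ∈ Ev c ρ, z = ∑ g ∈ A, co1 k ρ g) →
      ∑ z ∈ S, Real.exp (-c₀ * (∑ p, (z p : ℝ) ^ 2) / n)
        ≤ C * (n : ℝ) ^ (((coo k).card : ℝ) / 2) * al k n := by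
  by_cases hk : k ≤ 2
  · refine ⟨1, one_pos, ?_⟩
    intro G _ _ c ρ h n hn S hS
    have hS0 : S ⊆ {0} := by
      intro z hz
      obtain ⟨A, hA, rfl⟩ := hS z hz
      have hd : (∑ g ∈ A, ρ g).det = 0 := by
        classical
        exact ((mem_filter.1 hA).2).2
      have h0 := det_zero hk h A hd
      rw [mem_singleton]
      funext p
      rw [Finset.sum_apply]
      have h1 := congrFun (congrFun h0 p.1.1) p.1.2
      rw [Matrix.sum_apply] at h1
      exact h1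
    calc ∑ z ∈ S, Real.exp (-c₀ * (∑ p, (z p : ℝ) ^ 2) / n)
        ≤ ∑ z ∈ ({0} : Finset (coo k → ℤ)), Real.exp (-c₀ * (∑ p, (z p : ℝ) ^ 2) / n) :=
          sum_le_sum_of_subset_of_nonneg hS0 fun _ _ _ => (Real.exp_pos _).le
      _ = 1 := by simp
      _ ≤ (n : ℝ) ^ (((coo k).card : ℝ) / 2) * al k n := upA_one_le k hk n hn
      _ = 1 * (n : ℝ) ^ (((coo k).card : ℝ) / 2) * al k n := by rw [one_mul]
  · have hco : ∀ p, p ∈ coo k := by
      revert hk
      revert k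
      decide
    obtain ⟨C, hC, hsum⟩ := sing_gauss hc₀
    refine ⟨C, hC, ?_⟩
    intro G _ _ c ρ h n hn S hS
    classical
    rw [mul_assoc, upA_eq k hk n hn, ← mul_assoc]
    have h1 := hsum n hn (S.image (upA_mat hco)) ?_
    · rw [sum_image fun a _ b _ hab => upA_mat_inj hco hab] at h1
      refine le_trans (le_of_eq ?_) h1
      exact sum_congr rfl fun z _ => by rw [upA_mat_sum hco z]
    · intro M hM
      obtain ⟨z, hz, rfl⟩ := mem_image.1 hM
      obtain ⟨A, hA, rfl⟩ := hS z hz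
      have hd : (∑ g ∈ A, ρ g).det = 0 := ((mem_filter.1 hA).2).2
      rw [← hd]
      congr 1
      ext i j
      rw [upA_mat, Matrix.of_apply, Finset.sum_apply, Matrix.sum_apply]
      rfl

end Pool.MP43e44c.GL
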