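import Pool.Agent.H.MP_43e44c_ag.GL.UpA
import Pool.Agent.H.MP_43e44c_ag.GL.Fib2

/-!
No degenerate half systems.
-/

set_option autoImplicit false

open Finset

namespace Pool.MP43e44c.GL

/-- If `k = 0` and `n` is odd, or `k = 1` and `n / 2` is odd (`n` is even as `hc 1 = 2` divides `n`,
`ker_card`), there are no degenerate half systems: by `fib_sum` (with `j s = #{g ∈ A | ρ g = s}`) the
coefficient of `s` is `2 j s - m` with `m` odd, so it is not `0`; `det_zero` and the independence of `1`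
and `rot 0`. -/
theorem ev_zero {G : Type*} [Group G] [Fintype G] {c : G} {k : Fin 5} {ρ : G →* M2}
    (hc2 : c * c = 1) (h : Typ c k ρ) {n : ℕ} (hn : Fintype.card G = 2 * n)
    (h0 : (k = 0 ∧ ¬ 2 ∣ n) ∨ (k = 1 ∧ ¬ 4 ∣ n)) : Ev c ρ = ∅ := by
  classical
  rw [Finset.eq_empty_iff_forall_notMem]
  intro A hA
  unfold Ev at hA
  rw [mem_filter] at hA
  obtain ⟨-, hAh, hdet⟩ := hA
  have hk : k ≤ 2 := by
    rcases h0 with ⟨rfl, -⟩ | ⟨rfl, -⟩ <;> decide
  have hz := det_zero hk h A hdet
  have hker := ker_card h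
  have hs := fib_sum h hc2 hker hAh (j := fun s => (A.filter fun g => ρ g = s).card)
    (fun s _ => rfl)
  rw [hz] at hs
  rw [hn] at hker
  generalize Nat.card ρ.ker = m at hs hker
  rcases h0 with ⟨rfl, h2⟩ | ⟨rfl, h4⟩
  · have h3 : hf 0 = {1} := rfl
    rw [h3, sum_singleton] at hs
    have h5 := congrFun (congrFun hs 0) 0
    rw [Matrix.zero_apply, Matrix.smul_apply, Matrix.one_apply_eq, smul_eq_mul, mul_one] at h5
    apply h2
    have h6 : hc 0 = 1 := rfl
    rw [h6] at hker
    omega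
  · have h3 : hf 1 = {1, rot 0} := rfl
    have h1 : (1 : M2) ∉ ({rot 0} : Finset M2) := by decide
    rw [h3, sum_insert h1, sum_singleton] at hs
    have h5 := congrFun (congrFun hs 0) 0
    have h7 : (rot 0) 0 0 = 0 := rfl
    rw [Matrix.zero_apply, Matrix.add_apply, Matrix.smul_apply, Matrix.smul_apply,
      Matrix.one_apply_eq, h7, smul_zero, add_zero, smul_eq_mul, mul_one] at h5
    apply h4
    have h6 : hc 1 = 2 := rfl
    rw [h6] at hker
    omega

end Pool.MP43e44c.GL
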